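import Mathlib

open Finset

namespace Pool.Agent.Helper42

/-- Two tuples with the same multiplicities are permutations of each other. -/
theorem exists_perm_of_count_eq {k : ℕ} {u u' : Fin k → ℕ}
    (h : ∀ c, (univ.filter (fun i => u i = c)).card = (univ.filter (fun i => u' i = c)).card) :
    ∃ σ : Equiv.Perm (Fin k), u' ∘ σ = u := by
  have e : ∀ c, Nonempty ({i // u i = c} ≃ {i // u' i = c}) := by
    intro c
    apply Fintype.card_eq.mp
    rw [Fintype.card_subtype, Fintype.card_subtype]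
    exact h c
  refine ⟨Equiv.ofFiberEquiv (fun c => (e c).some), ?_⟩
  ext i
  simp only [Function.comp_apply]
  exact Equiv.ofFiberEquiv_map _ i

/-- The number of rearrangements of a tuple is at most `k!`. -/
theorem sum_perm_le {k : ℕ} (T : Finset (Fin k → ℕ)) (W : (Fin k → ℕ) → ℝ)
    (hW : ∀ u, 0 ≤ W u) (hperm : ∀ u (σ : Equiv.Perm (Fin k)), W (u ∘ σ) = W u)
    (u : Fin k → ℕ) (hT : ∀ u' ∈ T, ∃ σ : Equiv.Perm (Fin k), u' = u ∘ σ) :
    ∑ u' ∈ T, W u' ≤ (k.factorial : ℝ) * W u := by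
  classical
  have hsub : T ⊆ (univ : Finset (Equiv.Perm (Fin k))).image (fun σ : Equiv.Perm (Fin k) => u ∘ (σ : Fin k → Fin k)) := by
    intro u' hu'
    obtain ⟨σ, hσ⟩ := hT u' hu'
    exact mem_image.mpr ⟨σ, mem_univ _, hσ.symm⟩
  calc ∑ u' ∈ T, W u' = ∑ u' ∈ T, W u := by
        apply sum_congr rfl
        intro u' hu'
        obtain ⟨σ, hσ⟩ := hT u' hu'
        rw [hσ, hperm]
    _ = (T.card : ℝ) * W u := by rw [sum_const, nsmul_eq_mul]
    _ ≤ (k.factorial : ℝ) * W u := by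
        apply mul_le_mul_of_nonneg_right _ (hW u)
        have h1 : T.card ≤ k.factorial := by
          calc T.card ≤ _ := card_le_card hsub
            _ ≤ (univ : Finset (Equiv.Perm (Fin k))).card := card_image_le
            _ = k.factorial := by rw [card_univ, Fintype.card_perm, Fintype.card_fin]
        exact_mod_cast h1

/-- Weighted count of pairs of tuples which are rearrangements of each other. -/
theorem sum_pairs_le {k : ℕ} (X : Finset ℕ) (w : ℕ → ℝ) (hw : ∀ n, 0 ≤ w n)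
    (R : (Fin k → ℕ) → (Fin k → ℕ) → Prop) [∀ u u', Decidable (R u u')]
    (hR : ∀ u ∈ Fintype.piFinset (fun _ : Fin k => X), ∀ u' ∈ Fintype.piFinset (fun _ : Fin k => X),
      R u u' → ∃ σ : Equiv.Perm (Fin k), u' = u ∘ σ) :
    ∑ u ∈ Fintype.piFinset (fun _ : Fin k => X),
      ∑ u' ∈ (Fintype.piFinset (fun _ : Fin k => X)).filter (fun u' => R u u'),
        (∏ i, w (u i)) * (∏ i, w (u' i)) ≤ (k.factorial : ℝ) * (∑ q ∈ X, w q ^ 2) ^ k := by
  have h1 : ∀ u ∈ Fintype.piFinset (fun _ : Fin k => X),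
      ∑ u' ∈ (Fintype.piFinset (fun _ : Fin k => X)).filter (fun u' => R u u'),
        (∏ i, w (u i)) * (∏ i, w (u' i)) ≤ (k.factorial : ℝ) * ∏ i, (w (u i)) ^ 2 := by
    intro u hu
    rw [← mul_sum]
    have h2 := sum_perm_le ((Fintype.piFinset (fun _ : Fin k => X)).filter (fun u' => R u u'))
      (fun u => ∏ i, w (u i)) (fun u => prod_nonneg (fun i _ => hw _)) (by
        intro u σ
        exact Equiv.prod_comp σ (fun i => w (u i))) u (by
        intro u' hu'
        rw [mem_filter] at hu'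
        exact hR u hu u' hu'.1 hu'.2)
    calc (∏ i, w (u i)) * ∑ u' ∈ (Fintype.piFinset (fun _ : Fin k => X)).filter (fun u' => R u u'),
          ∏ i, w (u' i) ≤ (∏ i, w (u i)) * ((k.factorial : ℝ) * ∏ i, w (u i)) :=
          mul_le_mul_of_nonneg_left h2 (prod_nonneg (fun i _ => hw _))
      _ = (k.factorial : ℝ) * ∏ i, (w (u i)) ^ 2 := by
          rw [prod_pow]; ring
  calc _ ≤ ∑ u ∈ Fintype.piFinset (fun _ : Fin k => X), (k.factorial : ℝ) * ∏ i, (w (u i)) ^ 2 :=
        sum_le_sum h1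
    _ = (k.factorial : ℝ) * (∑ q ∈ X, w q ^ 2) ^ k := by
        rw [← mul_sum, Finset.sum_prod_piFinset X (fun _ q => w q ^ 2)]
        simp

end Pool.Agent.Helper42
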