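import Mathlib
import Pool.Agent.Helper42.Perm

open Finset

namespace Pool.Agent.Helper42

/-- Sieve-type bound: integers `m ≤ x` free of primes from `Q` have small harmonic sum. -/
theorem sum_bad_le (Q : Finset ℕ) (hQ : ∀ q ∈ Q, q.Prime) (B : ℕ) (hB1 : 1 ≤ B)
    (hB : ∀ q ∈ Q, q ≤ B) (x j : ℕ) (hx : 1 ≤ x) :
    (∑ m ∈ (Icc 1 x).filter (fun m => ∀ q ∈ Q, ¬ q ∣ m), (1 / (m : ℝ))) *
      (∑ q ∈ Q, (1 / (q : ℝ))) ^ j ≤ (j.factorial : ℝ) * (1 + Real.log x + j * Real.log B) := by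
  classical
  set M : Finset ℕ := (Icc 1 x).filter (fun m => ∀ q ∈ Q, ¬ q ∣ m) with hM
  set U : Finset (Fin j → ℕ) := Fintype.piFinset (fun _ : Fin j => Q) with hU
  set g : ℕ × (Fin j → ℕ) → ℕ := fun p => p.1 * ∏ i, p.2 i with hg
  set N : ℕ := x * B ^ j with hN
  have hposm : ∀ m ∈ M, 1 ≤ m := by
    intro m hm
    rw [hM, mem_filter, mem_Icc] at hm
    exact hm.1.1
  have hUQ : ∀ u ∈ U, ∀ i, u i ∈ Q := by
    intro u hu i
    rw [hU, Fintype.mem_piFinset] at hu
    exact hu i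
  have hUpos : ∀ u ∈ U, 0 < ∏ i, u i := by
    intro u hu
    exact prod_pos (fun i _ => (hQ _ (hUQ u hu i)).pos)
  have hgN : ∀ p ∈ M ×ˢ U, g p ∈ Icc 1 N := by
    intro p hp
    rw [mem_product] at hp
    rw [mem_Icc]
    constructor
    · exact Nat.mul_pos (hposm _ hp.1) (hUpos _ hp.2)
    · apply Nat.mul_le_mul
      · have := hp.1
        rw [hM, mem_filter, mem_Icc] at this
        exact this.1.2
      · calc ∏ i, p.2 i ≤ ∏ _i : Fin j, B := prod_le_prod' (fun i _ => hB _ (hUQ _ hp.2 i))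
          _ = B ^ j := by simp
  have hcount : ∀ p ∈ M ×ˢ U, ∀ c ∈ Q, (g p).factorization c = (univ.filter (fun i => p.2 i = c)).card := by
    intro p hp c hc
    rw [mem_product] at hp
    have h1 : p.1 ≠ 0 := by have := hposm _ hp.1; omega
    have h2 : ∏ i, p.2 i ≠ 0 := (hUpos _ hp.2).ne'
    have h3 : ∀ i ∈ (univ : Finset (Fin j)), p.2 i ≠ 0 := fun i _ => (hQ _ (hUQ _ hp.2 i)).ne_zero
    simp only [hg]
    rw [Nat.factorization_mul h1 h2, Nat.factorization_prod h3, Finsupp.add_apply]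
    have h4 : p.1.factorization c = 0 := by
      apply Nat.factorization_eq_zero_of_not_dvd
      have := hp.1
      rw [hM, mem_filter] at this
      exact this.2 c hc
    rw [h4, zero_add, Finsupp.finsetSum_apply, card_filter]
    apply sum_congr rfl
    intro i _
    rw [Nat.Prime.factorization (hQ _ (hUQ _ hp.2 i)), Finsupp.single_apply]
  have hfib : ∀ n ∈ Icc 1 N, (((M ×ˢ U).filter (fun p => g p = n)).card : ℝ) ≤ (j.factorial : ℝ) := by
    intro n hn
    by_cases he : ((M ×ˢ U).filter (fun p => g p = n)) = ∅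
    · rw [he]; simp
    obtain ⟨p0, hp0⟩ := nonempty_iff_ne_empty.mpr he
    rw [mem_filter] at hp0
    have hinj : Set.InjOn (fun p : ℕ × (Fin j → ℕ) => p.2) ((M ×ˢ U).filter (fun p => g p = n) : Finset _) := by
      intro p hp p' hp' h
      rw [mem_coe, mem_filter] at hp hp'
      have hpp := hp.2
      rw [← hp'.2] at hpp
      simp only [hg] at hpp h
      rw [h] at hpp
      have hm := Nat.eq_of_mul_eq_mul_right (hUpos _ (mem_product.mp hp'.1).2) hpp
      exact Prod.ext hm h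
    rw [← card_image_of_injOn hinj]
    set T := ((M ×ˢ U).filter (fun p => g p = n)).image (fun p : ℕ × (Fin j → ℕ) => p.2) with hT
    have h5 := sum_perm_le T (fun _ => (1 : ℝ)) (fun _ => zero_le_one) (fun _ _ => rfl) p0.2 (by
      intro u' hu'
      rw [hT, mem_image] at hu'
      obtain ⟨p, hp, rfl⟩ := hu'
      rw [mem_filter] at hp
      obtain ⟨σ, hσ⟩ := exists_perm_of_count_eq (u := p.2) (u' := p0.2) (by
        intro c
        by_cases hc : c ∈ Q
        · rw [← hcount p hp.1 c hc, ← hcount p0 hp0.1 c hc, hp.2, hp0.2]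
        · rw [filter_false_of_mem, filter_false_of_mem]
          · intro i _ h
            exact hc (h ▸ hUQ _ (mem_product.mp hp0.1).2 i)
          · intro i _ h
            exact hc (h ▸ hUQ _ (mem_product.mp hp.1).2 i))
      exact ⟨σ, hσ.symm⟩)
    simpa using h5
  have hL : (∑ m ∈ M, (1 / (m : ℝ))) * (∑ q ∈ Q, (1 / (q : ℝ))) ^ j =
      ∑ p ∈ M ×ˢ U, 1 / ((g p : ℕ) : ℝ) := by
    have e1 : (∑ q ∈ Q, (1 / (q : ℝ))) ^ j = ∑ u ∈ U, ∏ i, (1 / ((u i : ℕ) : ℝ)) := by
      rw [hU, Finset.sum_prod_piFinset Q (fun _ q => (1 / (q : ℝ)))]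
      simp
    rw [e1, sum_mul_sum, sum_product]
    apply sum_congr rfl
    intro m _
    apply sum_congr rfl
    intro u _
    simp only [hg]
    push_cast
    rw [prod_div_distrib]
    simp only [prod_const_one]
    rw [div_mul_div_comm, one_mul]
  rw [hL, ← sum_fiberwise_of_maps_to hgN]
  have hstep : ∑ n ∈ Icc 1 N, ∑ p ∈ (M ×ˢ U).filter (fun p => g p = n), 1 / ((g p : ℕ) : ℝ) ≤
      ∑ n ∈ Icc 1 N, (j.factorial : ℝ) * ((n : ℝ)⁻¹) := by
    apply sum_le_sum
    intro n hn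
    have e2 : ∑ p ∈ (M ×ˢ U).filter (fun p => g p = n), 1 / ((g p : ℕ) : ℝ) =
        (((M ×ˢ U).filter (fun p => g p = n)).card : ℝ) * ((n : ℝ)⁻¹) := by
      rw [← nsmul_eq_mul, ← sum_const]
      apply sum_congr rfl
      intro p hp
      rw [mem_filter] at hp
      rw [hp.2, one_div]
    rw [e2]
    exact mul_le_mul_of_nonneg_right (hfib n hn) (by positivity)
  refine hstep.trans ?_
  rw [← mul_sum]
  apply mul_le_mul_of_nonneg_left _ (by positivity)
  have h6 := harmonic_le_one_add_log N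
  rw [harmonic_eq_sum_Icc] at h6
  push_cast at h6
  refine h6.trans ?_
  have hx0 : (x : ℝ) ≠ 0 := by positivity
  have hB0 : (B : ℝ) ≠ 0 := by positivity
  rw [hN]
  push_cast
  rw [Real.log_mul hx0 (pow_ne_zero _ hB0), Real.log_pow]
  linarith

end Pool.Agent.Helper42
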