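import Pool.Agent.Helper42.Energy

open Finset

namespace Pool.Agent.Helper42

lemma addChar_sum {G : Type*} [AddCommMonoid G] {ι : Type*} (χ : AddChar G ℂ) (s : Finset ι)
    (f : ι → G) : χ (∑ i ∈ s, f i) = ∏ i ∈ s, χ (f i) := by
  classical
  induction s using Finset.induction_on with
  | empty => simp
  | insert a s ha ih => rw [sum_insert ha, prod_insert ha, AddChar.map_add_eq_mul, ih]

/-- Weighted power mean inequality. -/
lemma pow_sum_le {ι : Type*} (s : Finset ι) (w z : ι → ℝ) (hw : ∀ i ∈ s, 0 ≤ w i)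
    (hz : ∀ i ∈ s, 0 ≤ z i) {n : ℕ} (hn : 1 ≤ n) :
    (∑ i ∈ s, w i * z i) ^ n ≤ (∑ i ∈ s, w i) ^ (n - 1) * ∑ i ∈ s, w i * z i ^ n := by
  have hW : 0 ≤ ∑ i ∈ s, w i := sum_nonneg hw
  rcases hW.eq_or_lt with h0 | hpos
  · have hall : ∀ i ∈ s, w i = 0 := (sum_eq_zero_iff_of_nonneg hw).mp h0.symm
    rw [sum_congr rfl (fun i hi => by rw [hall i hi, zero_mul]), sum_const_zero,
      zero_pow (by omega)]
    apply mul_nonneg (pow_nonneg hW _)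
    exact sum_nonneg (fun i hi => mul_nonneg (hw i hi) (pow_nonneg (hz i hi) _))
  · have h1 := Real.pow_arith_mean_le_arith_mean_pow s (fun i => w i / ∑ j ∈ s, w j) z
      (fun i hi => div_nonneg (hw i hi) hW) (by rw [← sum_div, div_self hpos.ne']) hz n
    have e1 : ∑ i ∈ s, w i / (∑ j ∈ s, w j) * z i = (∑ i ∈ s, w i * z i) / ∑ j ∈ s, w j := by
      rw [sum_div]; apply sum_congr rfl; intro i _; ring
    have e2 : ∑ i ∈ s, w i / (∑ j ∈ s, w j) * z i ^ n =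
        (∑ i ∈ s, w i * z i ^ n) / ∑ j ∈ s, w j := by
      rw [sum_div]; apply sum_congr rfl; intro i _; ring
    rw [e1, e2, div_pow, div_le_div_iff₀ (pow_pos hpos n) hpos] at h1
    have e3 : (∑ j ∈ s, w j) ^ n = (∑ j ∈ s, w j) ^ (n - 1) * ∑ j ∈ s, w j := by
      rw [← pow_succ]; congr 1; omega
    rw [e3] at h1
    have h2 : (∑ i ∈ s, w i * z i) ^ n * ∑ j ∈ s, w j ≤
        ((∑ i ∈ s, w i) ^ (n - 1) * ∑ i ∈ s, w i * z i ^ n) * ∑ j ∈ s, w j := by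
      calc _ ≤ _ := h1
        _ = _ := by ring
    exact le_of_mul_le_mul_right h2 hpos

/-- The double Hölder inequality used for bilinear sums. -/
lemma holder_double {ι : Type*} (s : Finset ι) (w z : ι → ℝ) (hw : ∀ i ∈ s, 0 ≤ w i)
    (hz : ∀ i ∈ s, 0 ≤ z i) {k : ℕ} (hk : 1 ≤ k) :
    (∑ i ∈ s, w i * z i) ^ (2 * k) ≤
      (∑ i ∈ s, w i) ^ (2 * (k - 1)) * ((∑ i ∈ s, w i ^ 2) * ∑ i ∈ s, z i ^ (2 * k)) := by
  have h1 := pow_sum_le s w z hw hz hk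
  have hW : 0 ≤ ∑ i ∈ s, w i := sum_nonneg hw
  have hnn : 0 ≤ (∑ i ∈ s, w i * z i) ^ k :=
    pow_nonneg (sum_nonneg (fun i hi => mul_nonneg (hw i hi) (hz i hi))) _
  have h2 : (∑ i ∈ s, w i * z i ^ k) ^ 2 ≤ (∑ i ∈ s, w i ^ 2) * ∑ i ∈ s, (z i ^ k) ^ 2 :=
    sum_mul_sq_le_sq_mul_sq s w (fun i => z i ^ k)
  calc (∑ i ∈ s, w i * z i) ^ (2 * k) = ((∑ i ∈ s, w i * z i) ^ k) ^ 2 := by
        rw [← pow_mul]; congr 1; ring
    _ ≤ ((∑ i ∈ s, w i) ^ (k - 1) * ∑ i ∈ s, w i * z i ^ k) ^ 2 := by gcongr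
    _ = (∑ i ∈ s, w i) ^ (2 * (k - 1)) * (∑ i ∈ s, w i * z i ^ k) ^ 2 := by
        rw [mul_pow, ← pow_mul]; congr 2; ring
    _ ≤ (∑ i ∈ s, w i) ^ (2 * (k - 1)) * ((∑ i ∈ s, w i ^ 2) * ∑ i ∈ s, (z i ^ k) ^ 2) := by
        gcongr
    _ = _ := by
        congr 2
        apply sum_congr rfl
        intro i _
        rw [← pow_mul]; congr 1; ring

section

variable {p : ℕ} [Fact p.Prime]

/-- sum of reciprocals modulo `p` of a tuple -/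
def rs (p : ℕ) [Fact p.Prime] {k : ℕ} (u : Fin k → ℕ) : ZMod p := ∑ i, ((u i : ZMod p))⁻¹

/-- the set of tuples -/
abbrev tup (X : Finset ℕ) (k : ℕ) : Finset (Fin k → ℕ) := Fintype.piFinset (fun _ : Fin k => X)

/-- weight of a tuple -/
noncomputable def wt {k : ℕ} (u : Fin k → ℕ) : ℝ := ∏ i, (1 / (u i : ℝ))

lemma wt_nonneg {k : ℕ} (u : Fin k → ℕ) : 0 ≤ wt u := prod_nonneg (fun i _ => by positivity)

/-- tuples of `X` with entries primes in `(k, B]` and `k B^(2k-1) < p` -/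
structure Adm (p : ℕ) (X : Finset ℕ) (k B : ℕ) : Prop where
  pos : 1 ≤ k
  prime : ∀ q ∈ X, q.Prime
  big : ∀ q ∈ X, k < q
  le : ∀ q ∈ X, q ≤ B
  lt : k * B ^ (2 * k - 1) < p
  Blt : B < p

lemma energy_le {X : Finset ℕ} {k B : ℕ} (h : Adm p X k B) :
    ∑ u ∈ tup X k, ∑ u' ∈ (tup X k).filter (fun u' => rs p u = rs p u'), wt u * wt u' ≤
      (k.factorial : ℝ) * (∑ q ∈ X, (1 / (q : ℝ)) ^ 2) ^ k := by
  apply sum_pairs_le X (fun n => 1 / (n : ℝ)) (fun n => by positivity)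
    (fun u u' => rs p u = rs p u')
  intro u hu u' hu' huu
  rw [Fintype.mem_piFinset] at hu hu'
  exact recip_perm h.lt (fun i => h.prime _ (hu i)) (fun i => h.prime _ (hu' i))
    (fun i => h.big _ (hu i)) (fun i => h.big _ (hu' i)) (fun i => h.le _ (hu i))
    (fun i => h.le _ (hu' i)) h.Blt huu

/-- moment of the linear form -/
lemma moment_le {X : Finset ℕ} {k B : ℕ} (h : Adm p X k B) {a : ZMod p} (ha : a ≠ 0)
    (θ : ℕ → ℂ) (hθ : ∀ q, ‖θ q‖ = 1) :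
    ∑ lam : ZMod p, ‖∑ q ∈ X, (1 / (q : ℝ) : ℝ) * (θ q *
      ZMod.stdAddChar (a * (q : ZMod p)⁻¹ * lam))‖ ^ (2 * k) ≤
      p * ((k.factorial : ℝ) * (∑ q ∈ X, (1 / (q : ℝ)) ^ 2) ^ k) := by
  classical
  set χ : AddChar (ZMod p) ℂ := ZMod.stdAddChar with hχ
  set Th : (Fin k → ℕ) → ℂ := fun u => ∏ i, θ (u i) with hTh
  have hThn : ∀ u, ‖Th u‖ = 1 := by
    intro u
    rw [hTh]; simp only [norm_prod]
    exact prod_eq_one (fun i _ => hθ _)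
  have hG : ∀ lam : ZMod p, (∑ q ∈ X, ((1 / (q : ℝ) : ℝ) : ℂ) * (θ q * χ (a * (q : ZMod p)⁻¹ * lam))) ^ k
      = ∑ u ∈ tup X k, (wt u : ℂ) * (Th u * χ (a * rs p u * lam)) := by
    intro lam
    rw [sum_pow']
    apply sum_congr rfl
    intro u _
    rw [prod_mul_distrib, prod_mul_distrib, wt, Complex.ofReal_prod]
    congr 2
    rw [← addChar_sum, rs, mul_sum, sum_mul]
  have hnorm : ∀ lam : ZMod p, ((‖∑ q ∈ X, ((1 / (q : ℝ) : ℝ) : ℂ) * (θ q *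
      χ (a * (q : ZMod p)⁻¹ * lam))‖ ^ (2 * k) : ℝ) : ℂ)
      = ∑ u ∈ tup X k, ∑ u' ∈ tup X k, (wt u * wt u' : ℝ) * ((Th u * (starRingEnd ℂ) (Th u')) *
          χ (lam * (a * (rs p u - rs p u')))) := by
    intro lam
    have e1 : ((‖∑ q ∈ X, ((1 / (q : ℝ) : ℝ) : ℂ) * (θ q *
      χ (a * (q : ZMod p)⁻¹ * lam))‖ ^ (2 * k) : ℝ) : ℂ) =
      (∑ q ∈ X, ((1 / (q : ℝ) : ℝ) : ℂ) * (θ q * χ (a * (q : ZMod p)⁻¹ * lam))) ^ k *
      (starRingEnd ℂ) ((∑ q ∈ X, ((1 / (q : ℝ) : ℝ) : ℂ) * (θ q * χ (a * (q : ZMod p)⁻¹ * lam))) ^ k) := by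
      rw [Complex.mul_conj, Complex.normSq_eq_norm_sq, norm_pow, ← pow_mul]
      push_cast
      congr 1
      ring
    rw [e1, hG, map_sum, sum_mul_sum]
    apply sum_congr rfl
    intro u _
    apply sum_congr rfl
    intro u' _
    rw [map_mul (starRingEnd ℂ), map_mul (starRingEnd ℂ), Complex.conj_ofReal,
      ← AddChar.map_neg_eq_conj]
    have e2 : χ (lam * (a * (rs p u - rs p u'))) = χ (a * rs p u * lam) * χ (-(a * rs p u' * lam)) := by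
      rw [← AddChar.map_add_eq_mul]; congr 1; ring
    rw [e2]
    push_cast
    ring
  have hsum : ((∑ lam : ZMod p, ‖∑ q ∈ X, ((1 / (q : ℝ) : ℝ) : ℂ) * (θ q *
      χ (a * (q : ZMod p)⁻¹ * lam))‖ ^ (2 * k) : ℝ) : ℂ) =
      ∑ u ∈ tup X k, ∑ u' ∈ (tup X k).filter (fun u' => rs p u = rs p u'),
        (wt u * wt u' : ℝ) * ((Th u * (starRingEnd ℂ) (Th u')) * (p : ℂ)) := by
    rw [Complex.ofReal_sum, sum_congr rfl (fun lam _ => hnorm lam), sum_comm]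
    apply sum_congr rfl
    intro u _
    rw [sum_comm, sum_filter]
    apply sum_congr rfl
    intro u' _
    rw [← mul_sum, ← mul_sum, AddChar.sum_mulShift _ (ZMod.isPrimitive_stdAddChar p)]
    by_cases huu : rs p u = rs p u'
    · rw [if_pos huu, huu, sub_self, mul_zero, if_pos rfl, ZMod.card]
    · rw [if_neg huu, if_neg (mul_ne_zero ha (sub_ne_zero.mpr huu))]
      simp
  have hnn : 0 ≤ ∑ lam : ZMod p, ‖∑ q ∈ X, ((1 / (q : ℝ) : ℝ) : ℂ) * (θ q *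
      χ (a * (q : ZMod p)⁻¹ * lam))‖ ^ (2 * k) := sum_nonneg (fun _ _ => by positivity)
  calc ∑ lam : ZMod p, ‖∑ q ∈ X, ((1 / (q : ℝ) : ℝ) : ℂ) * (θ q *
      χ (a * (q : ZMod p)⁻¹ * lam))‖ ^ (2 * k)
      = ‖((∑ lam : ZMod p, ‖∑ q ∈ X, ((1 / (q : ℝ) : ℝ) : ℂ) * (θ q *
      χ (a * (q : ZMod p)⁻¹ * lam))‖ ^ (2 * k) : ℝ) : ℂ)‖ := by
        rw [Complex.norm_real, Real.norm_of_nonneg hnn]
    _ = ‖∑ u ∈ tup X k, ∑ u' ∈ (tup X k).filter (fun u' => rs p u = rs p u'),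
        ((wt u * wt u' : ℝ) : ℂ) * ((Th u * (starRingEnd ℂ) (Th u')) * (p : ℂ))‖ := by rw [hsum]
    _ ≤ ∑ u ∈ tup X k, ∑ u' ∈ (tup X k).filter (fun u' => rs p u = rs p u'),
        (wt u * wt u') * p := by
        refine (norm_sum_le _ _).trans (sum_le_sum (fun u _ => ?_))
        refine (norm_sum_le _ _).trans (sum_le_sum (fun u' _ => ?_))
        rw [norm_mul, norm_mul, norm_mul, Complex.norm_real, RCLike.norm_conj, hThn, hThn,
          Real.norm_of_nonneg (mul_nonneg (wt_nonneg u) (wt_nonneg u')), Complex.norm_natCast]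
        simp
    _ = p * ∑ u ∈ tup X k, ∑ u' ∈ (tup X k).filter (fun u' => rs p u = rs p u'),
        (wt u * wt u') := by
        rw [mul_sum]
        apply sum_congr rfl
        intro u _
        rw [mul_sum]
        apply sum_congr rfl
        intro u' _
        ring
    _ ≤ p * ((k.factorial : ℝ) * (∑ q ∈ X, (1 / (q : ℝ)) ^ 2) ^ k) := by
        have := energy_le h
        gcongr

/-- The bilinear estimate. -/
theorem bilinear_le {X Y : Finset ℕ} {k B l C : ℕ} (hX : Adm p X k B) (hY : Adm p Y l C)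
    {a : ZMod p} (ha : a ≠ 0) :
    (∑ q ∈ X, (1 / (q : ℝ)) * ‖∑ q' ∈ Y, ((1 / (q' : ℝ) : ℝ) : ℂ) *
      ZMod.stdAddChar (a * (q : ZMod p)⁻¹ * (q' : ZMod p)⁻¹)‖) ^ (2 * k * l) ≤
    (∑ q ∈ X, (1 / (q : ℝ))) ^ (2 * k * (l - 1)) * (∑ q ∈ Y, (1 / (q : ℝ))) ^ (2 * l * (k - 1)) *
      (((l.factorial : ℝ) * (∑ q ∈ Y, (1 / (q : ℝ)) ^ 2) ^ l) *
        (p * ((k.factorial : ℝ) * (∑ q ∈ X, (1 / (q : ℝ)) ^ 2) ^ k))) := by
  classical
  set χ : AddChar (ZMod p) ℂ := ZMod.stdAddChar with hχ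
  set F : ℕ → ℂ := fun q => ∑ q' ∈ Y, ((1 / (q' : ℝ) : ℝ) : ℂ) *
      χ (a * (q : ZMod p)⁻¹ * (q' : ZMod p)⁻¹) with hF
  choose θ hθ1 hθ2 using fun q => Complex.exists_norm_eq_mul_self (F q ^ l)
  set I : ZMod p → ℝ := fun lam => ∑ y ∈ (tup Y l).filter (fun y => rs p y = lam), wt y with hI
  set G : ZMod p → ℂ := fun lam => ∑ q ∈ X, ((1 / (q : ℝ) : ℝ) : ℂ) *
    (θ q * χ (a * (q : ZMod p)⁻¹ * lam)) with hG
  have hInn : ∀ lam, 0 ≤ I lam := fun lam => sum_nonneg (fun y _ => wt_nonneg y)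
  -- step 1
  have st1 : (∑ q ∈ X, (1 / (q : ℝ)) * ‖F q‖) ^ l ≤
      (∑ q ∈ X, (1 / (q : ℝ))) ^ (l - 1) * ∑ q ∈ X, (1 / (q : ℝ)) * ‖F q‖ ^ l :=
    pow_sum_le X _ _ (fun q _ => by positivity) (fun q _ => norm_nonneg _) hY.pos
  -- step 2
  have hFl : ∀ q, F q ^ l = ∑ y ∈ tup Y l, (wt y : ℂ) * χ (a * (q : ZMod p)⁻¹ * rs p y) := by
    intro q
    rw [hF]
    simp only
    rw [sum_pow']
    apply sum_congr rfl
    intro y _
    rw [prod_mul_distrib, wt, Complex.ofReal_prod]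
    congr 1
    rw [← addChar_sum, rs, mul_sum]
  have st2 : ((∑ q ∈ X, (1 / (q : ℝ)) * ‖F q‖ ^ l : ℝ) : ℂ) = ∑ lam : ZMod p, (I lam : ℂ) * G lam := by
    have e1 : ∀ q ∈ X, (((1 / (q : ℝ)) * ‖F q‖ ^ l : ℝ) : ℂ) =
        ∑ y ∈ tup Y l, ((1 / (q : ℝ) : ℝ) : ℂ) * (θ q * ((wt y : ℂ) * χ (a * (q : ZMod p)⁻¹ * rs p y))) := by
      intro q _
      rw [← mul_sum, ← mul_sum, ← hFl, ← hθ2, norm_pow]
      push_cast
      ring
    rw [Complex.ofReal_sum, sum_congr rfl e1, sum_comm]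
    rw [← sum_fiberwise (tup Y l) (fun y => rs p y)]
    apply sum_congr rfl
    intro lam _
    rw [hI]
    simp only
    rw [Complex.ofReal_sum, sum_mul]
    apply sum_congr rfl
    intro y hy
    rw [(mem_filter.mp hy).2, hG]
    simp only
    rw [mul_sum]
    apply sum_congr rfl
    intro q _
    ring
  have st2' : ∑ q ∈ X, (1 / (q : ℝ)) * ‖F q‖ ^ l ≤ ∑ lam : ZMod p, I lam * ‖G lam‖ := by
    have hnn : 0 ≤ ∑ q ∈ X, (1 / (q : ℝ)) * ‖F q‖ ^ l := sum_nonneg (fun _ _ => by positivity)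
    calc ∑ q ∈ X, (1 / (q : ℝ)) * ‖F q‖ ^ l = ‖((∑ q ∈ X, (1 / (q : ℝ)) * ‖F q‖ ^ l : ℝ) : ℂ)‖ := by
          rw [Complex.norm_real, Real.norm_of_nonneg hnn]
      _ = ‖∑ lam : ZMod p, (I lam : ℂ) * G lam‖ := by rw [st2]
      _ ≤ ∑ lam : ZMod p, I lam * ‖G lam‖ := by
          refine (norm_sum_le _ _).trans (sum_le_sum (fun lam _ => ?_))
          rw [norm_mul, Complex.norm_real, Real.norm_of_nonneg (hInn lam)]
  -- step 3
  have st3 := holder_double (univ : Finset (ZMod p)) I (fun lam => ‖G lam‖)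
    (fun lam _ => hInn lam) (fun lam _ => norm_nonneg _) hX.pos
  have hI1 : ∑ lam : ZMod p, I lam = (∑ q ∈ Y, (1 / (q : ℝ))) ^ l := by
    rw [hI]
    simp only
    rw [sum_fiberwise (tup Y l) (fun y => rs p y) (fun y => wt y), sum_pow']
    rfl
  have hI2 : ∑ lam : ZMod p, I lam ^ 2 ≤ (l.factorial : ℝ) * (∑ q ∈ Y, (1 / (q : ℝ)) ^ 2) ^ l := by
    have e1 : ∑ lam : ZMod p, I lam ^ 2 =
        ∑ y ∈ tup Y l, ∑ y' ∈ (tup Y l).filter (fun y' => rs p y = rs p y'), wt y * wt y' := by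
      rw [← sum_fiberwise (tup Y l) (fun y => rs p y)]
      apply sum_congr rfl
      intro lam _
      rw [pow_two]
      nth_rewrite 1 [hI]
      simp only
      rw [sum_mul]
      apply sum_congr rfl
      intro y hy
      rw [hI]
      simp only
      rw [mul_sum]
      have hyl := (mem_filter.mp hy).2
      apply sum_congr _ (fun _ _ => rfl)
      ext y'
      rw [mem_filter, mem_filter, hyl]
      constructor
      · rintro ⟨h1, h2⟩; exact ⟨h1, h2.symm⟩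
      · rintro ⟨h1, h2⟩; exact ⟨h1, h2.symm⟩
    rw [e1]
    exact energy_le hY
  have hG2 := moment_le hX ha θ (fun q => hθ1 q)
  -- combine
  have hE0 : 0 ≤ ∑ q ∈ X, (1 / (q : ℝ)) * ‖F q‖ ^ l := sum_nonneg (fun _ _ => by positivity)
  have hD0 : 0 ≤ ∑ q ∈ X, (1 / (q : ℝ)) * ‖F q‖ := sum_nonneg (fun _ _ => by positivity)
  have hLX : 0 ≤ ∑ q ∈ X, (1 / (q : ℝ)) := sum_nonneg (fun _ _ => by positivity)
  have hLY : 0 ≤ ∑ q ∈ Y, (1 / (q : ℝ)) := sum_nonneg (fun _ _ => by positivity)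
  calc (∑ q ∈ X, (1 / (q : ℝ)) * ‖F q‖) ^ (2 * k * l)
      = ((∑ q ∈ X, (1 / (q : ℝ)) * ‖F q‖) ^ l) ^ (2 * k) := by rw [← pow_mul]; congr 1; ring
    _ ≤ ((∑ q ∈ X, (1 / (q : ℝ))) ^ (l - 1) * ∑ q ∈ X, (1 / (q : ℝ)) * ‖F q‖ ^ l) ^ (2 * k) := by
        gcongr
    _ = (∑ q ∈ X, (1 / (q : ℝ))) ^ (2 * k * (l - 1)) *
        (∑ q ∈ X, (1 / (q : ℝ)) * ‖F q‖ ^ l) ^ (2 * k) := by
        rw [mul_pow, ← pow_mul]; congr 2; ring
    _ ≤ (∑ q ∈ X, (1 / (q : ℝ))) ^ (2 * k * (l - 1)) *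
        (∑ lam : ZMod p, I lam * ‖G lam‖) ^ (2 * k) := by gcongr
    _ ≤ (∑ q ∈ X, (1 / (q : ℝ))) ^ (2 * k * (l - 1)) *
        ((∑ lam : ZMod p, I lam) ^ (2 * (k - 1)) *
          ((∑ lam : ZMod p, I lam ^ 2) * ∑ lam : ZMod p, ‖G lam‖ ^ (2 * k))) := by gcongr
    _ ≤ (∑ q ∈ X, (1 / (q : ℝ))) ^ (2 * k * (l - 1)) *
        (((∑ q ∈ Y, (1 / (q : ℝ))) ^ l) ^ (2 * (k - 1)) *
          (((l.factorial : ℝ) * (∑ q ∈ Y, (1 / (q : ℝ)) ^ 2) ^ l) *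
          (p * ((k.factorial : ℝ) * (∑ q ∈ X, (1 / (q : ℝ)) ^ 2) ^ k)))) := by
        rw [hI1]
        gcongr
    _ = _ := by
        rw [← pow_mul (∑ q ∈ Y, (1 / (q : ℝ)))]
        rw [show l * (2 * (k - 1)) = 2 * l * (k - 1) by ring]
        ring

end

end Pool.Agent.Helper42
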