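import Pool.Agent.Helper42.Fourier

open Finset

namespace Pool.Agent.Helper42

lemma arg_mem {p n : ℕ} (hn : 0 < n) (hnp : n ≤ p) :
    0 < Real.pi * n / (2 * p) ∧ Real.pi * n / (2 * p) ≤ Real.pi / 2 := by
  have hp : (0 : ℝ) < p := by
    have : 0 < p := by omega
    exact_mod_cast this
  have hn' : (0 : ℝ) < n := by exact_mod_cast hn
  have hnp' : (n : ℝ) ≤ p := by exact_mod_cast hnp
  constructor
  · positivity
  · rw [div_le_div_iff₀ (by positivity) (by norm_num)]
    nlinarith [Real.pi_pos]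

lemma cc_nonneg {p n : ℕ} (hn : 0 < n) (hnp : n ≤ p) : 0 ≤ cc p n := by
  obtain ⟨h1, h2⟩ := arg_mem hn hnp
  rw [cc]
  apply div_nonneg
  · exact Real.cos_nonneg_of_neg_pi_div_two_le_of_le (by linarith) h2
  · exact Real.sin_nonneg_of_nonneg_of_le_pi h1.le (by linarith [Real.pi_pos])

lemma cc_self {p : ℕ} (hp : 0 < p) : cc p p = 0 := by
  have hp' : (p : ℝ) ≠ 0 := by exact_mod_cast hp.ne'
  rw [cc, show Real.pi * p / (2 * p) = Real.pi / 2 by field_simp, Real.cos_pi_div_two, zero_div]

lemma cc_le {p n : ℕ} (hn : 0 < n) (hnp : n ≤ p) : cc p n ≤ p / n := by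
  have hp : (0 : ℝ) < p := by
    have : 0 < p := by omega
    exact_mod_cast this
  have hn' : (0 : ℝ) < n := by exact_mod_cast hn
  rcases hnp.eq_or_lt with h | hlt
  · rw [h, cc_self (by omega)]; positivity
  obtain ⟨h1, h2⟩ := arg_mem hn hnp
  have h3 : Real.pi * n / (2 * p) < Real.pi / 2 := by
    have hlt' : (n : ℝ) < p := by exact_mod_cast hlt
    rw [div_lt_div_iff₀ (by positivity) (by norm_num)]
    nlinarith [Real.pi_pos]
  set x := Real.pi * n / (2 * p) with hx
  have h4 : x < Real.tan x := Real.lt_tan h1 h3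
  have hs : 0 < Real.sin x := Real.sin_pos_of_pos_of_lt_pi h1 (by linarith [Real.pi_pos])
  have hc : 0 < Real.cos x := Real.cos_pos_of_mem_Ioo ⟨by linarith, h3⟩
  rw [Real.tan_eq_sin_div_cos, lt_div_iff₀ hc] at h4
  rw [cc, ← hx, div_le_iff₀ hs]
  have h5 : (1 : ℝ) ≤ p / n * x := by
    rw [hx]
    have : (p : ℝ) / n * (Real.pi * n / (2 * p)) = Real.pi / 2 := by field_simp
    rw [this]
    linarith [Real.pi_gt_three]
  have h6 : Real.cos x ≤ (p / n * x) * Real.cos x := by nlinarith
  calc Real.cos x ≤ (p / n * x) * Real.cos x := h6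
    _ = p / n * (x * Real.cos x) := by ring
    _ ≤ p / n * Real.sin x := by
        apply mul_le_mul_of_nonneg_left h4.le; positivity

lemma cot_ge {x : ℝ} (h1 : 0 < x) (h2 : x ≤ Real.pi / 2) :
    1 / x - x ≤ Real.cos x / Real.sin x := by
  have hs : 0 < Real.sin x := Real.sin_pos_of_pos_of_lt_pi h1 (by linarith [Real.pi_pos])
  have hc : 0 ≤ Real.cos x := Real.cos_nonneg_of_neg_pi_div_two_le_of_le (by linarith) h2
  rw [le_div_iff₀ hs]
  rcases le_or_gt x 1 with h | h
  · have hcos : 1 - x ^ 2 / 2 ≤ Real.cos x := Real.one_sub_sq_div_two_le_cos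
    have hsin : Real.sin x ≤ x := Real.sin_le h1.le
    have e : (1 / x - x) * x = 1 - x ^ 2 := by field_simp
    have h3 : 0 ≤ 1 / x - x := by
      have : x ≤ 1 / x := by rw [le_div_iff₀ h1]; nlinarith
      linarith
    nlinarith
  · have : 1 / x - x < 0 := by
      have : 1 / x < x := by rw [div_lt_iff₀ h1]; nlinarith
      linarith
    nlinarith

lemma cc_ge {p n : ℕ} (hn : 0 < n) (hnp : n ≤ p) : p / (2 * n) - 2 ≤ cc p n := by
  obtain ⟨h1, h2⟩ := arg_mem hn hnp
  have hp : (0 : ℝ) < p := by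
    have : 0 < p := by omega
    exact_mod_cast this
  have hn' : (0 : ℝ) < n := by exact_mod_cast hn
  refine le_trans ?_ (cot_ge h1 h2)
  have h3 : (p : ℝ) / (2 * n) ≤ 1 / (Real.pi * n / (2 * p)) := by
    rw [one_div_div, div_le_div_iff₀ (by positivity) (by positivity)]
    have := Real.pi_lt_four
    nlinarith [mul_pos hp hn']
  have := Real.pi_lt_four
  linarith

lemma cc_diff {p r : ℕ} (hr : 0 < r) (hrp : r + 2 ≤ p) :
    0 ≤ cc p r - cc p (r + 2) ∧ cc p r - cc p (r + 2) ≤ 4 * p / r ^ 2 := by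
  obtain ⟨a1, a2⟩ := arg_mem (p := p) hr (by omega)
  obtain ⟨b1, b2⟩ := arg_mem (p := p) (n := r + 2) (by omega) hrp
  have hp : (0 : ℝ) < p := by
    have : 0 < p := by omega
    exact_mod_cast this
  have hp3 : (2 : ℝ) ≤ p := by
    have : 2 ≤ p := by omega
    exact_mod_cast this
  have hr' : (0 : ℝ) < r := by exact_mod_cast hr
  set a := Real.pi * r / (2 * p) with ha
  set b := Real.pi * ((r + 2 : ℕ) : ℝ) / (2 * p) with hb
  have hsa : 0 < Real.sin a := Real.sin_pos_of_pos_of_lt_pi a1 (by linarith [Real.pi_pos])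
  have hsb : 0 < Real.sin b := Real.sin_pos_of_pos_of_lt_pi b1 (by linarith [Real.pi_pos])
  have hab : b - a = Real.pi / p := by
    rw [ha, hb]; push_cast; field_simp; ring
  have e : cc p r - cc p (r + 2) = Real.sin (b - a) / (Real.sin a * Real.sin b) := by
    rw [cc, cc, ← ha, ← hb, div_sub_div _ _ hsa.ne' hsb.ne', Real.sin_sub]
    ring
  have hsin0 : 0 ≤ Real.sin (Real.pi / p) := by
    apply Real.sin_nonneg_of_nonneg_of_le_pi (by positivity)
    rw [div_le_iff₀ hp]
    nlinarith [Real.pi_pos]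
  rw [e, hab]
  constructor
  · positivity
  · have hsin : Real.sin (Real.pi / p) ≤ Real.pi / p := Real.sin_le (by positivity)
    have ja : (r : ℝ) / p ≤ Real.sin a := by
      have := Real.mul_le_sin a1.le a2
      have e2 : 2 / Real.pi * a = r / p := by rw [ha]; field_simp
      linarith
    have jb : (r : ℝ) / p ≤ Real.sin b := by
      have := Real.mul_le_sin b1.le b2
      have e2 : 2 / Real.pi * b = ((r + 2 : ℕ) : ℝ) / p := by rw [hb]; field_simp
      have e3 : (r : ℝ) / p ≤ ((r + 2 : ℕ) : ℝ) / p := by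
        apply div_le_div_of_nonneg_right _ hp.le
        push_cast; linarith
      linarith
    have hrp0 : 0 < (r : ℝ) / p := by positivity
    calc Real.sin (Real.pi / p) / (Real.sin a * Real.sin b)
        ≤ (Real.pi / p) / ((r / p) * (r / p)) := by gcongr
      _ = Real.pi * p / r ^ 2 := by field_simp
      _ ≤ 4 * p / r ^ 2 := by
          have := Real.pi_lt_four
          gcongr

lemma xcot_anti {x y : ℝ} (h0 : 0 < x) (hxy : x ≤ y) (hy : y ≤ Real.pi / 2) :
    y * (Real.cos y / Real.sin y) ≤ x * (Real.cos x / Real.sin x) := by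
  have hanti : AntitoneOn (fun t : ℝ => t * (Real.cos t / Real.sin t)) (Set.Icc x y) := by
    have hs : ∀ t ∈ Set.Icc x y, 0 < Real.sin t := by
      intro t ht
      exact Real.sin_pos_of_pos_of_lt_pi (by linarith [ht.1]) (by linarith [ht.2, Real.pi_pos])
    apply antitoneOn_of_deriv_nonpos (convex_Icc x y)
    · apply ContinuousOn.mul continuousOn_id
      apply ContinuousOn.div Real.continuous_cos.continuousOn Real.continuous_sin.continuousOn
      intro t ht; exact (hs t ht).ne'
    · intro t ht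
      rw [interior_Icc] at ht
      have hst := hs t ⟨ht.1.le, ht.2.le⟩
      apply DifferentiableAt.differentiableWithinAt
      exact differentiableAt_id.mul (Real.differentiableAt_cos.div Real.differentiableAt_sin hst.ne')
    · intro t ht
      rw [interior_Icc] at ht
      have hst := hs t ⟨ht.1.le, ht.2.le⟩
      have hd : HasDerivAt (fun t : ℝ => t * (Real.cos t / Real.sin t))
          (1 * (Real.cos t / Real.sin t) + t * ((-Real.sin t * Real.sin t - Real.cos t * Real.cos t) / Real.sin t ^ 2)) t :=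
        (hasDerivAt_id t).mul ((Real.hasDerivAt_cos t).div (Real.hasDerivAt_sin t) hst.ne')
      rw [hd.deriv]
      have e : 1 * (Real.cos t / Real.sin t) + t * ((-Real.sin t * Real.sin t - Real.cos t * Real.cos t) / Real.sin t ^ 2)
          = (Real.sin t * Real.cos t - t) / Real.sin t ^ 2 := by
        have := Real.sin_sq_add_cos_sq t
        field_simp
        linear_combination (-t) * this
      rw [e]
      apply div_nonpos_of_nonpos_of_nonneg _ (by positivity)
      have h1 : Real.sin (2 * t) ≤ 2 * t := Real.sin_le (by linarith [ht.1])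
      rw [Real.sin_two_mul] at h1
      linarith
  exact hanti (Set.left_mem_Icc.mpr hxy) (Set.right_mem_Icc.mpr hxy) hxy

lemma mul_cc_anti {p m n : ℕ} (hm : 0 < m) (hmn : m ≤ n) (hn : n ≤ p) :
    (n : ℝ) * cc p n ≤ m * cc p m := by
  obtain ⟨a1, a2⟩ := arg_mem (p := p) hm (by omega)
  obtain ⟨b1, b2⟩ := arg_mem (p := p) (n := n) (by omega) hn
  have hp : (0 : ℝ) < p := by
    have : 0 < p := by omega
    exact_mod_cast this
  have hmn' : (m : ℝ) ≤ n := by exact_mod_cast hmn
  have h := xcot_anti a1 (by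
    apply div_le_div_of_nonneg_right _ (by positivity)
    nlinarith [Real.pi_pos]) b2
  rw [cc, cc]
  have hk : 0 < Real.pi / (2 * p) := by positivity
  have h' : (Real.pi / (2 * p)) * ((n : ℝ) * (Real.cos (Real.pi * n / (2 * p)) / Real.sin (Real.pi * n / (2 * p)))) ≤
      (Real.pi / (2 * p)) * (m * (Real.cos (Real.pi * m / (2 * p)) / Real.sin (Real.pi * m / (2 * p)))) := by
    calc _ = (Real.pi * n / (2 * p)) * (Real.cos (Real.pi * n / (2 * p)) / Real.sin (Real.pi * n / (2 * p))) := by ring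
      _ ≤ _ := h
      _ = _ := by ring
  exact le_of_mul_le_mul_left h' hk

end Pool.Agent.Helper42
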