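import Mathlib

open Finset

namespace Pool.Agent.Helper42

lemma two_pow_card_primeFactors_le {n : ℕ} (hn : n ≠ 0) : 2 ^ n.primeFactors.card ≤ n := by
  calc 2 ^ n.primeFactors.card ≤ ∏ q ∈ n.primeFactors, q := by
        rw [← prod_const]
        apply prod_le_prod'
        intro q hq
        exact (Nat.prime_of_mem_primeFactors hq).two_le
    _ ≤ n := Nat.le_of_dvd (Nat.pos_of_ne_zero hn) (Nat.prod_primeFactors_dvd n)

lemma card_primeFactors_le_log {n : ℕ} (hn : n ≠ 0) : n.primeFactors.card ≤ Nat.log 2 n :=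
  Nat.le_log_of_pow_le (by norm_num) (two_pow_card_primeFactors_le hn)

/-- the divisors of `n` with at most `J` prime factors -/
def DJ (n J : ℕ) : Finset ℕ := n.divisors.filter (fun m => m.primeFactors.card ≤ J)

/-- prime powers attached to `n` -/
def PPow (n : ℕ) : Finset ℕ :=
  (n.primeFactors ×ˢ range (Nat.log 2 n + 1)).image (fun x => x.1 ^ x.2)

lemma card_PPow (n : ℕ) (hn : n ≠ 0) : (PPow n).card ≤ Nat.log 2 n * (Nat.log 2 n + 1) := by
  calc (PPow n).card ≤ (n.primeFactors ×ˢ range (Nat.log 2 n + 1)).card := card_image_le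
    _ = n.primeFactors.card * (Nat.log 2 n + 1) := by rw [card_product, card_range]
    _ ≤ _ := Nat.mul_le_mul_right _ (card_primeFactors_le_log hn)

lemma card_DJ {n : ℕ} (hn : n ≠ 0) (J : ℕ) : (DJ n J).card ≤ ((Nat.log 2 n + 1) ^ 2) ^ J := by
  induction J with
  | zero =>
    have : DJ n 0 ⊆ {1} := by
      intro m hm
      rw [DJ, mem_filter, Nat.mem_divisors] at hm
      obtain ⟨⟨h1, -⟩, h2⟩ := hm
      have h3 : m.primeFactors = ∅ := by
        rw [← card_eq_zero]; omega
      rw [Nat.primeFactors_eq_empty] at h3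
      rcases h3 with h3 | h3
      · rw [h3] at h1
        exact absurd (zero_dvd_iff.mp h1) hn
      · rw [h3]; exact mem_singleton_self 1
    calc (DJ n 0).card ≤ ({1} : Finset ℕ).card := card_le_card this
      _ = _ := by simp
  | succ J ih =>
    have hsub : DJ n (J + 1) ⊆ (DJ n J ×ˢ insert 1 (PPow n)).image (fun x => x.1 * x.2) := by
      intro m hm
      rw [DJ, mem_filter, Nat.mem_divisors] at hm
      obtain ⟨⟨h1, -⟩, h2⟩ := hm
      have hm0 : m ≠ 0 := by
        rintro rfl
        exact hn (zero_dvd_iff.mp h1)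
      rw [mem_image]
      by_cases hm1 : m = 1
      · refine ⟨(1, 1), ?_, by simp [hm1]⟩
        rw [mem_product]
        refine ⟨?_, by simp⟩
        rw [DJ, mem_filter, Nat.mem_divisors]
        simp [hn]
      · set q := m.minFac with hq
        have hqp : q.Prime := Nat.minFac_prime hm1
        refine ⟨(ordCompl[q] m, ordProj[q] m), ?_, ?_⟩
        · rw [mem_product]
          constructor
          · rw [DJ, mem_filter, Nat.mem_divisors]
            refine ⟨⟨(Nat.ordCompl_dvd m q).trans h1, hn⟩, ?_⟩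
            simp only
            have h4 : (ordCompl[q] m).primeFactors = m.primeFactors.erase q := by
              rw [← Nat.support_factorization, Nat.factorization_ordCompl, Finsupp.support_erase,
                Nat.support_factorization]
            rw [h4, card_erase_of_mem]
            · omega
            · rw [Nat.mem_primeFactors]
              exact ⟨hqp, Nat.minFac_dvd m, hm0⟩
          · simp only
            apply mem_insert_of_mem
            rw [PPow, mem_image]
            refine ⟨(q, m.factorization q), ?_, rfl⟩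
            rw [mem_product, Nat.mem_primeFactors, mem_range]
            refine ⟨⟨hqp, (Nat.minFac_dvd m).trans h1, hn⟩, ?_⟩
            simp only
            have h3 : 2 ^ m.factorization q ≤ n := by
              calc 2 ^ m.factorization q ≤ q ^ m.factorization q :=
                    Nat.pow_le_pow_left hqp.two_le _
                _ ≤ n := Nat.le_of_dvd (Nat.pos_of_ne_zero hn) ((Nat.ordProj_dvd m q).trans h1)
            have := Nat.le_log_of_pow_le (by norm_num) h3
            omega
        · simp only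
          rw [mul_comm]
          exact Nat.ordProj_mul_ordCompl_eq_self m q
    calc (DJ n (J + 1)).card ≤ _ := card_le_card hsub
      _ ≤ (DJ n J ×ˢ insert 1 (PPow n)).card := card_image_le
      _ = (DJ n J).card * (insert 1 (PPow n)).card := card_product _ _
      _ ≤ ((Nat.log 2 n + 1) ^ 2) ^ J * (Nat.log 2 n + 1) ^ 2 := by
          apply Nat.mul_le_mul ih
          calc (insert 1 (PPow n)).card ≤ (PPow n).card + 1 := card_insert_le _ _
            _ ≤ Nat.log 2 n * (Nat.log 2 n + 1) + 1 := by
                have := card_PPow n hn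
                omega
            _ ≤ (Nat.log 2 n + 1) ^ 2 := by nlinarith
      _ = _ := by rw [pow_succ ((Nat.log 2 n + 1) ^ 2) J]

lemma two_pow_omega_le {m : ℕ} (hm : m ≠ 0) : 2 ^ m.primeFactors.card ≤ m.divisors.card := by
  rw [Nat.card_divisors hm, ← prod_const]
  apply prod_le_prod'
  intro q hq
  have : 0 < m.factorization q := by
    rw [Nat.mem_primeFactors] at hq
    exact hq.1.factorization_pos_of_dvd hq.2.2 hq.2.1
  omega

lemma sum_Icc_inv_le (M : ℕ) : ∑ m ∈ Icc 1 M, (1 / (m : ℝ)) ≤ 1 + Real.log M := by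
  have h2 := harmonic_le_one_add_log M
  have h3 : ((harmonic M : ℚ) : ℝ) = ∑ m ∈ Icc 1 M, (1 / (m : ℝ)) := by
    rw [harmonic_eq_sum_Icc]
    push_cast
    apply sum_congr rfl
    intro j _
    rw [one_div]
  rw [← h3]
  exact h2

lemma sum_tau_le (M : ℕ) :
    ∑ m ∈ Icc 1 M, (m.divisors.card : ℝ) / m ≤ (∑ m ∈ Icc 1 M, (1 / (m : ℝ))) ^ 2 := by
  have h1 : ∀ m ∈ Icc 1 M, (m.divisors.card : ℝ) / m =
      ∑ x ∈ Icc 1 M ×ˢ Icc 1 M, if x.1 * x.2 = m then (1 / (x.1 : ℝ)) * (1 / (x.2 : ℝ)) else 0 := by
    intro m hm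
    rw [mem_Icc] at hm
    rw [← sum_filter]
    have h2 : (Icc 1 M ×ˢ Icc 1 M).filter (fun x => x.1 * x.2 = m) = m.divisorsAntidiagonal := by
      ext ⟨a, b⟩
      rw [mem_filter, mem_product, mem_Icc, mem_Icc, Nat.mem_divisorsAntidiagonal]
      simp only
      constructor
      · rintro ⟨_, h⟩
        exact ⟨h, by omega⟩
      · rintro ⟨h, h0⟩
        have ha : a ≠ 0 := by rintro rfl; simp at h; omega
        have hb : b ≠ 0 := by rintro rfl; simp at h; omega
        have ha' : a ∣ m := ⟨b, h.symm⟩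
        have hb' : b ∣ m := ⟨a, by rw [← h]; ring⟩
        have := Nat.le_of_dvd (by omega) ha'
        have := Nat.le_of_dvd (by omega) hb'
        exact ⟨⟨⟨by omega, by omega⟩, ⟨by omega, by omega⟩⟩, h⟩
    rw [h2]
    have h3 : ∀ x ∈ m.divisorsAntidiagonal, (1 / (x.1 : ℝ)) * (1 / (x.2 : ℝ)) = 1 / (m : ℝ) := by
      intro x hx
      rw [Nat.mem_divisorsAntidiagonal] at hx
      rw [← hx.1]
      push_cast
      rw [one_div_mul_one_div]
    rw [sum_congr rfl h3, Nat.sum_divisorsAntidiagonal (fun _ _ => 1 / (m : ℝ)), sum_const,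
      nsmul_eq_mul]
    ring
  rw [sum_congr rfl h1, sum_comm]
  have h4 : (∑ m ∈ Icc 1 M, (1 / (m : ℝ))) ^ 2 =
      ∑ x ∈ Icc 1 M ×ˢ Icc 1 M, (1 / (x.1 : ℝ)) * (1 / (x.2 : ℝ)) := by
    rw [pow_two, sum_mul_sum, sum_product]
  rw [h4]
  apply sum_le_sum
  intro x _
  rw [sum_ite_eq]
  split_ifs
  · exact le_rfl
  · positivity

/-- integers with many prime factors are rare on the logarithmic scale -/
lemma sum_many_le (M J : ℕ) :
    ∑ m ∈ (Icc 1 M).filter (fun m => J < m.primeFactors.card), (1 / (m : ℝ)) ≤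
      (1 + Real.log M) ^ 2 / 2 ^ J := by
  rw [le_div_iff₀ (by positivity), sum_mul]
  calc ∑ m ∈ (Icc 1 M).filter (fun m => J < m.primeFactors.card), (1 / (m : ℝ)) * 2 ^ J
      ≤ ∑ m ∈ (Icc 1 M).filter (fun m => J < m.primeFactors.card), (m.divisors.card : ℝ) / m := by
        apply sum_le_sum
        intro m hm
        rw [mem_filter, mem_Icc] at hm
        have h1 : (2 : ℝ) ^ J ≤ m.divisors.card := by
          calc (2 : ℝ) ^ J ≤ 2 ^ m.primeFactors.card :=
                pow_le_pow_right₀ (by norm_num) hm.2.le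
            _ ≤ m.divisors.card := by exact_mod_cast two_pow_omega_le (by omega)
        rw [one_div_mul_eq_div]
        gcongr
    _ ≤ ∑ m ∈ Icc 1 M, (m.divisors.card : ℝ) / m := by
        apply sum_le_sum_of_subset_of_nonneg (filter_subset _ _)
        intro m _ _
        positivity
    _ ≤ (∑ m ∈ Icc 1 M, (1 / (m : ℝ))) ^ 2 := sum_tau_le M
    _ ≤ (1 + Real.log M) ^ 2 := by
        have h5 : 0 ≤ ∑ m ∈ Icc 1 M, (1 / (m : ℝ)) := sum_nonneg (fun _ _ => by positivity)
        have := sum_Icc_inv_le M
        gcongr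

end Pool.Agent.Helper42
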