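import Pool.Agent.Helper42.Fourier2
import Pool.Agent.Helper42.Cot
import Pool.Agent.Helper42.Count

open Finset

namespace Pool.Agent.Helper42

variable {p : ℕ} [Fact p.Prime]

/-- Fourier expansion of the parity sign in additive characters -/
lemma Phi_fourier (hp : Odd p) {x : ZMod p} (hx : x ≠ 0) :
    Phi x = - (2 / p) * ∑ n ∈ H p, cc p n *
      (ZMod.stdAddChar ((2 : ZMod p)⁻¹ * (n : ZMod p) * x)).im := by
  have hpos : 0 < p := (Fact.out : p.Prime).pos
  have hp0 : (p : ℝ) ≠ 0 := by exact_mod_cast hpos.ne'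
  set y : ℕ := if Odd x.val then x.val else x.val + p with hy
  have hyx : ((y : ℕ) : ZMod p) = x := by
    rw [hy]; split_ifs <;> simp
  have hyo : Odd y := by
    rw [hy]
    split_ifs with h
    · exact h
    · exact (Nat.not_odd_iff_even.mp h).add_odd hp
  have hyd : ¬ p ∣ y := by
    intro h
    apply hx
    rw [← hyx]
    exact (ZMod.natCast_eq_zero_iff _ _).mpr h
  have h1 := sum_cc_sin_odd hp hyo hyd
  rw [hyx] at h1
  obtain ⟨N, hN⟩ := hp
  have h2 : (2 : ZMod p)⁻¹ = ((N + 1 : ℕ) : ZMod p) := by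
    have h2ne : (2 : ZMod p) ≠ 0 := by
      intro h
      have : ((2 : ℕ) : ZMod p) = 0 := by exact_mod_cast h
      rw [ZMod.natCast_eq_zero_iff] at this
      have := Nat.le_of_dvd (by norm_num) this
      have := (Fact.out : p.Prime).two_le
      omega
    have h3 : (2 : ZMod p) * ((N + 1 : ℕ) : ZMod p) = 1 := by
      have : ((2 * (N + 1) : ℕ) : ZMod p) = ((p + 1 : ℕ) : ZMod p) := by
        congr 1; omega
      push_cast at this ⊢
      rw [this]; simp
    exact (eq_inv_of_mul_eq_one_right h3).symm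
  have h4 : ∀ n ∈ H p, (ZMod.stdAddChar ((2 : ZMod p)⁻¹ * (n : ZMod p) * x)).im =
      - Real.sin (Real.pi * (n * y) / p) := by
    intro n hn
    have e1 : (2 : ZMod p)⁻¹ * (n : ZMod p) * x = ((((N + 1) * n * y : ℕ) : ℤ) : ZMod p) := by
      rw [h2, ← hyx]; push_cast; ring
    rw [e1, ZMod.stdAddChar_coe]
    have e2 : (2 * (Real.pi : ℂ) * Complex.I * ((((N + 1) * n * y : ℕ) : ℤ) : ℂ) / (p : ℂ)) =
        ((2 * Real.pi * ((N + 1) * n * y : ℝ) / p : ℝ) : ℂ) * Complex.I := by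
      push_cast; ring
    rw [e2, Complex.exp_ofReal_mul_I_im]
    have hpN : (2 * ((N : ℝ) + 1)) = p + 1 := by
      have : (p : ℝ) = 2 * N + 1 := by exact_mod_cast hN
      rw [this]; ring
    have e3 : 2 * Real.pi * (((N : ℝ) + 1) * n * y) / p =
        Real.pi * (n * y) / p + ((n * y : ℕ) : ℝ) * Real.pi := by
      have : 2 * Real.pi * (((N : ℝ) + 1) * n * y) / p = (2 * ((N : ℝ) + 1)) * (Real.pi * n * y) / p := by
        ring
      rw [this, hpN]; push_cast; field_simp; ring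
    rw [e3, Real.sin_add_nat_mul_pi, ((mem_H.mp hn).2.mul hyo).neg_one_pow]
    ring
  rw [sum_congr rfl (fun n hn => by rw [h4 n hn])]
  rw [sum_congr rfl (fun n _ => by rw [mul_neg]), sum_neg_distrib, h1]
  field_simp

/-- linear bound -/
lemma lin_bound (hp : Odd p) {ι : Type*} (S : Finset ι) (w : ι → ℝ) (x : ι → ZMod p)
    (hx : ∀ s ∈ S, x s ≠ 0) :
    |∑ s ∈ S, w s * Phi (x s)| ≤ (2 / p) * ∑ n ∈ H p, cc p n *
      ‖∑ s ∈ S, (w s : ℂ) * ZMod.stdAddChar ((2 : ZMod p)⁻¹ * (n : ZMod p) * x s)‖ := by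
  have hpos : 0 < p := (Fact.out : p.Prime).pos
  have e1 : ∑ s ∈ S, w s * Phi (x s) = - (2 / p) * ∑ n ∈ H p, cc p n *
      (∑ s ∈ S, (w s : ℂ) * ZMod.stdAddChar ((2 : ZMod p)⁻¹ * (n : ZMod p) * x s)).im := by
    rw [sum_congr rfl (fun s hs => by rw [Phi_fourier hp (hx s hs)])]
    rw [mul_sum]
    simp_rw [mul_sum, Complex.im_sum, mul_sum]
    rw [sum_comm]
    apply sum_congr rfl; intro n _
    apply sum_congr rfl; intro s _
    rw [Complex.im_ofReal_mul]
    ring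
  rw [e1, abs_mul, abs_neg, abs_of_nonneg (by positivity : (0 : ℝ) ≤ 2 / p)]
  apply mul_le_mul_of_nonneg_left _ (by positivity)
  refine (abs_sum_le_sum_abs _ _).trans (sum_le_sum (fun n hn => ?_))
  have hn' := mem_H.mp hn
  rw [abs_mul, abs_of_nonneg (cc_nonneg hn'.2.pos hn'.1.le)]
  exact mul_le_mul_of_nonneg_left (Complex.abs_im_le_norm _) (cc_nonneg hn'.2.pos hn'.1.le)

/-- total mass of the Fourier coefficients -/
lemma sum_cc_le : ∑ n ∈ H p, cc p n ≤ p * (1 + Real.log p) := by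
  have hpos : 0 < p := (Fact.out : p.Prime).pos
  calc ∑ n ∈ H p, cc p n ≤ ∑ n ∈ H p, (p : ℝ) * (1 / n) := by
        apply sum_le_sum
        intro n hn
        have hn' := mem_H.mp hn
        have := cc_le hn'.2.pos hn'.1.le
        rw [mul_one_div]; exact this
    _ ≤ ∑ n ∈ Icc 1 p, (p : ℝ) * (1 / n) := by
        apply sum_le_sum_of_subset_of_nonneg
        · intro n hn
          have hn' := mem_H.mp hn
          rw [mem_Icc]
          exact ⟨hn'.2.pos, hn'.1.le⟩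
        · intro n _ _; positivity
    _ ≤ p * (1 + Real.log p) := by
        rw [← mul_sum]
        exact mul_le_mul_of_nonneg_left (sum_Icc_inv_le p) (by positivity)

lemma cc_mass_le : (2 / p) * ∑ n ∈ H p, cc p n ≤ 2 * (1 + Real.log p) := by
  have hpos : 0 < p := (Fact.out : p.Prime).pos
  have hp0 : (p : ℝ) ≠ 0 := by exact_mod_cast hpos.ne'
  calc (2 / p) * ∑ n ∈ H p, cc p n ≤ (2 / p) * (p * (1 + Real.log p)) :=
        mul_le_mul_of_nonneg_left sum_cc_le (by positivity)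
    _ = 2 * (1 + Real.log p) := by field_simp

/-- uniform version of the linear bound -/
lemma lin_bound_unif (hp : Odd p) {ι : Type*} (S : Finset ι) (w : ι → ℝ) (x : ι → ZMod p)
    (hx : ∀ s ∈ S, x s ≠ 0) (B : ℝ)
    (hB : ∀ a : ZMod p, a ≠ 0 → ‖∑ s ∈ S, (w s : ℂ) * ZMod.stdAddChar (a * x s)‖ ≤ B) :
    |∑ s ∈ S, w s * Phi (x s)| ≤ 2 * (1 + Real.log p) * B := by
  have hpos : 0 < p := (Fact.out : p.Prime).pos
  have h2ne : (2 : ZMod p) ≠ 0 := by
    intro h
    have : ((2 : ℕ) : ZMod p) = 0 := by exact_mod_cast h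
    rw [ZMod.natCast_eq_zero_iff] at this
    have := Nat.le_of_dvd (by norm_num) this
    have := (Fact.out : p.Prime).two_le
    have : p = 2 := by omega
    rw [this] at hp
    exact absurd hp (by decide)
  have hB0 : 0 ≤ B := (norm_nonneg _).trans (hB 1 one_ne_zero)
  refine (lin_bound hp S w x hx).trans ?_
  calc (2 / p) * ∑ n ∈ H p, cc p n *
      ‖∑ s ∈ S, (w s : ℂ) * ZMod.stdAddChar ((2 : ZMod p)⁻¹ * (n : ZMod p) * x s)‖
      ≤ (2 / p) * ∑ n ∈ H p, cc p n * B := by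
        apply mul_le_mul_of_nonneg_left _ (by positivity)
        apply sum_le_sum
        intro n hn
        have hn' := mem_H.mp hn
        apply mul_le_mul_of_nonneg_left _ (cc_nonneg hn'.2.pos hn'.1.le)
        exact hB _ (mul_ne_zero (inv_ne_zero h2ne) (cast_H_ne_zero hn))
    _ = ((2 / p) * ∑ n ∈ H p, cc p n) * B := by rw [← sum_mul]; ring
    _ ≤ 2 * (1 + Real.log p) * B := mul_le_mul_of_nonneg_right cc_mass_le hB0

/-- distance of a character value from one -/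
lemma norm_char_sub_one (b : ZMod p) :
    4 * |(b.valMinAbs : ℝ)| / p ≤ ‖ZMod.stdAddChar b - (1 : ℂ)‖ := by
  have hpos : 0 < p := (Fact.out : p.Prime).pos
  have hp0 : (0 : ℝ) < p := by exact_mod_cast hpos
  have hb : ((b.valMinAbs : ℤ) : ZMod p) = b := ZMod.coe_valMinAbs b
  have e1 : ZMod.stdAddChar b = Complex.exp (Complex.I * ((2 * Real.pi * b.valMinAbs / p : ℝ) : ℂ)) := by
    nth_rewrite 1 [← hb]
    rw [ZMod.stdAddChar_coe]
    congr 1
    push_cast; ring
  rw [e1, Complex.norm_exp_I_mul_ofReal_sub_one, norm_mul, Real.norm_eq_abs, Real.norm_eq_abs,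
    abs_of_pos (by norm_num : (0 : ℝ) < 2)]
  have habs : |(b.valMinAbs : ℝ)| ≤ p / 2 := by
    have h1 := ZMod.natAbs_valMinAbs_le b
    have h2 : ((b.valMinAbs.natAbs : ℕ) : ℝ) ≤ ((p / 2 : ℕ) : ℝ) := by exact_mod_cast h1
    rw [Nat.cast_natAbs, Int.cast_abs] at h2
    exact h2.trans Nat.cast_div_le
  set t : ℝ := 2 * Real.pi * b.valMinAbs / p / 2 with ht
  have et : |t| = Real.pi * |(b.valMinAbs : ℝ)| / p := by
    rw [ht, show 2 * Real.pi * (b.valMinAbs : ℝ) / p / 2 = Real.pi * b.valMinAbs / p by ring,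
      abs_div, abs_mul, abs_of_pos Real.pi_pos, abs_of_pos hp0]
  have ht2 : |t| ≤ Real.pi / 2 := by
    rw [et, div_le_iff₀ hp0]
    nlinarith [Real.pi_pos]
  rw [Real.abs_sin_eq_sin_abs_of_abs_le_pi (by linarith [Real.pi_pos])]
  have h3 := Real.mul_le_sin (abs_nonneg t) ht2
  have h4 : 2 / Real.pi * |t| = 2 * |(b.valMinAbs : ℝ)| / p := by
    rw [et]; field_simp
  rw [h4] at h3
  calc 4 * |(b.valMinAbs : ℝ)| / p = 2 * (2 * |(b.valMinAbs : ℝ)| / p) := by ring
    _ ≤ 2 * Real.sin |t| := by linarith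

lemma valMinAbs_pos {b : ZMod p} (hb : b ≠ 0) : 0 < |(b.valMinAbs : ℝ)| := by
  rw [abs_pos]
  intro h
  have : b.valMinAbs = 0 := by exact_mod_cast h
  exact hb ((ZMod.valMinAbs_eq_zero b).mp this)

/-- geometric sum bound -/
lemma geom_bound {b c : ZMod p} (hb : b ≠ 0) (I : ℕ) :
    ‖∑ i ∈ range I, (ZMod.stdAddChar (c + (i : ZMod p) * b) : ℂ)‖ ≤ min (I : ℝ) (p / (2 * |(b.valMinAbs : ℝ)|)) := by
  have hpos : 0 < p := (Fact.out : p.Prime).pos
  have hp0 : (0 : ℝ) < p := by exact_mod_cast hpos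
  set z : ℂ := ZMod.stdAddChar b with hz
  apply le_min
  · refine (norm_sum_le _ _).trans ?_
    rw [sum_congr rfl (fun i _ => AddChar.norm_apply _ _)]
    simp
  · have e1 : ∑ i ∈ range I, (ZMod.stdAddChar (c + (i : ZMod p) * b) : ℂ) =
        ZMod.stdAddChar c * ∑ i ∈ range I, z ^ i := by
      rw [mul_sum]
      apply sum_congr rfl
      intro i _
      rw [AddChar.map_add_eq_mul, hz, ← AddChar.map_nsmul_eq_pow, nsmul_eq_mul]
    have hv := valMinAbs_pos hb
    have h1 := norm_char_sub_one b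
    rw [← hz] at h1
    have h2 : 0 < 4 * |(b.valMinAbs : ℝ)| / p := by positivity
    have hz1 : z ≠ 1 := by
      intro h
      rw [h, sub_self, norm_zero] at h1
      linarith
    rw [e1, norm_mul, AddChar.norm_apply, one_mul, geom_sum_eq hz1, norm_div]
    have h3 : ‖z ^ I - 1‖ ≤ 2 := by
      calc ‖z ^ I - 1‖ ≤ ‖z ^ I‖ + ‖(1 : ℂ)‖ := norm_sub_le _ _
        _ = 2 := by rw [norm_pow, hz, AddChar.norm_apply]; norm_num
    calc ‖z ^ I - 1‖ / ‖z - 1‖ ≤ 2 / (4 * |(b.valMinAbs : ℝ)| / p) := by gcongr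
      _ = p / (2 * |(b.valMinAbs : ℝ)|) := by field_simp; ring

end Pool.Agent.Helper42
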