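import Mathlib

open Finset

namespace Pool.Agent.Helper42

private theorem err_small : ∃ A0 : ℕ, 2 ≤ A0 ∧ ∀ n : ℕ, A0 ≤ n →
    Real.log ((4 * n : ℕ) + 1) + 2 * √((4 * n : ℕ) : ℝ) * Real.log ((4 * n : ℕ) : ℝ) ≤ 0.7 * n := by
  have h1 : ∀ᶠ x : ℝ in Filter.atTop, ‖Real.log x‖ ≤ 0.05 * ‖x ^ (1 / 2 : ℝ)‖ :=
    (isLittleO_log_rpow_atTop (by norm_num : (0 : ℝ) < 1 / 2)).bound (by norm_num)
  have hc : Filter.Tendsto (fun n : ℕ => ((4 * n : ℕ) : ℝ)) Filter.atTop Filter.atTop := by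
    refine tendsto_natCast_atTop_atTop.comp ?_
    exact Filter.tendsto_id.const_mul_atTop' (by norm_num)
  have hc' : Filter.Tendsto (fun n : ℕ => ((4 * n : ℕ) : ℝ) + 1) Filter.atTop Filter.atTop :=
    Filter.tendsto_atTop_add_const_right _ _ hc
  have e1 := hc.eventually h1
  have e2 := hc'.eventually h1
  have e3 : ∀ᶠ n : ℕ in Filter.atTop, 2 ≤ n := Filter.eventually_ge_atTop 2
  obtain ⟨A0, hA0⟩ := Filter.eventually_atTop.1 (e1.and (e2.and e3))
  refine ⟨max A0 2, le_max_right _ _, ?_⟩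
  intro n hn
  obtain ⟨g1, g2, g3⟩ := hA0 n (le_trans (le_max_left _ _) hn)
  have hn1 : (2 : ℝ) ≤ n := by exact_mod_cast g3
  rw [← Real.sqrt_eq_rpow, Real.norm_of_nonneg (Real.sqrt_nonneg _)] at g1 g2
  have k1 := le_trans (Real.le_norm_self _) g1
  have k2 := le_trans (Real.le_norm_self _) g2
  have hs : √((4 * n : ℕ) : ℝ) * √((4 * n : ℕ) : ℝ) = 4 * n := by
    rw [Real.mul_self_sqrt (by positivity)]; push_cast; ring
  have hs2 : √(((4 * n : ℕ) : ℝ) + 1) ≤ 4 * n := by
    rw [Real.sqrt_le_left (by positivity)]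
    push_cast
    nlinarith
  have h0 : 0 ≤ √((4 * n : ℕ) : ℝ) := Real.sqrt_nonneg _
  nlinarith [mul_le_mul_of_nonneg_left k1 h0]

private theorem block : ∃ A0 : ℕ, 2 ≤ A0 ∧ ∀ A : ℕ, A0 ≤ A →
    0.14 / Real.log ((4 * A : ℕ) : ℝ) ≤
      ∑ q ∈ (Ioc A (4 * A)).filter Nat.Prime, (1 / (q : ℝ)) := by
  obtain ⟨A0, h2, hA0⟩ := err_small
  refine ⟨A0, h2, ?_⟩
  intro A hA
  have herr := hA0 A hA
  have hA2 : (2 : ℝ) ≤ A := by exact_mod_cast h2.trans hA
  have ht1 := Chebyshev.theta_ge (4 * A)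
  have ht2 := Chebyshev.theta_le_log4_mul_x (x := (A : ℝ)) (by positivity)
  have hl4 : Real.log 4 = 2 * Real.log 2 := by
    rw [show (4 : ℝ) = 2 ^ 2 by norm_num, Real.log_pow]; norm_num
  have hl2 := Real.log_two_gt_d9
  rw [hl4] at ht2
  have hdiff : 0.56 * (A : ℝ) ≤ Chebyshev.theta ((4 * A : ℕ) : ℝ) - Chebyshev.theta (A : ℝ) := by
    push_cast at *
    nlinarith
  have hth : Chebyshev.theta ((4 * A : ℕ) : ℝ) - Chebyshev.theta (A : ℝ) =
      ∑ q ∈ (Ioc A (4 * A)).filter Nat.Prime, Real.log q := by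
    unfold Chebyshev.theta
    rw [Nat.floor_natCast, Nat.floor_natCast]
    rw [← Finset.sum_filter_add_sum_filter_not ((Ioc 0 (4 * A)).filter Nat.Prime) (fun q => q ≤ A)]
    have s1 : ((Ioc 0 (4 * A)).filter Nat.Prime).filter (fun q => q ≤ A) =
        (Ioc 0 A).filter Nat.Prime := by
      ext q; simp only [mem_filter, mem_Ioc]; constructor
      · rintro ⟨⟨⟨a, b⟩, c⟩, d⟩; exact ⟨⟨a, d⟩, c⟩
      · rintro ⟨⟨a, b⟩, c⟩; exact ⟨⟨⟨a, by omega⟩, c⟩, b⟩
    have s2 : ((Ioc 0 (4 * A)).filter Nat.Prime).filter (fun q => ¬ q ≤ A) =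
        (Ioc A (4 * A)).filter Nat.Prime := by
      ext q; simp only [mem_filter, mem_Ioc]; constructor
      · rintro ⟨⟨⟨a, b⟩, c⟩, d⟩; exact ⟨⟨by omega, b⟩, c⟩
      · rintro ⟨⟨a, b⟩, c⟩; exact ⟨⟨⟨by omega, b⟩, c⟩, by omega⟩
    rw [s1, s2]; ring
  have hL : 0 < Real.log ((4 * A : ℕ) : ℝ) := by
    apply Real.log_pos; push_cast; linarith
  have hA4 : (0 : ℝ) < ((4 * A : ℕ) : ℝ) := by push_cast; linarith
  have hterm : ∀ q ∈ (Ioc A (4 * A)).filter Nat.Prime,
      Real.log q / (((4 * A : ℕ) : ℝ) * Real.log ((4 * A : ℕ) : ℝ)) ≤ 1 / (q : ℝ) := by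
    intro q hq
    simp only [mem_filter, mem_Ioc] at hq
    have hq0 : (0 : ℝ) < q := by exact_mod_cast hq.2.pos
    have hq4 : (q : ℝ) ≤ ((4 * A : ℕ) : ℝ) := by exact_mod_cast hq.1.2
    have hlq : Real.log q ≤ Real.log ((4 * A : ℕ) : ℝ) := Real.log_le_log hq0 hq4
    rw [div_le_div_iff₀ (by positivity) hq0, one_mul]
    calc Real.log q * q ≤ Real.log ((4 * A : ℕ) : ℝ) * q := by
          exact mul_le_mul_of_nonneg_right hlq hq0.le
      _ ≤ Real.log ((4 * A : ℕ) : ℝ) * ((4 * A : ℕ) : ℝ) :=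
          mul_le_mul_of_nonneg_left hq4 hL.le
      _ = _ := by ring
  refine le_trans ?_ (Finset.sum_le_sum hterm)
  rw [← Finset.sum_div, ← hth, div_le_div_iff₀ hL (by positivity)]
  have : 0.14 * ((4 * A : ℕ) : ℝ) ≤ Chebyshev.theta ((4 * A : ℕ) : ℝ) - Chebyshev.theta (A : ℝ) := by
    push_cast at *
    linarith
  calc 0.14 * (((4 * A : ℕ) : ℝ) * Real.log ((4 * A : ℕ) : ℝ))
      = (0.14 * ((4 * A : ℕ) : ℝ)) * Real.log ((4 * A : ℕ) : ℝ) := by ring
    _ ≤ _ := mul_le_mul_of_nonneg_right this hL.le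

/-- Chebyshev-type lower bound for sums of reciprocals of primes in an interval. -/
theorem sum_recip_primes_ge : ∃ A0 : ℕ, 2 ≤ A0 ∧ ∀ A B : ℕ, A0 ≤ A → A ≤ B →
    (1 / 10 : ℝ) * ((Real.log B - Real.log A - 2) / Real.log B) ≤
      ∑ q ∈ (Ioc A B).filter Nat.Prime, (1 / (q : ℝ)) := by
  obtain ⟨A0, h2, hblock⟩ := block
  refine ⟨A0, h2, ?_⟩
  have hl4 : Real.log 4 = 2 * Real.log 2 := by
    rw [show (4 : ℝ) = 2 ^ 2 by norm_num, Real.log_pow]; norm_num
  have hl2 := Real.log_two_gt_d9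
  have hl2' := Real.log_two_lt_d9
  have key : ∀ d : ℕ, ∀ A B : ℕ, B - A = d → A0 ≤ A → A ≤ B →
      ∀ L : ℝ, 0 < L → Real.log B ≤ L →
      (1 / 10 : ℝ) * ((Real.log B - Real.log A - 2) / L) ≤
      ∑ q ∈ (Ioc A B).filter Nat.Prime, (1 / (q : ℝ)) := by
    intro d
    induction d using Nat.strong_induction_on with
    | _ d ih =>
      intro A B hd hA hAB L hL0 hL
      have hA0 : (0 : ℝ) < A := by
        have : 0 < A := by omega
        exact_mod_cast this
      by_cases h4 : 4 * A ≤ B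
      · have hsplit : (Ioc A B).filter Nat.Prime =
            (Ioc A (4 * A)).filter Nat.Prime ∪ (Ioc (4 * A) B).filter Nat.Prime := by
          rw [← Finset.filter_union, Finset.Ioc_union_Ioc_eq_Ioc (by omega) h4]
        have hdisj : Disjoint ((Ioc A (4 * A)).filter Nat.Prime)
            ((Ioc (4 * A) B).filter Nat.Prime) := by
          rw [Finset.disjoint_left]
          intro q h1 h2
          simp only [mem_filter, mem_Ioc] at h1 h2
          omega
        rw [hsplit, Finset.sum_union hdisj]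
        have i1 := ih (B - 4 * A) (by omega) (4 * A) B rfl (by omega) h4 L hL0 hL
        have i2 := hblock A hA
        have hl : Real.log ((4 * A : ℕ) : ℝ) = Real.log 4 + Real.log A := by
          push_cast
          rw [Real.log_mul (by norm_num) hA0.ne']
        have hlpos : 0 < Real.log ((4 * A : ℕ) : ℝ) := by
          apply Real.log_pos; push_cast
          have : (2 : ℝ) ≤ A := by exact_mod_cast h2.trans hA
          linarith
        have hle : Real.log ((4 * A : ℕ) : ℝ) ≤ L := by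
          refine le_trans (Real.log_le_log (by push_cast; linarith) ?_) hL
          exact_mod_cast h4
        have i3 : 0.14 / L ≤ 0.14 / Real.log ((4 * A : ℕ) : ℝ) :=
          div_le_div_of_nonneg_left (by norm_num) hlpos hle
        rw [hl] at i1
        have i4 : (1 / 10 : ℝ) * ((Real.log B - Real.log A - 2) / L) =
            (1 / 10 : ℝ) * ((Real.log B - (Real.log 4 + Real.log A) - 2) / L) +
              (1 / 10 * Real.log 4) / L := by
          field_simp; ring
        have i5 : (1 / 10 * Real.log 4) / L ≤ 0.14 / L := by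
          apply div_le_div_of_nonneg_right _ hL0.le
          rw [hl4]; linarith
        rw [i4]
        linarith
      · push Not at h4
        have hlog : Real.log B ≤ Real.log A + Real.log 4 := by
          rw [← Real.log_mul hA0.ne' (by norm_num)]
          have hB0 : (0 : ℝ) < B := lt_of_lt_of_le hA0 (by exact_mod_cast hAB)
          apply Real.log_le_log hB0
          have : (B : ℝ) ≤ 4 * A := by exact_mod_cast h4.le
          linarith
        have : (Real.log B - Real.log A - 2) / L ≤ 0 :=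
          div_nonpos_of_nonpos_of_nonneg (by rw [hl4] at hlog; linarith) hL0.le
        have h5 : 0 ≤ ∑ q ∈ (Ioc A B).filter Nat.Prime, (1 / (q : ℝ)) :=
          Finset.sum_nonneg fun _ _ => by positivity
        linarith
  intro A B hA hAB
  refine key (B - A) A B rfl hA hAB (Real.log B) ?_ le_rfl
  apply Real.log_pos
  have : 2 ≤ B := by omega
  have h3 : (2 : ℝ) ≤ B := by exact_mod_cast this
  linarith

end Pool.Agent.Helper42
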