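import Mathlib
import Pool.Agent.Helper42.Bilinear
import Pool.Agent.Helper42.Chars
import Pool.Agent.Helper42.ChebRecip

open Finset

namespace Pool.Agent.Helper42

/-- lower end of a block -/
noncomputable def Ak (p k : ℕ) : ℕ :=
  ⌈Real.exp (Real.log p * (1 / (2 * (k : ℝ)) + 1 / (8 * (k : ℝ) ^ 2)))⌉₊

/-- upper end of a block -/
noncomputable def Bk (p k : ℕ) : ℕ := ⌊Real.exp (Real.log p / (2 * (k : ℝ) - 1) - 1)⌋₊

/-- a block of primes -/
noncomputable def bl (p k : ℕ) : Finset ℕ := (Ioc (Ak p k) (Bk p k)).filter Nat.Prime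

lemma Ak_ge (p k : ℕ) :
    Real.exp (Real.log p * (1 / (2 * (k : ℝ)) + 1 / (8 * (k : ℝ) ^ 2))) ≤ Ak p k := Nat.le_ceil _

lemma Ak_one_le (p k : ℕ) : 1 ≤ Ak p k := Nat.one_le_iff_ne_zero.2 (by
  rw [Ak]
  exact (Nat.ceil_pos.2 (Real.exp_pos _)).ne')

lemma Ak_log (p k : ℕ) : Real.log (Ak p k) ≤
    Real.log p * (1 / (2 * (k : ℝ)) + 1 / (8 * (k : ℝ) ^ 2)) + Real.log 2 := by
  set y := Real.log p * (1 / (2 * (k : ℝ)) + 1 / (8 * (k : ℝ) ^ 2)) with hy
  have hy0 : 0 ≤ y := by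
    rw [hy]; have := Real.log_natCast_nonneg p; positivity
  have h1 : (Ak p k : ℝ) < Real.exp y + 1 := Nat.ceil_lt_add_one (Real.exp_pos _).le
  have h2 : 1 ≤ Real.exp y := Real.one_le_exp hy0
  have h3 : (Ak p k : ℝ) ≤ Real.exp y * 2 := by linarith
  have h4 : (0 : ℝ) < Ak p k := by exact_mod_cast Ak_one_le p k
  calc Real.log (Ak p k) ≤ Real.log (Real.exp y * 2) := Real.log_le_log h4 h3
    _ = y + Real.log 2 := by rw [Real.log_mul (Real.exp_pos _).ne' (by norm_num), Real.log_exp]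

lemma Bk_le (p k : ℕ) : (Bk p k : ℝ) ≤ Real.exp (Real.log p / (2 * (k : ℝ) - 1) - 1) :=
  Nat.floor_le (Real.exp_pos _).le

lemma two_le_y {p k : ℕ} (hk : 1 ≤ k) (hL : 80 * (k : ℝ) ^ 2 ≤ Real.log p) :
    2 ≤ Real.log p / (2 * (k : ℝ) - 1) - 1 := by
  have hk1 : (1 : ℝ) ≤ k := by exact_mod_cast hk
  have h1 : (0 : ℝ) < 2 * (k : ℝ) - 1 := by linarith
  have : 3 ≤ Real.log p / (2 * (k : ℝ) - 1) := by
    rw [le_div_iff₀ h1]
    nlinarith
  linarith

lemma Bk_log_ge {p k : ℕ} (hk : 1 ≤ k) (hL : 80 * (k : ℝ) ^ 2 ≤ Real.log p) :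
    1 ≤ Bk p k ∧ Real.log p / (2 * (k : ℝ) - 1) - 1 - Real.log 2 ≤ Real.log (Bk p k) := by
  set y := Real.log p / (2 * (k : ℝ) - 1) - 1 with hy
  have hy2 : 2 ≤ y := two_le_y hk hL
  have h1 : Real.exp y - 1 < (Bk p k : ℝ) := Nat.sub_one_lt_floor _
  have h2 : 2 ≤ Real.exp y := by
    have := Real.add_one_le_exp y
    linarith
  have h3 : Real.exp y / 2 ≤ (Bk p k : ℝ) := by linarith
  refine ⟨?_, ?_⟩
  · have : (0 : ℝ) < (Bk p k : ℝ) := by linarith
    exact_mod_cast this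
  · calc y - Real.log 2 = Real.log (Real.exp y / 2) := by
          rw [Real.log_div (Real.exp_pos _).ne' (by norm_num), Real.log_exp]
      _ ≤ Real.log (Bk p k) := Real.log_le_log (by positivity) h3

lemma Bk_log_le {p k : ℕ} (hk : 1 ≤ k) (hL : 80 * (k : ℝ) ^ 2 ≤ Real.log p) :
    Real.log (Bk p k) ≤ Real.log p / (2 * (k : ℝ) - 1) - 1 := by
  have h0 : (0 : ℝ) < Bk p k := by exact_mod_cast (Bk_log_ge hk hL).1
  calc Real.log (Bk p k) ≤ Real.log (Real.exp (Real.log p / (2 * (k : ℝ) - 1) - 1)) :=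
        Real.log_le_log h0 (Bk_le p k)
    _ = _ := Real.log_exp _

/-- log length of a block -/
lemma log_gap {p k : ℕ} (hk : 1 ≤ k) (hL : 80 * (k : ℝ) ^ 2 ≤ Real.log p) :
    Real.log p / (16 * (k : ℝ) ^ 2) ≤ Real.log (Bk p k) - Real.log (Ak p k) - 2 := by
  have hk1 : (1 : ℝ) ≤ k := by exact_mod_cast hk
  have h1 : (0 : ℝ) < 2 * (k : ℝ) - 1 := by linarith
  have hB := (Bk_log_ge hk hL).2
  have hA := Ak_log p k
  have hl2 := Real.log_two_lt_d9
  have hLp : 0 ≤ Real.log p := Real.log_natCast_nonneg p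
  have e1 : Real.log p * (1 / (4 * (k : ℝ) ^ 2)) ≤
      Real.log p / (2 * (k : ℝ) - 1) - Real.log p * (1 / (2 * (k : ℝ))) := by
    have : 1 / (4 * (k : ℝ) ^ 2) ≤ 1 / (2 * (k : ℝ) - 1) - 1 / (2 * (k : ℝ)) := by
      rw [div_sub_div _ _ h1.ne' (by positivity), div_le_div_iff₀ (by positivity) (by positivity)]
      nlinarith
    calc Real.log p * (1 / (4 * (k : ℝ) ^ 2)) ≤
        Real.log p * (1 / (2 * (k : ℝ) - 1) - 1 / (2 * (k : ℝ))) :=
          mul_le_mul_of_nonneg_left this hLp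
      _ = _ := by ring
  have e2 : 5 ≤ Real.log p / (16 * (k : ℝ) ^ 2) := by
    rw [le_div_iff₀ (by positivity)]
    linarith
  have e3 : Real.log p * (1 / (4 * (k : ℝ) ^ 2)) = 4 * (Real.log p / (16 * (k : ℝ) ^ 2)) := by
    field_simp; ring
  have e4 : Real.log p * (1 / (2 * (k : ℝ)) + 1 / (8 * (k : ℝ) ^ 2)) =
      Real.log p * (1 / (2 * (k : ℝ))) + 2 * (Real.log p / (16 * (k : ℝ) ^ 2)) := by
    field_simp; ring
  rw [e4] at hA
  rw [e3] at e1
  linarith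

/-- mass of a block -/
theorem bl_mass : ∃ A0 : ℝ, 0 ≤ A0 ∧ ∀ p k : ℕ, 1 ≤ k → A0 ≤ k → 80 * (k : ℝ) ^ 2 ≤ Real.log p →
    1 / (160 * (k : ℝ)) ≤ ∑ q ∈ bl p k, (1 / (q : ℝ)) := by
  obtain ⟨A0, hA0, hA⟩ := sum_recip_primes_ge
  refine ⟨Real.log A0, Real.log_natCast_nonneg A0, ?_⟩
  intro p k hk hkA hL
  have hk1 : (1 : ℝ) ≤ k := by exact_mod_cast hk
  have h1 : (0 : ℝ) < 2 * (k : ℝ) - 1 := by linarith
  have hLp : 0 < Real.log p := by nlinarith
  have hgap := log_gap hk hL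
  have hBle := Bk_log_le hk hL
  have hA0' : A0 ≤ Ak p k := by
    have h2 : (A0 : ℝ) ≤ Ak p k := by
      have hA0r : (0 : ℝ) < A0 := by
        have : 0 < A0 := by omega
        exact_mod_cast this
      calc (A0 : ℝ) = Real.exp (Real.log A0) := (Real.exp_log hA0r).symm
        _ ≤ Real.exp (Real.log p * (1 / (2 * (k : ℝ)) + 1 / (8 * (k : ℝ) ^ 2))) := by
            apply Real.exp_le_exp.2
            refine hkA.trans ?_
            have : (k : ℝ) ≤ Real.log p * (1 / (2 * (k : ℝ))) := by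
              rw [mul_one_div, le_div_iff₀ (by positivity)]
              nlinarith
            refine this.trans ?_
            apply mul_le_mul_of_nonneg_left _ hLp.le
            have : 0 ≤ 1 / (8 * (k : ℝ) ^ 2) := by positivity
            linarith
        _ ≤ Ak p k := Ak_ge p k
    exact_mod_cast h2
  have hAB : Ak p k ≤ Bk p k := by
    have hpos : 0 ≤ Real.log p / (16 * (k : ℝ) ^ 2) := by positivity
    have h3 : Real.log (Ak p k) ≤ Real.log (Bk p k) := by linarith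
    have hA1 : (0 : ℝ) < Ak p k := by exact_mod_cast Ak_one_le p k
    have hB1 : (0 : ℝ) < Bk p k := by exact_mod_cast (Bk_log_ge hk hL).1
    have := (Real.log_le_log_iff hA1 hB1).1 h3
    exact_mod_cast this
  have hmain := hA (Ak p k) (Bk p k) hA0' hAB
  refine le_trans ?_ hmain
  have hlogB : 0 < Real.log (Bk p k) := by
    have h5 := (Bk_log_ge hk hL).2
    have h6 := two_le_y hk hL
    have h7 := Real.log_two_lt_d9
    linarith
  have h8 : (1 : ℝ) / (16 * k) ≤ (Real.log (Bk p k) - Real.log (Ak p k) - 2) / Real.log (Bk p k) := by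
    rw [le_div_iff₀ hlogB]
    calc 1 / (16 * (k : ℝ)) * Real.log (Bk p k) ≤
        1 / (16 * (k : ℝ)) * (Real.log p / (2 * (k : ℝ) - 1)) := by
          apply mul_le_mul_of_nonneg_left _ (by positivity)
          linarith
      _ ≤ 1 / (16 * (k : ℝ)) * (Real.log p / k) := by
          apply mul_le_mul_of_nonneg_left _ (by positivity)
          apply div_le_div_of_nonneg_left hLp.le (by positivity)
          linarith
      _ = Real.log p / (16 * (k : ℝ) ^ 2) := by field_simp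
      _ ≤ _ := hgap
  calc 1 / (160 * (k : ℝ)) = 1 / 10 * (1 / (16 * k)) := by field_simp; norm_num
    _ ≤ _ := by
      apply mul_le_mul_of_nonneg_left h8 (by norm_num)

lemma mem_bl {p k q : ℕ} : q ∈ bl p k ↔ (Ak p k < q ∧ q ≤ Bk p k) ∧ q.Prime := by
  rw [bl, mem_filter, mem_Ioc]

lemma Ak_gt {p k : ℕ} (hk : 1 ≤ k) (hL : 80 * (k : ℝ) ^ 2 ≤ Real.log p) : k < Ak p k ∧ 2 ≤ Ak p k := by
  have hk1 : (1 : ℝ) ≤ k := by exact_mod_cast hk
  have hLp : 0 < Real.log p := by nlinarith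
  have h1 : (k : ℝ) ≤ Real.log p * (1 / (2 * (k : ℝ)) + 1 / (8 * (k : ℝ) ^ 2)) := by
    have : (k : ℝ) ≤ Real.log p * (1 / (2 * (k : ℝ))) := by
      rw [mul_one_div, le_div_iff₀ (by positivity)]
      nlinarith
    refine this.trans ?_
    apply mul_le_mul_of_nonneg_left _ hLp.le
    have : 0 ≤ 1 / (8 * (k : ℝ) ^ 2) := by positivity
    linarith
  have h2 : (k : ℝ) + 1 ≤ Ak p k := by
    calc (k : ℝ) + 1 ≤ Real.log p * (1 / (2 * (k : ℝ)) + 1 / (8 * (k : ℝ) ^ 2)) + 1 := by linarith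
      _ ≤ Real.exp (Real.log p * (1 / (2 * (k : ℝ)) + 1 / (8 * (k : ℝ) ^ 2))) :=
        Real.add_one_le_exp _
      _ ≤ _ := Ak_ge p k
  have h3 : k + 1 ≤ Ak p k := by exact_mod_cast h2
  omega

lemma bl_odd {p k q : ℕ} (hk : 1 ≤ k) (hL : 80 * (k : ℝ) ^ 2 ≤ Real.log p) (hq : q ∈ bl p k) :
    q.Prime ∧ Odd q := by
  rw [mem_bl] at hq
  have h2 := (Ak_gt hk hL).2
  exact ⟨hq.2, hq.2.odd_of_ne_two (by omega)⟩

lemma adm_bl {p k : ℕ} (hp : 0 < p) (hk : 1 ≤ k) (hL : 80 * (k : ℝ) ^ 2 ≤ Real.log p) {X : Finset ℕ}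
    (hX : X ⊆ bl p k) : Adm p X k (Bk p k) := by
  have hk1 : (1 : ℝ) ≤ k := by exact_mod_cast hk
  have hLp : 0 < Real.log p := by nlinarith
  have hp0 : (0 : ℝ) < p := by exact_mod_cast hp
  have h1 : (0 : ℝ) < 2 * (k : ℝ) - 1 := by linarith
  have hB := Bk_le p k
  refine ⟨hk, ?_, ?_, ?_, ?_, ?_⟩
  · intro q hq
    exact (mem_bl.1 (hX hq)).2
  · intro q hq
    have := (mem_bl.1 (hX hq)).1.1
    have h2 := (Ak_gt hk hL).1
    omega
  · intro q hq
    exact (mem_bl.1 (hX hq)).1.2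
  · have h2 : ((k * (Bk p k) ^ (2 * k - 1) : ℕ) : ℝ) < p := by
      push_cast
      calc (k : ℝ) * (Bk p k : ℝ) ^ (2 * k - 1) ≤
          k * (Real.exp (Real.log p / (2 * (k : ℝ) - 1) - 1)) ^ (2 * k - 1) := by
            gcongr
        _ = k * (p * Real.exp (-(2 * (k : ℝ) - 1))) := by
            rw [← Real.exp_nat_mul]
            have : ((2 * k - 1 : ℕ) : ℝ) = 2 * (k : ℝ) - 1 := by
              rw [Nat.cast_sub (by omega)]; push_cast; ring
            rw [this]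
            have e : (2 * (k : ℝ) - 1) * (Real.log p / (2 * (k : ℝ) - 1) - 1) =
                Real.log p + (-(2 * (k : ℝ) - 1)) := by
              field_simp
              ring
            rw [e, Real.exp_add, Real.exp_log hp0]
        _ < p := by
            rw [Real.exp_neg]
            have h3 : (k : ℝ) < Real.exp (2 * (k : ℝ) - 1) := by
              have := Real.add_one_le_exp (2 * (k : ℝ) - 1)
              linarith
            have h4 := Real.exp_pos (2 * (k : ℝ) - 1)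
            have h5 : (k : ℝ) * (p * (Real.exp (2 * (k : ℝ) - 1))⁻¹) =
                p * (k / Real.exp (2 * (k : ℝ) - 1)) := by
              field_simp
            rw [h5]
            have h6 : (k : ℝ) / Real.exp (2 * (k : ℝ) - 1) < 1 := by
              rw [div_lt_one h4]; exact h3
            nlinarith
    exact_mod_cast h2
  · have h2 : ((Bk p k : ℕ) : ℝ) < p := by
      calc ((Bk p k : ℕ) : ℝ) ≤ _ := hB
        _ < Real.exp (Real.log p) := by
            apply Real.exp_lt_exp.2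
            have : Real.log p / (2 * (k : ℝ) - 1) ≤ Real.log p := by
              rw [div_le_iff₀ h1]
              nlinarith
            linarith
        _ = p := Real.exp_log hp0
    exact_mod_cast h2

lemma bl_disjoint_aux {p k k' : ℕ} (hk : 1 ≤ k) (hkk : k < k') : Bk p k' ≤ Ak p k := by
  have hk1 : (1 : ℝ) ≤ k := by exact_mod_cast hk
  have hkk' : (k : ℝ) + 1 ≤ k' := by exact_mod_cast hkk
  have hLp : 0 ≤ Real.log p := Real.log_natCast_nonneg p
  have h : ((Bk p k' : ℕ) : ℝ) ≤ Ak p k := by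
    calc ((Bk p k' : ℕ) : ℝ) ≤ _ := Bk_le p k'
      _ ≤ Real.exp (Real.log p * (1 / (2 * (k : ℝ)) + 1 / (8 * (k : ℝ) ^ 2))) := by
          apply Real.exp_le_exp.2
          have e1 : Real.log p / (2 * (k' : ℝ) - 1) ≤ Real.log p / (2 * (k : ℝ)) := by
            apply div_le_div_of_nonneg_left hLp (by positivity)
            linarith
          have e2 : Real.log p * (1 / (2 * (k : ℝ)) + 1 / (8 * (k : ℝ) ^ 2)) =
            Real.log p / (2 * (k : ℝ)) + Real.log p / (8 * (k : ℝ) ^ 2) := by ring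
          have e3 : 0 ≤ Real.log p / (8 * (k : ℝ) ^ 2) := by positivity
          linarith
      _ ≤ _ := Ak_ge p k
  exact_mod_cast h

lemma bl_disjoint {p k k' : ℕ} (hk : 1 ≤ k) (hk' : 1 ≤ k') (hne : k ≠ k') :
    Disjoint (bl p k) (bl p k') := by
  rw [Finset.disjoint_left]
  intro q hq hq'
  rw [mem_bl] at hq hq'
  rcases lt_or_gt_of_ne hne with h | h
  · have := bl_disjoint_aux (p := p) hk h
    omega
  · have := bl_disjoint_aux (p := p) hk' h
    omega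

lemma sum_sq_bl {p k : ℕ} {X : Finset ℕ} (hX : X ⊆ bl p k) :
    ∑ q ∈ X, (1 / (q : ℝ)) ^ 2 ≤ 1 / (Ak p k : ℝ) := by
  have hA := Ak_one_le p k
  calc ∑ q ∈ X, (1 / (q : ℝ)) ^ 2 ≤ ∑ q ∈ Ioc (Ak p k) (Bk p k), (1 / (q : ℝ)) ^ 2 := by
        apply sum_le_sum_of_subset_of_nonneg _ (fun _ _ _ => by positivity)
        intro q hq
        rw [mem_Ioc]
        exact (mem_bl.1 (hX hq)).1
    _ ≤ 1 / (Ak p k : ℝ) := by
        rcases Nat.lt_or_ge (Bk p k) (Ak p k) with h | h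
        · rw [Ioc_eq_empty (by omega)]
          simp
        · have h1 := sum_Ioc_inv_sq_le_sub (α := ℝ) (k := Ak p k) (n := Bk p k) (by omega) h
          have h2 : ∑ q ∈ Ioc (Ak p k) (Bk p k), (1 / (q : ℝ)) ^ 2 =
              ∑ i ∈ Ioc (Ak p k) (Bk p k), ((i : ℝ) ^ 2)⁻¹ := by
            apply sum_congr rfl
            intro i _
            rw [one_div, inv_pow]
          rw [h2, one_div]
          have h3 : (0 : ℝ) ≤ ((Bk p k : ℕ) : ℝ)⁻¹ := by positivity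
          linarith

lemma sq_pow_bl {p k : ℕ} (hk : 1 ≤ k) {X : Finset ℕ} (hX : X ⊆ bl p k) :
    (∑ q ∈ X, (1 / (q : ℝ)) ^ 2) ^ k ≤ Real.exp (- (Real.log p * (1 / 2 + 1 / (8 * (k : ℝ))))) := by
  have hk1 : (1 : ℝ) ≤ k := by exact_mod_cast hk
  have h1 := sum_sq_bl hX
  have h0 : 0 ≤ ∑ q ∈ X, (1 / (q : ℝ)) ^ 2 := sum_nonneg (fun _ _ => by positivity)
  calc (∑ q ∈ X, (1 / (q : ℝ)) ^ 2) ^ k ≤ (1 / (Ak p k : ℝ)) ^ k := pow_le_pow_left₀ h0 h1 k
    _ ≤ (1 / Real.exp (Real.log p * (1 / (2 * (k : ℝ)) + 1 / (8 * (k : ℝ) ^ 2)))) ^ k := by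
        apply pow_le_pow_left₀ (by positivity)
        apply one_div_le_one_div_of_le (Real.exp_pos _) (Ak_ge p k)
    _ = Real.exp (- (Real.log p * (1 / 2 + 1 / (8 * (k : ℝ))))) := by
        rw [one_div, ← Real.exp_neg, ← Real.exp_nat_mul]
        congr 1
        field_simp

lemma sum_bl_le {p k : ℕ} (hp : 1 < p) {X : Finset ℕ} (hA : Adm p X k (Bk p k)) :
    ∑ q ∈ X, (1 / (q : ℝ)) ≤ 1 + Real.log p := by
  calc ∑ q ∈ X, (1 / (q : ℝ)) ≤ ∑ q ∈ Icc 1 p, (1 / (q : ℝ)) := by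
        apply sum_le_sum_of_subset_of_nonneg _ (fun _ _ _ => by positivity)
        intro q hq
        rw [mem_Icc]
        have := hA.Blt
        exact ⟨(hA.prime q hq).one_lt.le, by have := hA.le q hq; omega⟩
    _ ≤ _ := sum_Icc_inv_le p

/-- the bound for bilinear sums over blocks -/
noncomputable def DB (p K : ℕ) : ℝ :=
  (1 + Real.log p) ^ 2 * (K : ℝ) ^ 2 * Real.exp (- (Real.log p / (8 * (K : ℝ) ^ 3)))

lemma DB_nonneg (p K : ℕ) : 0 ≤ DB p K := by
  unfold DB; positivity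

variable {p : ℕ} [Fact p.Prime]

theorem bil_block {k l K : ℕ} (hk : 1 ≤ k) (hkK : k ≤ K) (hl : 1 ≤ l) (hlK : l ≤ K)
    (hL : 80 * (K : ℝ) ^ 2 ≤ Real.log p) {X Y : Finset ℕ} (hX : X ⊆ bl p k) (hY : Y ⊆ bl p l)
    {a : ZMod p} (ha : a ≠ 0) :
    ∑ q ∈ X, (1 / (q : ℝ)) * ‖∑ q' ∈ Y, ((1 / (q' : ℝ) : ℝ) : ℂ) *
      ZMod.stdAddChar (a * (q : ZMod p)⁻¹ * (q' : ZMod p)⁻¹)‖ ≤ DB p K := by
  have hp : 1 < p := (Fact.out : p.Prime).one_lt
  have hk1 : (1 : ℝ) ≤ k := by exact_mod_cast hk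
  have hl1 : (1 : ℝ) ≤ l := by exact_mod_cast hl
  have hkK' : (k : ℝ) ≤ K := by exact_mod_cast hkK
  have hlK' : (l : ℝ) ≤ K := by exact_mod_cast hlK
  have hK1 : (1 : ℝ) ≤ K := hk1.trans hkK'
  have hLk : 80 * (k : ℝ) ^ 2 ≤ Real.log p := by
    refine le_trans ?_ hL
    gcongr
  have hLl : 80 * (l : ℝ) ^ 2 ≤ Real.log p := by
    refine le_trans ?_ hL
    gcongr
  have hL0 : 0 ≤ Real.log p := Real.log_natCast_nonneg p
  have hA := adm_bl (by omega) hk hLk hX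
  have hC := adm_bl (by omega) hl hLl hY
  have hmain := bilinear_le hA hC ha
  set T := ∑ q ∈ X, (1 / (q : ℝ)) * ‖∑ q' ∈ Y, ((1 / (q' : ℝ) : ℝ) : ℂ) *
      ZMod.stdAddChar (a * (q : ZMod p)⁻¹ * (q' : ZMod p)⁻¹)‖ with hT
  have hT0 : 0 ≤ T := by
    rw [hT]; exact sum_nonneg (fun _ _ => by positivity)
  have hX1 := sum_bl_le hp hA
  have hY1 := sum_bl_le hp hC
  have hX0 : 0 ≤ ∑ q ∈ X, (1 / (q : ℝ)) := sum_nonneg (fun _ _ => by positivity)
  have hY0 : 0 ≤ ∑ q ∈ Y, (1 / (q : ℝ)) := sum_nonneg (fun _ _ => by positivity)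
  have hkey : T ^ (2 * k * l) ≤ (DB p K) ^ (2 * k * l) := by
    refine hmain.trans ?_
    have g1 : (∑ q ∈ X, (1 / (q : ℝ))) ^ (2 * k * (l - 1)) ≤ (1 + Real.log p) ^ (2 * k * l) := by
      calc (∑ q ∈ X, (1 / (q : ℝ))) ^ (2 * k * (l - 1)) ≤ (1 + Real.log p) ^ (2 * k * (l - 1)) :=
            pow_le_pow_left₀ hX0 hX1 _
        _ ≤ (1 + Real.log p) ^ (2 * k * l) := by
            apply pow_le_pow_right₀ (by linarith)
            exact Nat.mul_le_mul_left _ (by omega)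
    have g2 : (∑ q ∈ Y, (1 / (q : ℝ))) ^ (2 * l * (k - 1)) ≤ (1 + Real.log p) ^ (2 * k * l) := by
      calc (∑ q ∈ Y, (1 / (q : ℝ))) ^ (2 * l * (k - 1)) ≤ (1 + Real.log p) ^ (2 * l * (k - 1)) :=
            pow_le_pow_left₀ hY0 hY1 _
        _ ≤ (1 + Real.log p) ^ (2 * l * k) := by
            apply pow_le_pow_right₀ (by linarith)
            exact Nat.mul_le_mul_left _ (by omega)
        _ = (1 + Real.log p) ^ (2 * k * l) := by congr 1; ring
    have g3 : (l.factorial : ℝ) ≤ (K : ℝ) ^ (2 * k * l) := by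
      calc (l.factorial : ℝ) ≤ (l : ℝ) ^ l := by exact_mod_cast Nat.factorial_le_pow l
        _ ≤ (K : ℝ) ^ l := pow_le_pow_left₀ (by positivity) hlK' _
        _ ≤ (K : ℝ) ^ (2 * k * l) := by
            apply pow_le_pow_right₀ hK1
            exact Nat.le_mul_of_pos_left _ (by omega)
    have g4 : (k.factorial : ℝ) ≤ (K : ℝ) ^ (2 * k * l) := by
      calc (k.factorial : ℝ) ≤ (k : ℝ) ^ k := by exact_mod_cast Nat.factorial_le_pow k
        _ ≤ (K : ℝ) ^ k := pow_le_pow_left₀ (by positivity) hkK' _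
        _ ≤ (K : ℝ) ^ (2 * k * l) := by
            apply pow_le_pow_right₀ hK1
            nlinarith
    have g5 := sq_pow_bl hk hX
    have g6 := sq_pow_bl hl hY
    have hp0 : (0 : ℝ) < p := by positivity
    have g7 : (∑ q ∈ Y, (1 / (q : ℝ)) ^ 2) ^ l * (p * (∑ q ∈ X, (1 / (q : ℝ)) ^ 2) ^ k) ≤
        (Real.exp (- (Real.log p / (8 * (K : ℝ) ^ 3)))) ^ (2 * k * l) := by
      calc (∑ q ∈ Y, (1 / (q : ℝ)) ^ 2) ^ l * (p * (∑ q ∈ X, (1 / (q : ℝ)) ^ 2) ^ k) ≤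
          Real.exp (- (Real.log p * (1 / 2 + 1 / (8 * (l : ℝ))))) *
            (Real.exp (Real.log p) * Real.exp (- (Real.log p * (1 / 2 + 1 / (8 * (k : ℝ)))))) := by
            rw [Real.exp_log hp0]
            apply mul_le_mul g6 _ _ (Real.exp_pos _).le
            · exact mul_le_mul_of_nonneg_left g5 hp0.le
            · have : 0 ≤ ∑ q ∈ X, (1 / (q : ℝ)) ^ 2 := sum_nonneg (fun _ _ => by positivity)
              positivity
        _ = Real.exp (- (Real.log p * (1 / (8 * (k : ℝ)) + 1 / (8 * (l : ℝ))))) := by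
            rw [← Real.exp_add, ← Real.exp_add]
            congr 1
            ring
        _ ≤ Real.exp (((2 * k * l : ℕ) : ℝ) * (- (Real.log p / (8 * (K : ℝ) ^ 3)))) := by
            apply Real.exp_le_exp.2
            have e : ((2 * k * l : ℕ) : ℝ) * (- (Real.log p / (8 * (K : ℝ) ^ 3))) =
                - (Real.log p * ((2 * k * l) / (8 * (K : ℝ) ^ 3))) := by
              push_cast; ring
            rw [e, neg_le_neg_iff]
            apply mul_le_mul_of_nonneg_left _ hL0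
            have hk0 : (0 : ℝ) < k := by linarith
            have hl0 : (0 : ℝ) < l := by linarith
            have e2 : 1 / (8 * (k : ℝ)) + 1 / (8 * (l : ℝ)) = (k + l) / (8 * (k * l)) := by
              field_simp
              ring
            rw [e2, div_le_div_iff₀ (by positivity) (by positivity)]
            have f1 : (k : ℝ) * l ^ 2 ≤ (K : ℝ) ^ 3 := by
              calc (k : ℝ) * l ^ 2 ≤ K * (K : ℝ) ^ 2 := by gcongr
                _ = (K : ℝ) ^ 3 := by ring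
            have f2 : (l : ℝ) * k ^ 2 ≤ (K : ℝ) ^ 3 := by
              calc (l : ℝ) * k ^ 2 ≤ K * (K : ℝ) ^ 2 := by gcongr
                _ = (K : ℝ) ^ 3 := by ring
            have f3 := mul_le_mul_of_nonneg_left f1 hk0.le
            have f4 := mul_le_mul_of_nonneg_left f2 hl0.le
            nlinarith
        _ = _ := by rw [Real.exp_nat_mul]
    have hY2 : 0 ≤ (∑ q ∈ Y, (1 / (q : ℝ)) ^ 2) ^ l :=
      pow_nonneg (sum_nonneg (fun _ _ => by positivity)) _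
    have hX2 : 0 ≤ (∑ q ∈ X, (1 / (q : ℝ)) ^ 2) ^ k :=
      pow_nonneg (sum_nonneg (fun _ _ => by positivity)) _
    calc (∑ q ∈ X, (1 / (q : ℝ))) ^ (2 * k * (l - 1)) *
        (∑ q ∈ Y, (1 / (q : ℝ))) ^ (2 * l * (k - 1)) *
        (((l.factorial : ℝ) * (∑ q ∈ Y, (1 / (q : ℝ)) ^ 2) ^ l) *
          (p * ((k.factorial : ℝ) * (∑ q ∈ X, (1 / (q : ℝ)) ^ 2) ^ k)))
        = ((∑ q ∈ X, (1 / (q : ℝ))) ^ (2 * k * (l - 1)) *
          (∑ q ∈ Y, (1 / (q : ℝ))) ^ (2 * l * (k - 1))) *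
          (((l.factorial : ℝ) * (k.factorial : ℝ)) *
          ((∑ q ∈ Y, (1 / (q : ℝ)) ^ 2) ^ l * (p * (∑ q ∈ X, (1 / (q : ℝ)) ^ 2) ^ k))) := by
            ring
      _ ≤ ((1 + Real.log p) ^ (2 * k * l) * (1 + Real.log p) ^ (2 * k * l)) *
          (((K : ℝ) ^ (2 * k * l) * (K : ℝ) ^ (2 * k * l)) *
          (Real.exp (- (Real.log p / (8 * (K : ℝ) ^ 3)))) ^ (2 * k * l)) := by
            gcongr
      _ = (DB p K) ^ (2 * k * l) := by
            rw [DB, mul_pow, mul_pow, ← pow_mul, ← pow_mul]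
            ring
  have hkl : 2 * k * l ≠ 0 := by positivity
  exact le_of_pow_le_pow_left₀ hkl (DB_nonneg p K) hkey

/-- bilinear sums of signs -/
theorem bil_Phi {k l K : ℕ} (hk : 1 ≤ k) (hkK : k ≤ K) (hl : 1 ≤ l) (hlK : l ≤ K) (hodd : Odd p)
    (hL : 80 * (K : ℝ) ^ 2 ≤ Real.log p) {X Y : Finset ℕ} (hX : X ⊆ bl p k) (hY : Y ⊆ bl p l)
    {b : ZMod p} (hb : b ≠ 0) :
    |∑ q ∈ X, ∑ q' ∈ Y, (1 / (q : ℝ)) * (1 / (q' : ℝ)) *
      Phi (b * (q : ZMod p)⁻¹ * (q' : ZMod p)⁻¹)| ≤ 2 * (1 + Real.log p) * DB p K := by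
  have hp : 1 < p := (Fact.out : p.Prime).one_lt
  have hk1 : (1 : ℝ) ≤ k := by exact_mod_cast hk
  have hl1 : (1 : ℝ) ≤ l := by exact_mod_cast hl
  have hkK' : (k : ℝ) ≤ K := by exact_mod_cast hkK
  have hlK' : (l : ℝ) ≤ K := by exact_mod_cast hlK
  have hLk : 80 * (k : ℝ) ^ 2 ≤ Real.log p := by
    refine le_trans ?_ hL
    gcongr
  have hLl : 80 * (l : ℝ) ^ 2 ≤ Real.log p := by
    refine le_trans ?_ hL
    gcongr
  have hA := adm_bl (by omega) hk hLk hX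
  have hC := adm_bl (by omega) hl hLl hY
  have hcast : ∀ {Z : Finset ℕ} {j : ℕ}, Adm p Z j (Bk p j) → ∀ q ∈ Z, (q : ZMod p) ≠ 0 := by
    intro Z j hZ q hq h
    rw [ZMod.natCast_eq_zero_iff] at h
    have h1 := Nat.le_of_dvd (hZ.prime q hq).pos h
    have h2 := hZ.le q hq
    have h3 := hZ.Blt
    omega
  have hprod : ∑ q ∈ X, ∑ q' ∈ Y, (1 / (q : ℝ)) * (1 / (q' : ℝ)) *
      Phi (b * (q : ZMod p)⁻¹ * (q' : ZMod p)⁻¹) =
      ∑ s ∈ X ×ˢ Y, ((1 / (s.1 : ℝ)) * (1 / (s.2 : ℝ))) *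
        Phi (b * (s.1 : ZMod p)⁻¹ * (s.2 : ZMod p)⁻¹) := by
    rw [Finset.sum_product]
  rw [hprod]
  apply lin_bound_unif hodd
  · intro s hs
    rw [mem_product] at hs
    have h1 := hcast hA _ hs.1
    have h2 := hcast hC _ hs.2
    exact mul_ne_zero (mul_ne_zero hb (inv_ne_zero h1)) (inv_ne_zero h2)
  · intro a ha
    have hab : a * b ≠ 0 := mul_ne_zero ha hb
    have h1 := bil_block hk hkK hl hlK hL hX hY hab
    refine le_trans ?_ h1
    rw [Finset.sum_product]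
    calc ‖∑ q ∈ X, ∑ q' ∈ Y, (((1 / (q : ℝ)) * (1 / (q' : ℝ)) : ℝ) : ℂ) *
          ZMod.stdAddChar (a * (b * (q : ZMod p)⁻¹ * (q' : ZMod p)⁻¹))‖
        ≤ ∑ q ∈ X, ‖∑ q' ∈ Y, (((1 / (q : ℝ)) * (1 / (q' : ℝ)) : ℝ) : ℂ) *
          ZMod.stdAddChar (a * (b * (q : ZMod p)⁻¹ * (q' : ZMod p)⁻¹))‖ := norm_sum_le _ _
      _ = _ := by
          apply sum_congr rfl
          intro q _
          have e : ∑ q' ∈ Y, (((1 / (q : ℝ)) * (1 / (q' : ℝ)) : ℝ) : ℂ) *
              ZMod.stdAddChar (a * (b * (q : ZMod p)⁻¹ * (q' : ZMod p)⁻¹)) =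
              ((1 / (q : ℝ) : ℝ) : ℂ) * ∑ q' ∈ Y, ((1 / (q' : ℝ) : ℝ) : ℂ) *
              ZMod.stdAddChar (a * b * (q : ZMod p)⁻¹ * (q' : ZMod p)⁻¹) := by
            rw [mul_sum]
            apply sum_congr rfl
            intro q' _
            have e2 : a * (b * (q : ZMod p)⁻¹ * (q' : ZMod p)⁻¹) =
                a * b * (q : ZMod p)⁻¹ * (q' : ZMod p)⁻¹ := by ring
            rw [e2]
            push_cast
            ring
          rw [e, norm_mul, Complex.norm_real, Real.norm_of_nonneg (by positivity)]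

end Pool.Agent.Helper42
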