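import Mathlib
import Pool.Agent.Helper42.Count

open Finset

namespace Pool.Agent.Helper42

/-- primes of `Q` which may be the smallest prime of `Q` dividing a multiple of `v` -/
def QV (Q : Finset ℕ) (v : ℕ) : Finset ℕ := Q.filter (fun q => ∀ q' ∈ Q, q' ∣ v → q ≤ q')

/-- triples `(v, q1, q2)` -/
def TT (Q1 Q2 : Finset ℕ) (x : ℕ) : Finset (ℕ × ℕ × ℕ) :=
  ((Icc 1 x) ×ˢ Q1 ×ˢ Q2).filter (fun t => Odd t.1 ∧ t.2.1 ∈ QV Q1 t.1 ∧ t.2.2 ∈ QV Q2 t.1 ∧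
    t.2.1 * t.2.2 * t.1 ≤ x)

/-- the product of a triple -/
def pr3 (t : ℕ × ℕ × ℕ) : ℕ := t.2.1 * t.2.2 * t.1

lemma min_of_QV {Q Q' : Finset ℕ} (hQ : ∀ q ∈ Q, q.Prime) (hQ' : ∀ q ∈ Q', q.Prime)
    (hd : Disjoint Q Q') {v q1 q2 : ℕ} (h1 : q1 ∈ QV Q v) (h2 : q2 ∈ Q') :
    ∀ q ∈ Q, q ∣ q1 * q2 * v → q1 ≤ q := by
  intro q hq hdvd
  have h1' := h1
  rw [QV, mem_filter] at h1'
  rcases (hQ q hq).dvd_mul.1 hdvd with h | h
  · rcases (hQ q hq).dvd_mul.1 h with h | h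
    · exact ((Nat.prime_dvd_prime_iff_eq (hQ q hq) (hQ _ h1'.1)).1 h).ge
    · have := (Nat.prime_dvd_prime_iff_eq (hQ q hq) (hQ' _ h2)).1 h
      exact absurd hq (by rw [this]; exact fun h => (Finset.disjoint_left.1 hd h) h2)
  · exact h1'.2 q hq h

lemma pr3_inj {Q1 Q2 : Finset ℕ} (h1 : ∀ q ∈ Q1, q.Prime) (h2 : ∀ q ∈ Q2, q.Prime)
    (hd : Disjoint Q1 Q2) (x : ℕ) : Set.InjOn pr3 (TT Q1 Q2 x : Set (ℕ × ℕ × ℕ)) := by
  rintro ⟨v, q1, q2⟩ ht ⟨v', q1', q2'⟩ ht' heq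
  simp only [TT, coe_filter, mem_product, mem_Icc, Set.mem_ofPred_eq] at ht ht'
  simp only [pr3] at heq
  obtain ⟨⟨⟨hv1, hv2⟩, hq1, hq2⟩, hodd, hQ1, hQ2, hle⟩ := ht
  obtain ⟨⟨⟨hv1', hv2'⟩, hq1', hq2'⟩, hodd', hQ1', hQ2', hle'⟩ := ht'
  have e1 : q1 = q1' := by
    apply le_antisymm
    · apply min_of_QV h1 h2 hd hQ1 hq2 q1' hq1'
      rw [heq]; exact ⟨q2' * v', by ring⟩
    · apply min_of_QV h1 h2 hd hQ1' hq2' q1 hq1
      rw [← heq]; exact ⟨q2 * v, by ring⟩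
  have e2 : q2 = q2' := by
    apply le_antisymm
    · have := min_of_QV h2 h1 hd.symm hQ2 hq1 q2' hq2'
      apply this
      rw [mul_comm q2 q1, heq]; exact ⟨q1' * v', by ring⟩
    · have := min_of_QV h2 h1 hd.symm hQ2' hq1' q2 hq2
      apply this
      rw [mul_comm q2' q1', ← heq]; exact ⟨q1 * v, by ring⟩
  subst e1 e2
  have hpos : 0 < q1 * q2 := Nat.mul_pos (h1 _ hq1).pos (h2 _ hq2).pos
  have e3 := Nat.eq_of_mul_eq_mul_left hpos heq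
  subst e3
  rfl

lemma pr3_mem {Q1 Q2 : Finset ℕ} (h1 : ∀ q ∈ Q1, q.Prime ∧ Odd q) (h2 : ∀ q ∈ Q2, q.Prime ∧ Odd q)
    {x : ℕ} {t : ℕ × ℕ × ℕ} (ht : t ∈ TT Q1 Q2 x) : pr3 t ∈ (Icc 1 x).filter Odd := by
  obtain ⟨v, q1, q2⟩ := t
  simp only [TT, mem_filter, mem_product, mem_Icc] at ht
  obtain ⟨⟨⟨hv1, hv2⟩, hq1, hq2⟩, hodd, hQ1, hQ2, hle⟩ := ht
  simp only [pr3, mem_filter, mem_Icc]
  refine ⟨⟨?_, hle⟩, ?_⟩
  · exact Nat.mul_pos (Nat.mul_pos (h1 _ hq1).1.pos (h2 _ hq2).1.pos) hv1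
  · exact ((h1 _ hq1).2.mul (h2 _ hq2).2).mul hodd

/-- every good number comes from a triple -/
lemma exists_triple {Q1 Q2 : Finset ℕ} (h1 : ∀ q ∈ Q1, q.Prime) (h2 : ∀ q ∈ Q2, q.Prime)
    (hd : Disjoint Q1 Q2) {x m : ℕ} (hm : m ∈ (Icc 1 x).filter Odd)
    (hg1 : ∃ q ∈ Q1, q ∣ m) (hg2 : ∃ q ∈ Q2, q ∣ m) : ∃ t ∈ TT Q1 Q2 x, pr3 t = m := by
  classical
  rw [mem_filter, mem_Icc] at hm
  obtain ⟨⟨hm1, hmx⟩, hodd⟩ := hm
  have n1 : (Q1.filter (fun q => q ∣ m)).Nonempty := by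
    obtain ⟨q, hq, hqm⟩ := hg1
    exact ⟨q, mem_filter.2 ⟨hq, hqm⟩⟩
  have n2 : (Q2.filter (fun q => q ∣ m)).Nonempty := by
    obtain ⟨q, hq, hqm⟩ := hg2
    exact ⟨q, mem_filter.2 ⟨hq, hqm⟩⟩
  obtain ⟨q1, hq1, hmin1⟩ := Finset.exists_min_image _ (fun q => q) n1
  obtain ⟨q2, hq2, hmin2⟩ := Finset.exists_min_image _ (fun q => q) n2
  rw [mem_filter] at hq1 hq2
  have hne : q1 ≠ q2 := by
    intro h
    exact (Finset.disjoint_left.1 hd hq1.1) (h ▸ hq2.1)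
  have hcop : Nat.Coprime q1 q2 := (Nat.coprime_primes (h1 _ hq1.1) (h2 _ hq2.1)).2 hne
  have hdvd : q1 * q2 ∣ m := hcop.mul_dvd_of_dvd_of_dvd hq1.2 hq2.2
  obtain ⟨v, hv⟩ := hdvd
  have hv1 : 1 ≤ v := by
    rcases Nat.eq_zero_or_pos v with h | h
    · rw [h, mul_zero] at hv; omega
    · exact h
  have hpos : 0 < q1 * q2 := Nat.mul_pos (h1 _ hq1.1).pos (h2 _ hq2.1).pos
  refine ⟨(v, q1, q2), ?_, hv.symm⟩
  simp only [TT, mem_filter, mem_product, mem_Icc]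
  refine ⟨⟨⟨hv1, ?_⟩, hq1.1, hq2.1⟩, ?_, ?_, ?_, ?_⟩
  · calc v = 1 * v := (one_mul v).symm
      _ ≤ q1 * q2 * v := Nat.mul_le_mul_right v hpos
      _ ≤ x := by rw [← hv]; exact hmx
  · rw [hv] at hodd
    exact (Nat.odd_mul.1 hodd).2
  · rw [QV, mem_filter]
    refine ⟨hq1.1, fun q hq hqv => hmin1 q (mem_filter.2 ⟨hq, ?_⟩)⟩
    rw [hv]; exact Dvd.dvd.mul_left hqv _
  · rw [QV, mem_filter]
    refine ⟨hq2.1, fun q hq hqv => hmin2 q (mem_filter.2 ⟨hq, ?_⟩)⟩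
    rw [hv]; exact Dvd.dvd.mul_left hqv _
  · rw [← hv]; exact hmx

lemma sum_Ioc_inv_le (W : ℕ) : ∀ n : ℕ,
    ∑ m ∈ Ioc W (W + 1 + n), (1 / (m : ℝ)) ≤ 1 / ((W : ℝ) + 1) + Real.log ((W + 1 + n : ℕ) : ℝ) -
      Real.log ((W + 1 : ℕ) : ℝ) := by
  intro n
  induction n with
  | zero =>
    simp
  | succ n ih =>
    have e : W + 1 + (n + 1) = (W + 1 + n) + 1 := by ring
    rw [e, Finset.sum_Ioc_succ_top (by omega)]
    have h1 : 1 / (((W + 1 + n) + 1 : ℕ) : ℝ) ≤ Real.log (((W + 1 + n) + 1 : ℕ) : ℝ) -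
        Real.log ((W + 1 + n : ℕ) : ℝ) := by
      have hpos : (0 : ℝ) < ((W + 1 + n : ℕ) : ℝ) := by positivity
      have hpos' : (0 : ℝ) < (((W + 1 + n) + 1 : ℕ) : ℝ) := by positivity
      have h2 := Real.log_le_sub_one_of_pos (div_pos hpos hpos')
      rw [Real.log_div hpos.ne' hpos'.ne'] at h2
      have h3 : ((W + 1 + n : ℕ) : ℝ) / (((W + 1 + n) + 1 : ℕ) : ℝ) - 1 =
          - (1 / (((W + 1 + n) + 1 : ℕ) : ℝ)) := by
        field_simp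
        push_cast
        ring
      rw [h3] at h2
      linarith
    linarith

lemma sum_Ioc_inv_le' {W x Q : ℕ} (hQ : 1 ≤ Q) (hW : x < (W + 1) * Q) :
    ∑ m ∈ Ioc W x, (1 / (m : ℝ)) ≤ 1 + Real.log Q := by
  have hlogQ : 0 ≤ Real.log Q := Real.log_natCast_nonneg Q
  rcases Nat.lt_or_ge W x with h | h
  · obtain ⟨n, rfl⟩ : ∃ n, x = W + 1 + n := ⟨x - (W + 1), by omega⟩
    have h1 := sum_Ioc_inv_le W n
    have h2 : 1 / ((W : ℝ) + 1) ≤ 1 := by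
      rw [div_le_one (by positivity)]
      have : (0 : ℝ) ≤ W := by positivity
      linarith
    have h3 : Real.log ((W + 1 + n : ℕ) : ℝ) ≤ Real.log ((W + 1 : ℕ) : ℝ) + Real.log Q := by
      rw [← Real.log_mul (by positivity) (by positivity)]
      apply Real.log_le_log (by positivity)
      exact_mod_cast hW.le
    linarith
  · rw [Finset.Ioc_eq_empty (by omega)]
    simp
    linarith

/-- the decomposition of sums over odd numbers -/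
theorem decomp {Q1 Q2 : Finset ℕ} (h1 : ∀ q ∈ Q1, q.Prime ∧ Odd q) (h2 : ∀ q ∈ Q2, q.Prime ∧ Odd q)
    (hd : Disjoint Q1 Q2) {Qm : ℕ} (hQm : 1 ≤ Qm) (hQ1 : ∀ q ∈ Q1, q ≤ Qm) (hQ2 : ∀ q ∈ Q2, q ≤ Qm)
    (x : ℕ) (f : ℕ → ℝ) (hf : ∀ m, 1 ≤ m → m ≤ x → |f m| ≤ 1 / (m : ℝ)) :
    |∑ m ∈ (Icc 1 x).filter Odd, f m| ≤
      ∑ m ∈ (Icc 1 x).filter (fun m => ∀ q ∈ Q1, ¬ q ∣ m), (1 / (m : ℝ)) +
      ∑ m ∈ (Icc 1 x).filter (fun m => ∀ q ∈ Q2, ¬ q ∣ m), (1 / (m : ℝ)) +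
      (1 + 2 * Real.log Qm) +
      ∑ v ∈ (Icc 1 (x / Qm ^ 2)).filter Odd,
        |∑ q1 ∈ QV Q1 v, ∑ q2 ∈ QV Q2 v, f (q1 * q2 * v)| := by
  classical
  have p1 : ∀ q ∈ Q1, q.Prime := fun q hq => (h1 q hq).1
  have p2 : ∀ q ∈ Q2, q.Prime := fun q hq => (h2 q hq).1
  set W := x / Qm ^ 2 with hW
  set Mx := (Icc 1 x).filter Odd with hMx
  set Im := (TT Q1 Q2 x).image pr3 with hIm
  have hImM : Im ⊆ Mx := by
    intro m hm
    rw [hIm, mem_image] at hm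
    obtain ⟨t, ht, rfl⟩ := hm
    exact pr3_mem h1 h2 ht
  rw [← Finset.sum_sdiff hImM]
  have hbad : |∑ m ∈ Mx \ Im, f m| ≤
      ∑ m ∈ (Icc 1 x).filter (fun m => ∀ q ∈ Q1, ¬ q ∣ m), (1 / (m : ℝ)) +
      ∑ m ∈ (Icc 1 x).filter (fun m => ∀ q ∈ Q2, ¬ q ∣ m), (1 / (m : ℝ)) := by
    have hsub : Mx \ Im ⊆ (Icc 1 x).filter (fun m => ∀ q ∈ Q1, ¬ q ∣ m) ∪
        (Icc 1 x).filter (fun m => ∀ q ∈ Q2, ¬ q ∣ m) := by
      intro m hm
      rw [mem_sdiff] at hm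
      obtain ⟨hmM, hmI⟩ := hm
      have hmM' := hmM
      rw [hMx, mem_filter] at hmM'
      by_contra hcon
      rw [mem_union, not_or, mem_filter, mem_filter] at hcon
      push Not at hcon
      obtain ⟨c1, c2⟩ := hcon
      obtain ⟨q1, hq1, hq1m⟩ := c1 hmM'.1
      obtain ⟨q2, hq2, hq2m⟩ := c2 hmM'.1
      obtain ⟨t, ht, htm⟩ := exists_triple p1 p2 hd hmM ⟨q1, hq1, hq1m⟩ ⟨q2, hq2, hq2m⟩
      exact hmI (by rw [hIm, mem_image]; exact ⟨t, ht, htm⟩)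
    calc |∑ m ∈ Mx \ Im, f m| ≤ ∑ m ∈ Mx \ Im, |f m| := Finset.abs_sum_le_sum_abs _ _
      _ ≤ ∑ m ∈ Mx \ Im, 1 / (m : ℝ) := by
          apply sum_le_sum
          intro m hm
          rw [mem_sdiff, hMx, mem_filter, mem_Icc] at hm
          exact hf m hm.1.1.1 hm.1.1.2
      _ ≤ ∑ m ∈ (Icc 1 x).filter (fun m => ∀ q ∈ Q1, ¬ q ∣ m) ∪
        (Icc 1 x).filter (fun m => ∀ q ∈ Q2, ¬ q ∣ m), 1 / (m : ℝ) :=
          sum_le_sum_of_subset_of_nonneg hsub (fun _ _ _ => by positivity)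
      _ ≤ _ := by
          rw [← Finset.sum_union_inter]
          exact le_add_of_nonneg_right (sum_nonneg (fun _ _ => by positivity))
  have hinj := pr3_inj p1 p2 hd x
  have himg : ∑ m ∈ Im, f m = ∑ t ∈ TT Q1 Q2 x, f (pr3 t) := by
    rw [hIm, Finset.sum_image hinj]
  have hsplit : ∑ t ∈ TT Q1 Q2 x, f (pr3 t) =
      ∑ t ∈ (TT Q1 Q2 x).filter (fun t => t.1 ≤ W), f (pr3 t) +
      ∑ t ∈ (TT Q1 Q2 x).filter (fun t => ¬ t.1 ≤ W), f (pr3 t) :=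
    (Finset.sum_filter_add_sum_filter_not _ _ _).symm
  have hbig : |∑ t ∈ (TT Q1 Q2 x).filter (fun t => ¬ t.1 ≤ W), f (pr3 t)| ≤
      1 + 2 * Real.log Qm := by
    have hinj' : Set.InjOn pr3 ((TT Q1 Q2 x).filter (fun t => ¬ t.1 ≤ W) : Set (ℕ × ℕ × ℕ)) :=
      hinj.mono (by
        intro t ht
        rw [mem_coe, mem_filter] at ht
        exact ht.1)
    calc |∑ t ∈ (TT Q1 Q2 x).filter (fun t => ¬ t.1 ≤ W), f (pr3 t)|
        ≤ ∑ t ∈ (TT Q1 Q2 x).filter (fun t => ¬ t.1 ≤ W), |f (pr3 t)| :=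
          Finset.abs_sum_le_sum_abs _ _
      _ ≤ ∑ t ∈ (TT Q1 Q2 x).filter (fun t => ¬ t.1 ≤ W), 1 / ((pr3 t : ℕ) : ℝ) := by
          apply sum_le_sum
          intro t ht
          rw [mem_filter] at ht
          have := pr3_mem h1 h2 ht.1
          rw [mem_filter, mem_Icc] at this
          exact hf _ this.1.1 this.1.2
      _ = ∑ m ∈ ((TT Q1 Q2 x).filter (fun t => ¬ t.1 ≤ W)).image pr3, 1 / (m : ℝ) := by
          rw [Finset.sum_image hinj']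
      _ ≤ ∑ m ∈ Ioc W x, 1 / (m : ℝ) := by
          apply sum_le_sum_of_subset_of_nonneg _ (fun _ _ _ => by positivity)
          intro m hm
          rw [mem_image] at hm
          obtain ⟨t, ht, rfl⟩ := hm
          rw [mem_filter] at ht
          have hmem := pr3_mem h1 h2 ht.1
          rw [mem_filter, mem_Icc] at hmem
          rw [mem_Ioc]
          refine ⟨?_, hmem.1.2⟩
          have hT := ht.1
          simp only [TT, mem_filter, mem_product, mem_Icc] at hT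
          have hpos : 0 < t.2.1 * t.2.2 :=
            Nat.mul_pos (p1 _ hT.1.2.1).pos (p2 _ hT.1.2.2).pos
          have : t.1 ≤ pr3 t := by
            rw [pr3]
            exact Nat.le_mul_of_pos_left _ hpos
          omega
      _ ≤ 1 + Real.log ((Qm ^ 2 : ℕ) : ℝ) := by
          apply sum_Ioc_inv_le' (Nat.one_le_pow _ _ hQm)
          rw [hW]
          have := Nat.lt_mul_div_succ x (Nat.pow_pos (n := 2) (Nat.lt_of_lt_of_le Nat.zero_lt_one hQm))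
          rw [mul_comm]
          exact this
      _ = 1 + 2 * Real.log Qm := by
          push_cast
          rw [Real.log_pow]
          norm_num
  have hsmall : ∑ t ∈ (TT Q1 Q2 x).filter (fun t => t.1 ≤ W), f (pr3 t) =
      ∑ v ∈ (Icc 1 W).filter Odd, ∑ q1 ∈ QV Q1 v, ∑ q2 ∈ QV Q2 v, f (q1 * q2 * v) := by
    have hE : (TT Q1 Q2 x).filter (fun t => t.1 ≤ W) =
        ((Icc 1 W).filter Odd ×ˢ Q1 ×ˢ Q2).filter (fun t => t.2.1 ∈ QV Q1 t.1 ∧ t.2.2 ∈ QV Q2 t.1) := by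
      ext ⟨v, q1, q2⟩
      simp only [TT, mem_filter, mem_product, mem_Icc]
      constructor
      · rintro ⟨⟨⟨⟨a1, a2⟩, a3, a4⟩, a5, a6, a7, a8⟩, a9⟩
        exact ⟨⟨⟨⟨a1, a9⟩, a5⟩, a3, a4⟩, a6, a7⟩
      · rintro ⟨⟨⟨⟨a1, a9⟩, a5⟩, a3, a4⟩, a6, a7⟩
        have hle : q1 * q2 * v ≤ x := by
          calc q1 * q2 * v ≤ Qm * Qm * W := by
                exact Nat.mul_le_mul (Nat.mul_le_mul (hQ1 _ a3) (hQ2 _ a4)) a9
            _ = Qm ^ 2 * (x / Qm ^ 2) := by rw [hW]; ring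
            _ ≤ x := Nat.mul_div_le _ _
        have hvx : v ≤ x := a9.trans (Nat.div_le_self _ _)
        exact ⟨⟨⟨⟨a1, hvx⟩, a3, a4⟩, a5, a6, a7, hle⟩, a9⟩
    rw [hE, Finset.sum_filter, Finset.sum_product]
    apply sum_congr rfl
    intro v _
    rw [Finset.sum_product]
    have e1 : ∑ q1 ∈ QV Q1 v, ∑ q2 ∈ QV Q2 v, f (q1 * q2 * v) =
        ∑ q1 ∈ Q1, if q1 ∈ QV Q1 v then ∑ q2 ∈ QV Q2 v, f (q1 * q2 * v) else 0 := by
      rw [← Finset.sum_filter]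
      apply sum_congr _ (fun _ _ => rfl)
      ext q
      rw [mem_filter]
      exact ⟨fun h => ⟨(mem_filter.1 h).1, h⟩, fun h => h.2⟩
    rw [e1]
    apply sum_congr rfl
    intro q1 _
    have e2 : ∑ q2 ∈ QV Q2 v, f (q1 * q2 * v) =
        ∑ q2 ∈ Q2, if q2 ∈ QV Q2 v then f (q1 * q2 * v) else 0 := by
      rw [← Finset.sum_filter]
      apply sum_congr _ (fun _ _ => rfl)
      ext q
      rw [mem_filter]
      exact ⟨fun h => ⟨(mem_filter.1 h).1, h⟩, fun h => h.2⟩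
    rw [e2]
    split_ifs with h
    · apply sum_congr rfl
      intro q2 _
      simp only [pr3]
      by_cases h' : q2 ∈ QV Q2 v
      · simp [h, h']
      · simp [h']
    · apply sum_eq_zero
      intro q2 _
      simp [h]
  have hsmall' : |∑ t ∈ (TT Q1 Q2 x).filter (fun t => t.1 ≤ W), f (pr3 t)| ≤
      ∑ v ∈ (Icc 1 W).filter Odd,
        |∑ q1 ∈ QV Q1 v, ∑ q2 ∈ QV Q2 v, f (q1 * q2 * v)| := by
    rw [hsmall]
    exact Finset.abs_sum_le_sum_abs _ _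
  rw [himg, hsplit]
  calc _ ≤ |∑ m ∈ Mx \ Im, f m| + |∑ t ∈ (TT Q1 Q2 x).filter (fun t => t.1 ≤ W), f (pr3 t) +
      ∑ t ∈ (TT Q1 Q2 x).filter (fun t => ¬ t.1 ≤ W), f (pr3 t)| := abs_add_le _ _
    _ ≤ |∑ m ∈ Mx \ Im, f m| + (|∑ t ∈ (TT Q1 Q2 x).filter (fun t => t.1 ≤ W), f (pr3 t)| +
      |∑ t ∈ (TT Q1 Q2 x).filter (fun t => ¬ t.1 ≤ W), f (pr3 t)|) := by
        gcongr
        exact abs_add_le _ _
    _ ≤ _ := by linarith

end Pool.Agent.Helper42
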