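import Pool.Agent.Helper42.Chars

open Finset

namespace Pool.Agent.Helper42

variable {p : ℕ} [Fact p.Prime]

/-- odd `m < p`, larger than `R`, with at most `J` prime factors -/
def MM (p R J : ℕ) : Finset ℕ := (H p).filter (fun m => R < m ∧ m.primeFactors.card ≤ J)

/-- bound for the number of divisors with few prime factors -/
def ZZ (p J : ℕ) : ℕ := ((Nat.log 2 (p ^ 2) + 1) ^ 2) ^ J

/-- partial sums of signs -/
noncomputable def PS (p : ℕ) (m i : ℕ) : ℝ :=
  ∑ s ∈ range i, Phi (((2 * s + 1 : ℕ) : ZMod p) * (m : ZMod p)⁻¹)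

lemma PS_le (hp : Odd p) {m i : ℕ} (hm : m ∈ H p) (hi : 2 * i ≤ p) :
    |PS p m i| ≤ (2 / p) * ∑ n ∈ H p, cc p n *
      min (i : ℝ) (p / (2 * |(((n : ZMod p) * (m : ZMod p)⁻¹).valMinAbs : ℝ)|)) := by
  have hpos : 0 < p := (Fact.out : p.Prime).pos
  have hm0 : (m : ZMod p) ≠ 0 := cast_H_ne_zero hm
  have h2ne : (2 : ZMod p) ≠ 0 := by
    intro h
    have : ((2 : ℕ) : ZMod p) = 0 := by exact_mod_cast h
    rw [ZMod.natCast_eq_zero_iff] at this
    have := Nat.le_of_dvd (by norm_num) this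
    have := (Fact.out : p.Prime).two_le
    have : p = 2 := by omega
    rw [this] at hp
    exact absurd hp (by decide)
  have h1 := lin_bound hp (range i) (fun _ => 1)
    (fun s => (((2 * s + 1 : ℕ) : ZMod p) * (m : ZMod p)⁻¹)) (by
      intro s hs
      rw [mem_range] at hs
      apply mul_ne_zero _ (inv_ne_zero hm0)
      apply cast_H_ne_zero
      rw [mem_H]
      refine ⟨?_, ⟨s, rfl⟩⟩
      obtain ⟨N, hN⟩ := hp
      omega)
  simp only [one_mul] at h1
  refine h1.trans ?_
  apply mul_le_mul_of_nonneg_left _ (by positivity)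
  apply sum_le_sum
  intro n hn
  have hn' := mem_H.mp hn
  apply mul_le_mul_of_nonneg_left _ (cc_nonneg hn'.2.pos hn'.1.le)
  have hb : (n : ZMod p) * (m : ZMod p)⁻¹ ≠ 0 :=
    mul_ne_zero (cast_H_ne_zero hn) (inv_ne_zero hm0)
  have h3 := geom_bound (b := (n : ZMod p) * (m : ZMod p)⁻¹)
    (c := (2 : ZMod p)⁻¹ * (n : ZMod p) * (m : ZMod p)⁻¹) hb i
  have e : ∑ s ∈ range i, ((1 : ℝ) : ℂ) * ZMod.stdAddChar ((2 : ZMod p)⁻¹ * (n : ZMod p) *
      (((2 * s + 1 : ℕ) : ZMod p) * (m : ZMod p)⁻¹)) =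
      ∑ s ∈ range i, (ZMod.stdAddChar ((2 : ZMod p)⁻¹ * (n : ZMod p) * (m : ZMod p)⁻¹ +
        (s : ZMod p) * ((n : ZMod p) * (m : ZMod p)⁻¹)) : ℂ) := by
    apply sum_congr rfl
    intro s _
    rw [Complex.ofReal_one, one_mul]
    congr 1
    push_cast
    have : (2 : ZMod p)⁻¹ * (n : ZMod p) * ((2 * (s : ZMod p) + 1) * (m : ZMod p)⁻¹) =
      (2 : ZMod p)⁻¹ * (n : ZMod p) * (m : ZMod p)⁻¹ +
      ((2 : ZMod p)⁻¹ * 2) * ((s : ZMod p) * ((n : ZMod p) * (m : ZMod p)⁻¹)) := by ring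
    rw [this, inv_mul_cancel₀ h2ne, one_mul]
  rw [e]
  exact h3

/-- the number attached to the pair `(n, m)` -/
def NN (p n m : ℕ) : ℕ := ((n : ZMod p) * (m : ZMod p)⁻¹).valMinAbs.natAbs * m

lemma NN_mod {n m : ℕ} (hn : n ∈ H p) (hm : m ∈ H p) :
    NN p n m % p = n ∨ NN p n m % p = p - n := by
  have hm0 : (m : ZMod p) ≠ 0 := cast_H_ne_zero hm
  have hn' := mem_H.mp hn
  have hnpos := hn'.2.pos
  set b := ((n : ZMod p) * (m : ZMod p)⁻¹).valMinAbs with hb
  have hbm : ((b : ℤ) : ZMod p) * (m : ZMod p) = n := by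
    rw [hb, ZMod.coe_valMinAbs]; field_simp
  rcases Int.natAbs_eq b with h | h
  · left
    have e : ((NN p n m : ℕ) : ZMod p) = ((n : ℕ) : ZMod p) := by
      rw [NN, ← hb, Nat.cast_mul]
      rw [← hbm]
      congr 1
      exact (Int.cast_natCast (R := ZMod p) b.natAbs).symm.trans
        (congrArg (Int.cast : ℤ → ZMod p) h.symm)
    rw [ZMod.natCast_eq_natCast_iff'] at e
    rw [e, Nat.mod_eq_of_lt hn'.1]
  · right
    have e : ((NN p n m : ℕ) : ZMod p) = ((p - n : ℕ) : ZMod p) := by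
      rw [NN, ← hb, Nat.cast_mul, Nat.cast_sub hn'.1.le, ZMod.natCast_self, zero_sub, ← hbm, ← neg_mul]
      congr 1
      have h' : ((b.natAbs : ℕ) : ℤ) = -b := by omega
      rw [← Int.cast_neg]
      exact (Int.cast_natCast (R := ZMod p) b.natAbs).symm.trans
        (congrArg (Int.cast : ℤ → ZMod p) h')
    rw [ZMod.natCast_eq_natCast_iff'] at e
    rw [e, Nat.mod_eq_of_lt (by omega)]

lemma NN_div_lt {n m : ℕ} (hm : m ∈ H p) : NN p n m / p < p := by
  have hpos : 0 < p := (Fact.out : p.Prime).pos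
  rw [Nat.div_lt_iff_lt_mul hpos, NN]
  have h1 := ZMod.natAbs_valMinAbs_le ((n : ZMod p) * (m : ZMod p)⁻¹)
  have h2 := (mem_H.mp hm).1
  have h3 : p / 2 ≤ p := Nat.div_le_self _ _
  calc _ ≤ p * m := Nat.mul_le_mul_right _ (h1.trans h3)
    _ < p * p := Nat.mul_lt_mul_of_pos_left h2 hpos

lemma fiber_card {n t R J : ℕ} (hn : n ∈ H p) (ht : t < p) :
    ((MM p R J).filter (fun m => NN p n m / p = t)).card ≤ 2 * ZZ p J := by
  have hn' := mem_H.mp hn
  have hnpos := hn'.2.pos
  have hsub : (MM p R J).filter (fun m => NN p n m / p = t) ⊆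
      DJ (p * t + n) J ∪ DJ (p * t + (p - n)) J := by
    intro m hm
    rw [mem_filter, MM, mem_filter] at hm
    obtain ⟨⟨hmH, -, hmJ⟩, hmt⟩ := hm
    have hdiv : m ∣ NN p n m := ⟨_, mul_comm _ _⟩
    have hdm := Nat.div_add_mod (NN p n m) p
    rw [hmt] at hdm
    rw [mem_union]
    rcases NN_mod hn hmH with h | h
    · left
      rw [h] at hdm
      rw [DJ, mem_filter, Nat.mem_divisors, hdm]
      refine ⟨⟨hdiv, ?_⟩, hmJ⟩
      omega
    · right
      rw [h] at hdm
      rw [DJ, mem_filter, Nat.mem_divisors, hdm]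
      refine ⟨⟨hdiv, ?_⟩, hmJ⟩
      omega
  have hle : ∀ a : ℕ, 0 < a → a ≤ p ^ 2 → (DJ a J).card ≤ ZZ p J := by
    intro a ha ha2
    refine (card_DJ (by omega) J).trans ?_
    rw [ZZ]
    apply Nat.pow_le_pow_left
    apply Nat.pow_le_pow_left
    have := Nat.log_mono_right (b := 2) ha2
    omega
  have hmul : p * t + p ≤ p ^ 2 := by nlinarith
  calc _ ≤ _ := card_le_card hsub
    _ ≤ (DJ (p * t + n) J).card + (DJ (p * t + (p - n)) J).card := card_union_le _ _
    _ ≤ ZZ p J + ZZ p J := by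
        apply Nat.add_le_add
        · exact hle _ (by omega) (by omega)
        · exact hle _ (by omega) (by omega)
    _ = _ := by ring

lemma W_le {n i R J : ℕ} (hn : n ∈ H p) (hR : 0 < R) :
    ∑ m ∈ MM p R J, (1 / (m : ℝ)) *
      min (i : ℝ) (p / (2 * |(((n : ZMod p) * (m : ZMod p)⁻¹).valMinAbs : ℝ)|)) ≤
      ZZ p J * (2 * i / R + (1 + Real.log p)) := by
  have hpos : 0 < p := (Fact.out : p.Prime).pos
  have hp0 : (0 : ℝ) < p := by exact_mod_cast hpos
  have hR0 : (0 : ℝ) < R := by exact_mod_cast hR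
  set bd : ℕ → ℝ := fun t => if t = 0 then (i : ℝ) / R else 1 / (2 * t) with hbd
  have hbdnn : ∀ t, 0 ≤ bd t := by
    intro t; rw [hbd]; simp only; split_ifs <;> positivity
  have hterm : ∀ m ∈ MM p R J, (1 / (m : ℝ)) *
      min (i : ℝ) (p / (2 * |(((n : ZMod p) * (m : ZMod p)⁻¹).valMinAbs : ℝ)|)) ≤
      bd (NN p n m / p) := by
    intro m hm
    rw [MM, mem_filter] at hm
    obtain ⟨hmH, hmR, -⟩ := hm
    have hm0' : 0 < m := (mem_H.mp hmH).2.pos
    have hm0 : (0 : ℝ) < m := by exact_mod_cast hm0'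
    have hb : (n : ZMod p) * (m : ZMod p)⁻¹ ≠ 0 :=
      mul_ne_zero (cast_H_ne_zero hn) (inv_ne_zero (cast_H_ne_zero hmH))
    have hv := valMinAbs_pos hb
    rw [hbd]
    simp only
    split_ifs with h
    · calc (1 / (m : ℝ)) * min (i : ℝ) _ ≤ (1 / (R : ℝ)) * i := by
            apply mul_le_mul
            · apply one_div_le_one_div_of_le hR0
              exact_mod_cast hmR.le
            · exact min_le_left _ _
            · apply le_min (by positivity); positivity
            · positivity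
        _ = _ := by ring
    · have h1 : (p : ℝ) * ((NN p n m / p : ℕ) : ℝ) ≤ |(((n : ZMod p) * (m : ZMod p)⁻¹).valMinAbs : ℝ)| * m := by
        have h2 : p * (NN p n m / p) ≤ NN p n m := Nat.mul_div_le _ _
        have h3 : ((NN p n m : ℕ) : ℝ) = |(((n : ZMod p) * (m : ZMod p)⁻¹).valMinAbs : ℝ)| * m := by
          rw [NN, Nat.cast_mul, Nat.cast_natAbs, Int.cast_abs]
        rw [← h3]
        exact_mod_cast h2
      have ht0 : (0 : ℝ) < ((NN p n m / p : ℕ) : ℝ) := by
        exact_mod_cast Nat.pos_of_ne_zero h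
      calc (1 / (m : ℝ)) * min (i : ℝ) (p / (2 * |(((n : ZMod p) * (m : ZMod p)⁻¹).valMinAbs : ℝ)|))
          ≤ (1 / (m : ℝ)) * (p / (2 * |(((n : ZMod p) * (m : ZMod p)⁻¹).valMinAbs : ℝ)|)) := by
            apply mul_le_mul_of_nonneg_left (min_le_right _ _); positivity
        _ = p / (2 * (|(((n : ZMod p) * (m : ZMod p)⁻¹).valMinAbs : ℝ)| * m)) := by
            field_simp
        _ ≤ p / (2 * (p * ((NN p n m / p : ℕ) : ℝ))) := by gcongr
        _ = 1 / (2 * ((NN p n m / p : ℕ) : ℝ)) := by field_simp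
  have hmaps : ∀ m ∈ MM p R J, NN p n m / p ∈ range p := by
    intro m hm
    rw [MM, mem_filter] at hm
    rw [mem_range]
    exact NN_div_lt hm.1
  calc _ ≤ ∑ m ∈ MM p R J, bd (NN p n m / p) := sum_le_sum hterm
    _ = ∑ t ∈ range p, ∑ m ∈ (MM p R J).filter (fun m => NN p n m / p = t), bd (NN p n m / p) :=
        (sum_fiberwise_of_maps_to hmaps _).symm
    _ = ∑ t ∈ range p, (((MM p R J).filter (fun m => NN p n m / p = t)).card : ℝ) * bd t := by
        apply sum_congr rfl
        intro t _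
        rw [← nsmul_eq_mul, ← sum_const]
        apply sum_congr rfl
        intro m hm
        rw [(mem_filter.mp hm).2]
    _ ≤ ∑ t ∈ range p, (2 * (ZZ p J : ℝ)) * bd t := by
        apply sum_le_sum
        intro t ht
        apply mul_le_mul_of_nonneg_right _ (hbdnn t)
        exact_mod_cast fiber_card hn (mem_range.mp ht)
    _ = (2 * (ZZ p J : ℝ)) * ∑ t ∈ range p, bd t := by rw [mul_sum]
    _ ≤ (2 * (ZZ p J : ℝ)) * ((i : ℝ) / R + (1 + Real.log p) / 2) := by
        apply mul_le_mul_of_nonneg_left _ (by positivity)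
        obtain ⟨q, rfl⟩ : ∃ q, p = q + 1 := ⟨p - 1, by omega⟩
        rw [sum_range_succ']
        have e0 : bd 0 = (i : ℝ) / R := by rw [hbd]; simp
        rw [e0, add_comm]
        gcongr
        calc ∑ k ∈ range q, bd (k + 1) = ∑ k ∈ range q, (1 / 2) * (1 / ((k + 1 : ℕ) : ℝ)) := by
              apply sum_congr rfl
              intro k _
              rw [hbd]; simp only
              rw [if_neg (by omega)]
              field_simp
          _ = (1 / 2) * ∑ k ∈ Icc 1 q, (1 / (k : ℝ)) := by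
              rw [← mul_sum]
              congr 1
              rw [range_eq_Ico, sum_Ico_add' (fun k : ℕ => (1 / (k : ℝ))) 0 q 1]
              rfl
          _ ≤ (1 / 2) * (1 + Real.log ((q + 1 : ℕ) : ℝ)) := by
              apply mul_le_mul_of_nonneg_left _ (by norm_num)
              refine (sum_Icc_inv_le q).trans ?_
              rcases Nat.eq_zero_or_pos q with rfl | hq
              · simp
              · have : Real.log q ≤ Real.log ((q + 1 : ℕ) : ℝ) := by
                  apply Real.log_le_log (by exact_mod_cast hq)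
                  push_cast; linarith
                linarith
          _ = _ := by ring
    _ = _ := by ring

/-- first moment of the partial sums -/
theorem sum_PS_le (hp : Odd p) {i R J : ℕ} (hR : 0 < R) (hi : 2 * i ≤ p) :
    ∑ m ∈ MM p R J, (1 / (m : ℝ)) * |PS p m i| ≤
      2 * (1 + Real.log p) * (ZZ p J * (2 * i / R + (1 + Real.log p))) := by
  have hpos : 0 < p := (Fact.out : p.Prime).pos
  have hp0 : (0 : ℝ) < p := by exact_mod_cast hpos
  have hlog : 0 ≤ Real.log p := Real.log_natCast_nonneg p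
  calc ∑ m ∈ MM p R J, (1 / (m : ℝ)) * |PS p m i|
      ≤ ∑ m ∈ MM p R J, (1 / (m : ℝ)) * ((2 / p) * ∑ n ∈ H p, cc p n *
        min (i : ℝ) (p / (2 * |(((n : ZMod p) * (m : ZMod p)⁻¹).valMinAbs : ℝ)|))) := by
        apply sum_le_sum
        intro m hm
        rw [MM, mem_filter] at hm
        exact mul_le_mul_of_nonneg_left (PS_le hp hm.1 hi) (by positivity)
    _ = (2 / p) * ∑ n ∈ H p, cc p n * ∑ m ∈ MM p R J, (1 / (m : ℝ)) *
        min (i : ℝ) (p / (2 * |(((n : ZMod p) * (m : ZMod p)⁻¹).valMinAbs : ℝ)|)) := by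
        simp_rw [mul_sum]
        rw [sum_comm]
        apply sum_congr rfl; intro n _
        apply sum_congr rfl; intro m _
        ring
    _ ≤ (2 / p) * ∑ n ∈ H p, cc p n * (ZZ p J * (2 * i / R + (1 + Real.log p))) := by
        apply mul_le_mul_of_nonneg_left _ (by positivity)
        apply sum_le_sum
        intro n hn
        have hn' := mem_H.mp hn
        exact mul_le_mul_of_nonneg_left (W_le hn hR) (cc_nonneg hn'.2.pos hn'.1.le)
    _ = ((2 / p) * ∑ n ∈ H p, cc p n) * (ZZ p J * (2 * i / R + (1 + Real.log p))) := by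
        rw [← sum_mul]; ring
    _ ≤ _ := by
        apply mul_le_mul_of_nonneg_right cc_mass_le
        positivity

end Pool.Agent.Helper42
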