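import Pool.Agent.Helper42.Block
import Pool.Agent.Helper42.NonConc

open Finset

namespace Pool.Agent.Helper42

/-- Abel summation -/
lemma abel_sum (a b : ℕ → ℝ) (i0 n : ℕ) :
    ∑ i ∈ Ico i0 (i0 + n), a i * b i =
      ∑ i ∈ Ico i0 (i0 + n), (a i - a (i + 1)) * (∑ k ∈ Ico i0 (i + 1), b k) +
        a (i0 + n) * ∑ k ∈ Ico i0 (i0 + n), b k := by
  induction n with
  | zero => simp
  | succ n ih =>
    rw [← add_assoc, sum_Ico_succ_top (by omega), ih, sum_Ico_succ_top (by omega) (fun i => (a i - a (i + 1)) * (∑ k ∈ Ico i0 (i + 1), b k)),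
      sum_Ico_succ_top (by omega) b]
    ring

variable {p : ℕ} [Fact p.Prime]

/-- sign of the quotient -/
noncomputable def sg (p : ℕ) (m i : ℕ) : ℝ := Phi (((2 * i + 1 : ℕ) : ZMod p) * (m : ZMod p)⁻¹)

/-- tail sums -/
noncomputable def GG (p : ℕ) (i0 N m : ℕ) : ℝ := ∑ i ∈ Ico i0 N, cc p (2 * i + 1) * sg p m i

lemma GG_eq {N i0 m : ℕ} (hN : p = 2 * N + 1) (hi : i0 ≤ N) :
    GG p i0 N m = ∑ i ∈ Ico i0 N, (cc p (2 * i + 1) - cc p (2 * i + 1 + 2)) *
      ∑ k ∈ Ico i0 (i + 1), sg p m k := by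
  have hpos : 0 < p := (Fact.out : p.Prime).pos
  have h := abel_sum (fun i => cc p (2 * i + 1)) (sg p m) i0 (N - i0)
  rw [show i0 + (N - i0) = N by omega] at h
  rw [GG, h]
  have : cc p (2 * N + 1) = 0 := by rw [← hN]; exact cc_self hpos
  rw [this, zero_mul, add_zero]
  apply sum_congr rfl
  intro i _
  rfl

lemma diff_nonneg {N i : ℕ} (hN : p = 2 * N + 1) (hi : i < N) :
    0 ≤ cc p (2 * i + 1) - cc p (2 * i + 1 + 2) := (cc_diff (by omega) (by omega)).1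

lemma diff_le {N i : ℕ} (hN : p = 2 * N + 1) (hi : i < N) :
    cc p (2 * i + 1) - cc p (2 * i + 1 + 2) ≤ 4 * p / ((2 * i + 1 : ℕ) : ℝ) ^ 2 :=
  (cc_diff (by omega) (by omega)).2

lemma telescoping {N i0 : ℕ} (hN : p = 2 * N + 1) (hi : i0 ≤ N) :
    ∑ i ∈ Ico i0 N, (cc p (2 * i + 1) - cc p (2 * i + 1 + 2)) = cc p (2 * i0 + 1) := by
  have hpos : 0 < p := (Fact.out : p.Prime).pos
  have h := sum_Ico_sub (fun i => cc p (2 * i + 1)) hi
  have e : ∑ i ∈ Ico i0 N, (cc p (2 * i + 1) - cc p (2 * i + 1 + 2)) =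
      - ∑ i ∈ Ico i0 N, (cc p (2 * (i + 1) + 1) - cc p (2 * i + 1)) := by
    rw [← sum_neg_distrib]
    apply sum_congr rfl
    intro i _
    rw [show 2 * (i + 1) + 1 = 2 * i + 1 + 2 by ring]; ring
  rw [e, h]
  have : cc p (2 * N + 1) = 0 := by rw [← hN]; exact cc_self hpos
  rw [this]; ring

/-- one-sided bound for the tails -/
lemma GG_lower {N i0 m : ℕ} (hN : p = 2 * N + 1) (hi : i0 ≤ N) (hm : m ∈ H p) :
    - ((m : ℝ) * cc p (2 * i0 + 1)) ≤ GG p i0 N m := by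
  have hp : Odd p := ⟨N, hN⟩
  rw [GG_eq hN hi, ← telescoping hN hi, mul_sum, ← sum_neg_distrib]
  apply sum_le_sum
  intro i hi'
  rw [mem_Ico] at hi'
  have h1 := block_lower hp hm (i + 1 - i0) i0 (by omega)
  rw [show i0 + (i + 1 - i0) = i + 1 by omega] at h1
  have h2 := diff_nonneg hN hi'.2
  have h3 := mul_le_mul_of_nonneg_left h1 h2
  calc -((m : ℝ) * (cc p (2 * i + 1) - cc p (2 * i + 1 + 2)))
      = (cc p (2 * i + 1) - cc p (2 * i + 1 + 2)) * -(m : ℝ) := by ring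
    _ ≤ _ := h3

lemma abs_sum_sg_le {N i0 m i : ℕ} (hi : i0 ≤ i) :
    |∑ k ∈ Ico i0 i, sg p m k| ≤ |PS p m i| + |PS p m i0| := by
  have e : ∑ k ∈ Ico i0 i, sg p m k = PS p m i - PS p m i0 := by
    rw [PS, PS, sum_Ico_eq_sub _ hi]
    rfl
  rw [e]
  exact abs_sub _ _

/-- first moment of the tails -/
theorem sum_GG_le {N i0 J : ℕ} (hN : p = 2 * N + 1) (hi : i0 ≤ N) (hi0 : 0 < i0) :
    ∑ m ∈ MM p (2 * i0) J, (1 / (m : ℝ)) * |GG p i0 N m| ≤
      40 * p * (1 + Real.log p) ^ 2 * ZZ p J / ((2 * i0 : ℕ) : ℝ) := by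
  have hp : Odd p := ⟨N, hN⟩
  have hpos : 0 < p := (Fact.out : p.Prime).pos
  have hp0 : (0 : ℝ) < p := by exact_mod_cast hpos
  have hlog : 0 ≤ Real.log p := Real.log_natCast_nonneg p
  set L : ℝ := 1 + Real.log p with hL
  have hL0 : 0 < L := by linarith
  set R : ℝ := ((2 * i0 : ℕ) : ℝ) with hR
  have hR0 : 0 < R := by rw [hR]; exact_mod_cast (by omega : 0 < 2 * i0)
  have hterm : ∀ i ∈ Ico i0 N, ∑ m ∈ MM p (2 * i0) J, (1 / (m : ℝ)) *
      ((cc p (2 * i + 1) - cc p (2 * i + 1 + 2)) * (|PS p m (i + 1)| + |PS p m i0|)) ≤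
      (4 * p / ((2 * i + 1 : ℕ) : ℝ) ^ 2) * (4 * L * (ZZ p J * (2 * ((i + 1 : ℕ) : ℝ) / R + L))) := by
    intro i hi'
    rw [mem_Ico] at hi'
    have h1 := sum_PS_le hp (i := i + 1) (R := 2 * i0) (J := J) (by omega) (by omega)
    have h2 := sum_PS_le hp (i := i0) (R := 2 * i0) (J := J) (by omega) (by omega)
    have h3 : (i0 : ℝ) ≤ ((i + 1 : ℕ) : ℝ) := by exact_mod_cast (by omega : i0 ≤ i + 1)
    have e : ∑ m ∈ MM p (2 * i0) J, (1 / (m : ℝ)) *
      ((cc p (2 * i + 1) - cc p (2 * i + 1 + 2)) * (|PS p m (i + 1)| + |PS p m i0|)) =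
      (cc p (2 * i + 1) - cc p (2 * i + 1 + 2)) *
        (∑ m ∈ MM p (2 * i0) J, (1 / (m : ℝ)) * |PS p m (i + 1)| +
         ∑ m ∈ MM p (2 * i0) J, (1 / (m : ℝ)) * |PS p m i0|) := by
      rw [← sum_add_distrib, mul_sum]
      apply sum_congr rfl; intro m _; ring
    rw [e]
    apply mul_le_mul (diff_le hN hi'.2) _ _ (by positivity)
    · have h4 : 2 * L * (ZZ p J * (2 * (i0 : ℝ) / R + L)) ≤
          2 * L * (ZZ p J * (2 * ((i + 1 : ℕ) : ℝ) / R + L)) := by gcongr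
      calc _ ≤ 2 * L * (ZZ p J * (2 * ((i + 1 : ℕ) : ℝ) / R + L)) +
          2 * L * (ZZ p J * (2 * (i0 : ℝ) / R + L)) := add_le_add h1 h2
        _ ≤ 2 * L * (ZZ p J * (2 * ((i + 1 : ℕ) : ℝ) / R + L)) +
          2 * L * (ZZ p J * (2 * ((i + 1 : ℕ) : ℝ) / R + L)) := by linarith
        _ = _ := by ring
    · apply add_nonneg <;> exact sum_nonneg (fun _ _ => by positivity)
  have hpt : ∀ i ∈ Ico i0 N, (4 * p / ((2 * i + 1 : ℕ) : ℝ) ^ 2) *
      (4 * L * (ZZ p J * (2 * ((i + 1 : ℕ) : ℝ) / R + L))) ≤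
      16 * p * L * ZZ p J * ((2 / R) * (1 / (i : ℝ)) + L * ((1 / 4) * (1 / (i : ℝ) - 1 / ((i + 1 : ℕ) : ℝ)))) := by
    intro i hi'
    rw [mem_Ico] at hi'
    have hi1 : (0 : ℝ) < i := by exact_mod_cast (by omega : 0 < i)
    have hc : ((2 * i + 1 : ℕ) : ℝ) = 2 * i + 1 := by push_cast; ring
    have hc' : ((i + 1 : ℕ) : ℝ) = i + 1 := by push_cast; ring
    rw [hc, hc']
    have a1 : ((i : ℝ) + 1) / (2 * i + 1) ^ 2 ≤ 1 / i := by
      rw [div_le_div_iff₀ (by positivity) hi1]; nlinarith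
    have a2 : 1 / (2 * (i : ℝ) + 1) ^ 2 ≤ (1 / 4) * (1 / (i : ℝ) - 1 / (i + 1)) := by
      have : (1 / 4) * (1 / (i : ℝ) - 1 / (i + 1)) = 1 / (4 * i * (i + 1)) := by
        field_simp; ring
      rw [this]
      apply one_div_le_one_div_of_le (by positivity)
      nlinarith
    have e1 : (4 * (p : ℝ) / (2 * i + 1) ^ 2) * (4 * L * (ZZ p J * (2 * ((i : ℝ) + 1) / R + L))) =
        16 * p * L * ZZ p J * ((2 / R) * (((i : ℝ) + 1) / (2 * i + 1) ^ 2) + L * (1 / (2 * (i : ℝ) + 1) ^ 2)) := by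
      field_simp; ring
    rw [e1]
    apply mul_le_mul_of_nonneg_left _ (by positivity)
    gcongr
  have hs1 : ∑ i ∈ Ico i0 N, (1 / (i : ℝ)) ≤ L := by
    calc ∑ i ∈ Ico i0 N, (1 / (i : ℝ)) ≤ ∑ i ∈ Icc 1 p, (1 / (i : ℝ)) := by
          apply sum_le_sum_of_subset_of_nonneg
          · intro i hi'
            rw [mem_Ico] at hi'
            rw [mem_Icc]; omega
          · intro i _ _; positivity
      _ ≤ L := sum_Icc_inv_le p
  have hs2 : ∑ i ∈ Ico i0 N, (1 / (i : ℝ) - 1 / ((i + 1 : ℕ) : ℝ)) ≤ 2 / R := by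
    have h := sum_Ico_sub (fun i : ℕ => 1 / (i : ℝ)) hi
    have e : ∑ i ∈ Ico i0 N, (1 / (i : ℝ) - 1 / ((i + 1 : ℕ) : ℝ)) =
        - ∑ i ∈ Ico i0 N, (1 / ((i + 1 : ℕ) : ℝ) - 1 / (i : ℝ)) := by
      rw [← sum_neg_distrib]; apply sum_congr rfl; intro i _; ring
    rw [e, h]
    have h5 : 1 / (i0 : ℝ) = 2 / R := by rw [hR]; push_cast; field_simp
    have h6 : 0 ≤ 1 / (N : ℝ) := by positivity
    linarith
  calc ∑ m ∈ MM p (2 * i0) J, (1 / (m : ℝ)) * |GG p i0 N m|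
      ≤ ∑ m ∈ MM p (2 * i0) J, (1 / (m : ℝ)) * ∑ i ∈ Ico i0 N,
        (cc p (2 * i + 1) - cc p (2 * i + 1 + 2)) * (|PS p m (i + 1)| + |PS p m i0|) := by
        apply sum_le_sum
        intro m _
        apply mul_le_mul_of_nonneg_left _ (by positivity)
        rw [GG_eq hN hi]
        refine (abs_sum_le_sum_abs _ _).trans (sum_le_sum (fun i hi' => ?_))
        rw [mem_Ico] at hi'
        rw [abs_mul, abs_of_nonneg (diff_nonneg hN hi'.2)]
        apply mul_le_mul_of_nonneg_left _ (diff_nonneg hN hi'.2)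
        exact abs_sum_sg_le (N := N) (by omega)
    _ = ∑ i ∈ Ico i0 N, ∑ m ∈ MM p (2 * i0) J, (1 / (m : ℝ)) *
      ((cc p (2 * i + 1) - cc p (2 * i + 1 + 2)) * (|PS p m (i + 1)| + |PS p m i0|)) := by
        simp_rw [mul_sum]
        rw [sum_comm]
    _ ≤ ∑ i ∈ Ico i0 N, 16 * p * L * ZZ p J * ((2 / R) * (1 / (i : ℝ)) +
          L * ((1 / 4) * (1 / (i : ℝ) - 1 / ((i + 1 : ℕ) : ℝ)))) :=
        sum_le_sum (fun i hi' => (hterm i hi').trans (hpt i hi'))
    _ = 16 * p * L * ZZ p J * ((2 / R) * ∑ i ∈ Ico i0 N, (1 / (i : ℝ)) +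
          L * ((1 / 4) * ∑ i ∈ Ico i0 N, (1 / (i : ℝ) - 1 / ((i + 1 : ℕ) : ℝ)))) := by
        rw [← mul_sum, sum_add_distrib, ← mul_sum, ← mul_sum, ← mul_sum]
    _ ≤ 16 * p * L * ZZ p J * ((2 / R) * L + L * ((1 / 4) * (2 / R))) := by gcongr
    _ = 40 * p * L ^ 2 * ZZ p J / R := by field_simp; ring

/-- Part B: the contribution of large `r`. -/
theorem partB {N i0 J : ℕ} (hN : p = 2 * N + 1) (hi : i0 ≤ N) (hi0 : 0 < i0) :
    - ((p : ℝ) ^ 2 * (1 + 40 * (1 + Real.log p) ^ 2 * ZZ p J / ((2 * i0 : ℕ) : ℝ) +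
      (1 + Real.log p) ^ 3 / 2 ^ J)) ≤ ∑ m ∈ (H p).filter (fun m => m ≠ 1), cc p m * GG p i0 N m := by
  have hp : Odd p := ⟨N, hN⟩
  have hpos : 0 < p := (Fact.out : p.Prime).pos
  have hp0 : (0 : ℝ) < p := by exact_mod_cast hpos
  have hlog : 0 ≤ Real.log p := Real.log_natCast_nonneg p
  set L : ℝ := 1 + Real.log p with hL
  have hL0 : 0 < L := by linarith
  set R : ℝ := ((2 * i0 : ℕ) : ℝ) with hR
  have hR0 : 0 < R := by rw [hR]; exact_mod_cast (by omega : 0 < 2 * i0)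
  have hGabs : ∀ m, |GG p i0 N m| ≤ p * L := by
    intro m
    rw [GG]
    calc |∑ i ∈ Ico i0 N, cc p (2 * i + 1) * sg p m i| ≤ ∑ i ∈ Ico i0 N, cc p (2 * i + 1) := by
          refine (abs_sum_le_sum_abs _ _).trans (sum_le_sum (fun i hi' => ?_))
          rw [mem_Ico] at hi'
          rw [abs_mul, sg, abs_Phi, mul_one, abs_of_nonneg (cc_nonneg (by omega) (by omega))]
      _ ≤ ∑ i ∈ range N, cc p (2 * i + 1) := by
          apply sum_le_sum_of_subset_of_nonneg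
          · intro i hi'
            rw [mem_Ico] at hi'
            rw [mem_range]; omega
          · intro i hi' _
            rw [mem_range] at hi'
            exact cc_nonneg (by omega) (by omega)
      _ = ∑ n ∈ H p, cc p n := by
          conv_rhs => rw [hN]
          rw [sum_H, ← hN]
      _ ≤ p * L := sum_cc_le
  -- three classes
  have hsplit : ∑ m ∈ (H p).filter (fun m => m ≠ 1), cc p m * GG p i0 N m =
      ∑ m ∈ (H p).filter (fun m => m ≠ 1 ∧ m ≤ 2 * i0), cc p m * GG p i0 N m +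
      (∑ m ∈ (H p).filter (fun m => m ≠ 1 ∧ 2 * i0 < m ∧ m.primeFactors.card ≤ J), cc p m * GG p i0 N m +
       ∑ m ∈ (H p).filter (fun m => m ≠ 1 ∧ 2 * i0 < m ∧ J < m.primeFactors.card), cc p m * GG p i0 N m) := by
    rw [← sum_filter_add_sum_filter_not ((H p).filter (fun m => m ≠ 1)) (fun m => m ≤ 2 * i0),
      filter_filter, filter_filter]
    congr 1
    rw [← sum_filter_add_sum_filter_not ((H p).filter (fun m => m ≠ 1 ∧ ¬ m ≤ 2 * i0))
      (fun m => m.primeFactors.card ≤ J), filter_filter, filter_filter]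
    congr 1
    · apply sum_congr _ (fun _ _ => rfl)
      ext m; simp only [mem_filter]; constructor
      · rintro ⟨h1, ⟨h2, h3⟩, h4⟩; exact ⟨h1, h2, by omega, h4⟩
      · rintro ⟨h1, h2, h3, h4⟩; exact ⟨h1, ⟨h2, by omega⟩, h4⟩
    · apply sum_congr _ (fun _ _ => rfl)
      ext m; simp only [mem_filter]; constructor
      · rintro ⟨h1, ⟨h2, h3⟩, h4⟩; exact ⟨h1, h2, by omega, by omega⟩
      · rintro ⟨h1, h2, h3, h4⟩; exact ⟨h1, ⟨h2, by omega⟩, by omega⟩
  have hA : - (p : ℝ) ^ 2 ≤ ∑ m ∈ (H p).filter (fun m => m ≠ 1 ∧ m ≤ 2 * i0), cc p m * GG p i0 N m := by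
    have h1 : ∀ m ∈ (H p).filter (fun m => m ≠ 1 ∧ m ≤ 2 * i0), - ((p : ℝ) ^ 2 / R) ≤ cc p m * GG p i0 N m := by
      intro m hm
      rw [mem_filter] at hm
      have hm' := mem_H.mp hm.1
      have hmp := hm'.2.pos
      have hm0 : (0 : ℝ) < m := by exact_mod_cast hmp
      have hc := cc_nonneg hmp hm'.1.le
      have hc2 := cc_le hmp hm'.1.le
      have h2 := mul_le_mul_of_nonneg_left (GG_lower hN hi hm.1) hc
      have h3 : cc p (2 * i0 + 1) ≤ p / R := by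
        refine (cc_le (by omega) (by omega)).trans ?_
        apply div_le_div_of_nonneg_left hp0.le hR0
        rw [hR]; exact_mod_cast (by omega : 2 * i0 ≤ 2 * i0 + 1)
      have h3' : 0 ≤ cc p (2 * i0 + 1) := cc_nonneg (by omega) (by omega)
      have h4 : cc p m * m ≤ p := by
        rw [le_div_iff₀ hm0] at hc2; exact hc2
      have h5 : cc p m * (m * cc p (2 * i0 + 1)) ≤ p * (p / R) := by
        rw [← mul_assoc]
        exact mul_le_mul h4 h3 h3' hp0.le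
      have e : (p : ℝ) ^ 2 / R = p * (p / R) := by ring
      rw [e]
      linarith
    have h6 := card_nsmul_le_sum _ _ _ h1
    refine le_trans ?_ h6
    have hcard : ((H p).filter (fun m => m ≠ 1 ∧ m ≤ 2 * i0)).card ≤ 2 * i0 := by
      calc _ ≤ (Icc 1 (2 * i0)).card := by
            apply card_le_card
            intro m hm
            rw [mem_filter] at hm
            have := (mem_H.mp hm.1).2.pos
            rw [mem_Icc]; omega
        _ = 2 * i0 := by simp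
    rw [nsmul_eq_mul]
    have hcard' : ((((H p).filter (fun m => m ≠ 1 ∧ m ≤ 2 * i0)).card : ℕ) : ℝ) ≤ R := by
      rw [hR]; exact_mod_cast hcard
    have h7 : ((((H p).filter (fun m => m ≠ 1 ∧ m ≤ 2 * i0)).card : ℕ) : ℝ) * ((p : ℝ) ^ 2 / R) ≤ p ^ 2 := by
      calc _ ≤ R * ((p : ℝ) ^ 2 / R) := mul_le_mul_of_nonneg_right hcard' (by positivity)
        _ = p ^ 2 := by field_simp
    linarith
  have hB : - ((p : ℝ) ^ 2 * (40 * L ^ 2 * ZZ p J / R)) ≤
      ∑ m ∈ (H p).filter (fun m => m ≠ 1 ∧ 2 * i0 < m ∧ m.primeFactors.card ≤ J), cc p m * GG p i0 N m := by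
    have h1 : |∑ m ∈ (H p).filter (fun m => m ≠ 1 ∧ 2 * i0 < m ∧ m.primeFactors.card ≤ J), cc p m * GG p i0 N m|
        ≤ p * (40 * p * L ^ 2 * ZZ p J / R) := by
      calc _ ≤ ∑ m ∈ (H p).filter (fun m => m ≠ 1 ∧ 2 * i0 < m ∧ m.primeFactors.card ≤ J),
            p * ((1 / (m : ℝ)) * |GG p i0 N m|) := by
            refine (abs_sum_le_sum_abs _ _).trans (sum_le_sum (fun m hm => ?_))
            rw [mem_filter] at hm
            have hm' := mem_H.mp hm.1
            rw [abs_mul, abs_of_nonneg (cc_nonneg hm'.2.pos hm'.1.le), ← mul_assoc, mul_one_div]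
            exact mul_le_mul_of_nonneg_right (cc_le hm'.2.pos hm'.1.le) (abs_nonneg _)
        _ ≤ ∑ m ∈ MM p (2 * i0) J, p * ((1 / (m : ℝ)) * |GG p i0 N m|) := by
            apply sum_le_sum_of_subset_of_nonneg
            · intro m hm
              rw [mem_filter] at hm
              rw [MM, mem_filter]
              exact ⟨hm.1, hm.2.2⟩
            · intro m _ _; positivity
        _ ≤ p * (40 * p * L ^ 2 * ZZ p J / R) := by
            rw [← mul_sum]
            exact mul_le_mul_of_nonneg_left (sum_GG_le hN hi hi0) hp0.le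
    have h2 := (abs_le.mp h1).1
    have e : (p : ℝ) ^ 2 * (40 * L ^ 2 * ZZ p J / R) = p * (40 * p * L ^ 2 * ZZ p J / R) := by ring
    rw [e]; exact h2
  have hC : - ((p : ℝ) ^ 2 * (L ^ 3 / 2 ^ J)) ≤
      ∑ m ∈ (H p).filter (fun m => m ≠ 1 ∧ 2 * i0 < m ∧ J < m.primeFactors.card), cc p m * GG p i0 N m := by
    have h1 : |∑ m ∈ (H p).filter (fun m => m ≠ 1 ∧ 2 * i0 < m ∧ J < m.primeFactors.card), cc p m * GG p i0 N m|
        ≤ (p * (p * L)) * (L ^ 2 / 2 ^ J) := by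
      calc _ ≤ ∑ m ∈ (H p).filter (fun m => m ≠ 1 ∧ 2 * i0 < m ∧ J < m.primeFactors.card),
            (p * (p * L)) * (1 / (m : ℝ)) := by
            refine (abs_sum_le_sum_abs _ _).trans (sum_le_sum (fun m hm => ?_))
            rw [mem_filter] at hm
            have hm' := mem_H.mp hm.1
            rw [abs_mul, abs_of_nonneg (cc_nonneg hm'.2.pos hm'.1.le)]
            calc cc p m * |GG p i0 N m| ≤ (p / m) * (p * L) :=
                  mul_le_mul (cc_le hm'.2.pos hm'.1.le) (hGabs m) (abs_nonneg _) (by positivity)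
              _ = _ := by ring
        _ ≤ ∑ m ∈ (Icc 1 p).filter (fun m => J < m.primeFactors.card), (p * (p * L)) * (1 / (m : ℝ)) := by
            apply sum_le_sum_of_subset_of_nonneg
            · intro m hm
              rw [mem_filter] at hm
              rw [mem_filter, mem_Icc]
              have := mem_H.mp hm.1
              exact ⟨⟨this.2.pos, this.1.le⟩, hm.2.2.2⟩
            · intro m _ _; positivity
        _ ≤ (p * (p * L)) * (L ^ 2 / 2 ^ J) := by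
            rw [← mul_sum]
            exact mul_le_mul_of_nonneg_left (sum_many_le p J) (by positivity)
    have h2 := (abs_le.mp h1).1
    have e : (p : ℝ) ^ 2 * (L ^ 3 / 2 ^ J) = (p * (p * L)) * (L ^ 2 / 2 ^ J) := by ring
    rw [e]; exact h2
  rw [hsplit]
  have e : (p : ℝ) ^ 2 * (1 + 40 * L ^ 2 * ZZ p J / R + L ^ 3 / 2 ^ J) =
      (p : ℝ) ^ 2 + (p : ℝ) ^ 2 * (40 * L ^ 2 * ZZ p J / R) + (p : ℝ) ^ 2 * (L ^ 3 / 2 ^ J) := by ring
  rw [e]
  linarith

end Pool.Agent.Helper42
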