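import Mathlib
import Pool.Agent.Helper42.Decomp
import Pool.Agent.Helper42.BlockBound
import Pool.Agent.Helper42.Bad
import Pool.Agent.Helper42.PartB

open Finset

namespace Pool.Agent.Helper42

/-- the primes of the blocks `K ≤ k < K'` -/
noncomputable def QS (p K K' : ℕ) : Finset ℕ := (Ico K K').biUnion (bl p)

lemma QV_QS (p K K' v : ℕ) : QV (QS p K K') v =
    (Ico K K').biUnion (fun k => (bl p k).filter (fun q => ∀ q' ∈ QS p K K', q' ∣ v → q ≤ q')) := by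
  ext q
  simp only [QV, mem_filter, mem_biUnion]
  constructor
  · rintro ⟨h1, h2⟩
    rw [QS, mem_biUnion] at h1
    obtain ⟨k, hk, hq⟩ := h1
    exact ⟨k, hk, hq, h2⟩
  · rintro ⟨k, hk, hq, h2⟩
    exact ⟨by rw [QS, mem_biUnion]; exact ⟨k, hk, hq⟩, h2⟩

lemma sum_QV {p K K' v : ℕ} (hK : 1 ≤ K) (g : ℕ → ℝ) :
    ∑ q ∈ QV (QS p K K') v, g q =
      ∑ k ∈ Ico K K', ∑ q ∈ (bl p k).filter (fun q => ∀ q' ∈ QS p K K', q' ∣ v → q ≤ q'), g q := by
  rw [QV_QS, Finset.sum_biUnion]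
  intro k hk k' hk' hne
  have hk1 := mem_Ico.1 (mem_coe.1 hk)
  have hk1' := mem_Ico.1 (mem_coe.1 hk')
  exact Disjoint.mono (filter_subset _ _) (filter_subset _ _)
    (bl_disjoint (by omega) (by omega) hne)

lemma sum_QS {p K K' : ℕ} (hK : 1 ≤ K) (g : ℕ → ℝ) :
    ∑ q ∈ QS p K K', g q = ∑ k ∈ Ico K K', ∑ q ∈ bl p k, g q := by
  rw [QS, Finset.sum_biUnion]
  intro k hk k' hk' hne
  have hk1 := mem_Ico.1 (mem_coe.1 hk)
  have hk1' := mem_Ico.1 (mem_coe.1 hk')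
  exact bl_disjoint (by omega) (by omega) hne

lemma QS_disjoint {p K0 K1 K2 : ℕ} (hK : 1 ≤ K0) (h01 : K0 ≤ K1) :
    Disjoint (QS p K0 K1) (QS p K1 K2) := by
  rw [Finset.disjoint_left]
  intro q h1 h2
  rw [QS, mem_biUnion] at h1 h2
  obtain ⟨k, hk, hq⟩ := h1
  obtain ⟨k', hk', hq'⟩ := h2
  rw [mem_Ico] at hk hk'
  have := bl_disjoint (p := p) (k := k) (k' := k') (by omega) (by omega) (by omega)
  exact (Finset.disjoint_left.1 this hq) hq'

lemma Bk_anti {p k k' : ℕ} (hk : 1 ≤ k) (hkk : k ≤ k') : Bk p k' ≤ Bk p k := by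
  have hk1 : (1 : ℝ) ≤ k := by exact_mod_cast hk
  have hkk' : (k : ℝ) ≤ k' := by exact_mod_cast hkk
  have hLp : 0 ≤ Real.log p := Real.log_natCast_nonneg p
  apply Nat.floor_mono
  apply Real.exp_le_exp.2
  have : Real.log p / (2 * (k' : ℝ) - 1) ≤ Real.log p / (2 * (k : ℝ) - 1) := by
    apply div_le_div_of_nonneg_left hLp (by linarith)
    linarith
  linarith

lemma QS_le {p K0 K K' : ℕ} (hK : 1 ≤ K0) (h : K0 ≤ K) : ∀ q ∈ QS p K K', q ≤ Bk p K0 := by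
  intro q hq
  rw [QS, mem_biUnion] at hq
  obtain ⟨k, hk, hq⟩ := hq
  rw [mem_Ico] at hk
  exact (mem_bl.1 hq).1.2.trans (Bk_anti hK (by omega))

lemma QS_prime {p K K' : ℕ} (hK : 1 ≤ K) (hL : 80 * (K' : ℝ) ^ 2 ≤ Real.log p) :
    ∀ q ∈ QS p K K', q.Prime ∧ Odd q := by
  intro q hq
  rw [QS, mem_biUnion] at hq
  obtain ⟨k, hk, hq⟩ := hq
  rw [mem_Ico] at hk
  apply bl_odd (by omega) _ hq
  refine le_trans ?_ hL
  have : (k : ℝ) ≤ K' := by exact_mod_cast hk.2.le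
  gcongr

/-- the bad part -/
lemma bad_le {p K0 K K' : ℕ} (hK0 : 1 ≤ K0) (hK : K0 ≤ K) (hL : 80 * (K' : ℝ) ^ 2 ≤ Real.log p)
    (hL0 : 80 * (K0 : ℝ) ^ 2 ≤ Real.log p)
    {j : ℕ} (hj : 1 ≤ j) (hjK : j ≤ K0) (hmass : 2 * (j : ℝ) ≤ ∑ q ∈ QS p K K', (1 / (q : ℝ)))
    {x : ℕ} (hx : x ≤ p) :
    ∑ m ∈ (Icc 1 x).filter (fun m => ∀ q ∈ QS p K K', ¬ q ∣ m), (1 / (m : ℝ)) ≤
      (1 + 2 * Real.log p) / 2 ^ j := by
  have hLp : 0 ≤ Real.log p := Real.log_natCast_nonneg p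
  rcases Nat.eq_zero_or_pos x with h0 | hx1
  · rw [h0]
    simp
    positivity
  have hB := Bk_log_ge hK0 hL0
  have hBl := Bk_log_le hK0 hL0
  have h := sum_bad_le (QS p K K') (fun q hq => (QS_prime (hK0.trans hK) hL q hq).1) (Bk p K0) hB.1
    (QS_le hK0 hK) x j hx1
  set S := ∑ m ∈ (Icc 1 x).filter (fun m => ∀ q ∈ QS p K K', ¬ q ∣ m), (1 / (m : ℝ)) with hS
  have hS0 : 0 ≤ S := sum_nonneg (fun _ _ => by positivity)
  have hj0 : (0 : ℝ) < j := by exact_mod_cast hj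
  have hK01 : (1 : ℝ) ≤ K0 := by exact_mod_cast hK0
  have hjK' : (j : ℝ) ≤ K0 := by exact_mod_cast hjK
  have h1 : S * (2 * (j : ℝ)) ^ j ≤ (j : ℝ) ^ j * (1 + 2 * Real.log p) := by
    calc S * (2 * (j : ℝ)) ^ j ≤ S * (∑ q ∈ QS p K K', (1 / (q : ℝ))) ^ j := by
          apply mul_le_mul_of_nonneg_left _ hS0
          exact pow_le_pow_left₀ (by positivity) hmass _
      _ ≤ (j.factorial : ℝ) * (1 + Real.log x + j * Real.log (Bk p K0)) := h
      _ ≤ (j : ℝ) ^ j * (1 + 2 * Real.log p) := by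
          have hlogx : Real.log x ≤ Real.log p :=
            Real.log_le_log (by exact_mod_cast hx1) (by exact_mod_cast hx)
          have hlogx0 : 0 ≤ Real.log x := Real.log_natCast_nonneg x
          have hlogB0 : 0 ≤ Real.log (Bk p K0) := Real.log_natCast_nonneg _
          have hjB : (j : ℝ) * Real.log (Bk p K0) ≤ Real.log p := by
            have e1 : Real.log (Bk p K0) ≤ Real.log p / K0 := by
              have : Real.log p / (2 * (K0 : ℝ) - 1) ≤ Real.log p / K0 := by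
                apply div_le_div_of_nonneg_left hLp (by linarith)
                linarith
              linarith
            calc (j : ℝ) * Real.log (Bk p K0) ≤ K0 * (Real.log p / K0) := by
                  apply mul_le_mul hjK' e1 hlogB0 (by linarith)
              _ = Real.log p := by field_simp
          apply mul_le_mul _ (by linarith) (by positivity) (by positivity)
          exact_mod_cast Nat.factorial_le_pow j
  rw [mul_pow] at h1
  rw [le_div_iff₀ (by positivity)]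
  have hjj : (0 : ℝ) < (j : ℝ) ^ j := by positivity
  nlinarith

variable {p : ℕ} [Fact p.Prime]

/-- the inner sums -/
lemma inner_le {K0 K1 K2 : ℕ} (hK : 1 ≤ K0) (h01 : K0 ≤ K1) (h12 : K1 ≤ K2) (hodd : Odd p)
    (hL : 80 * (K2 : ℝ) ^ 2 ≤ Real.log p) (v : ℕ) {b : ZMod p} (hb : b ≠ 0) :
    |∑ q1 ∈ QV (QS p K0 K1) v, ∑ q2 ∈ QV (QS p K1 K2) v, (1 / (q1 : ℝ)) * (1 / (q2 : ℝ)) *
      Phi (b * (q1 : ZMod p)⁻¹ * (q2 : ZMod p)⁻¹)| ≤
      (K2 : ℝ) ^ 2 * (2 * (1 + Real.log p) * DB p K2) := by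
  have hLp : 0 ≤ Real.log p := Real.log_natCast_nonneg p
  set E := 2 * (1 + Real.log p) * DB p K2 with hE
  have hE0 : 0 ≤ E := by
    rw [hE]; have := DB_nonneg p K2; positivity
  rw [sum_QV hK]
  have h1 : ∀ k ∈ Ico K0 K1, |∑ q1 ∈ (bl p k).filter
      (fun q => ∀ q' ∈ QS p K0 K1, q' ∣ v → q ≤ q'),
      ∑ q2 ∈ QV (QS p K1 K2) v, (1 / (q1 : ℝ)) * (1 / (q2 : ℝ)) *
      Phi (b * (q1 : ZMod p)⁻¹ * (q2 : ZMod p)⁻¹)| ≤ K2 * E := by
    intro k hk
    rw [mem_Ico] at hk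
    have e : ∑ q1 ∈ (bl p k).filter (fun q => ∀ q' ∈ QS p K0 K1, q' ∣ v → q ≤ q'),
        ∑ q2 ∈ QV (QS p K1 K2) v, (1 / (q1 : ℝ)) * (1 / (q2 : ℝ)) *
        Phi (b * (q1 : ZMod p)⁻¹ * (q2 : ZMod p)⁻¹) =
        ∑ l ∈ Ico K1 K2, ∑ q1 ∈ (bl p k).filter (fun q => ∀ q' ∈ QS p K0 K1, q' ∣ v → q ≤ q'),
        ∑ q2 ∈ (bl p l).filter (fun q => ∀ q' ∈ QS p K1 K2, q' ∣ v → q ≤ q'),
        (1 / (q1 : ℝ)) * (1 / (q2 : ℝ)) *
        Phi (b * (q1 : ZMod p)⁻¹ * (q2 : ZMod p)⁻¹) := by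
      conv_rhs => rw [Finset.sum_comm]
      apply sum_congr rfl
      intro q1 _
      rw [sum_QV (by omega)]
    rw [e]
    calc _ ≤ ∑ l ∈ Ico K1 K2, |∑ q1 ∈ (bl p k).filter
            (fun q => ∀ q' ∈ QS p K0 K1, q' ∣ v → q ≤ q'),
            ∑ q2 ∈ (bl p l).filter (fun q => ∀ q' ∈ QS p K1 K2, q' ∣ v → q ≤ q'),
            (1 / (q1 : ℝ)) * (1 / (q2 : ℝ)) *
            Phi (b * (q1 : ZMod p)⁻¹ * (q2 : ZMod p)⁻¹)| := Finset.abs_sum_le_sum_abs _ _
      _ ≤ ∑ l ∈ Ico K1 K2, E := by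
          apply sum_le_sum
          intro l hl
          rw [mem_Ico] at hl
          exact bil_Phi (by omega) (by omega) (by omega) (by omega) hodd hL
            (filter_subset _ _) (filter_subset _ _) hb
      _ = ((K2 - K1 : ℕ) : ℝ) * E := by
          rw [sum_const, Nat.card_Ico, nsmul_eq_mul]
      _ ≤ K2 * E := by
          apply mul_le_mul_of_nonneg_right _ hE0
          exact_mod_cast Nat.sub_le _ _
  calc _ ≤ ∑ k ∈ Ico K0 K1, |∑ q1 ∈ (bl p k).filter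
        (fun q => ∀ q' ∈ QS p K0 K1, q' ∣ v → q ≤ q'),
        ∑ q2 ∈ QV (QS p K1 K2) v, (1 / (q1 : ℝ)) * (1 / (q2 : ℝ)) *
        Phi (b * (q1 : ZMod p)⁻¹ * (q2 : ZMod p)⁻¹)| := Finset.abs_sum_le_sum_abs _ _
    _ ≤ ∑ k ∈ Ico K0 K1, K2 * E := sum_le_sum h1
    _ = ((K1 - K0 : ℕ) : ℝ) * (K2 * E) := by
        rw [sum_const, Nat.card_Ico, nsmul_eq_mul]
    _ ≤ K2 * (K2 * E) := by
        apply mul_le_mul_of_nonneg_right _ (by positivity)
        have : K1 - K0 ≤ K2 := by omega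
        exact_mod_cast this
    _ = (K2 : ℝ) ^ 2 * E := by ring

/-- the bound of part A -/
noncomputable def AM (p K0 K2 j : ℕ) : ℝ :=
  2 * ((1 + 2 * Real.log p) / 2 ^ j) + (1 + 2 * (Real.log p / K0)) +
    (1 + Real.log p) * ((K2 : ℝ) ^ 2 * (2 * (1 + Real.log p) * DB p K2))

lemma AM_nonneg (p K0 K2 j : ℕ) : 0 ≤ AM p K0 K2 j := by
  have h1 := Real.log_natCast_nonneg p
  have h2 := DB_nonneg p K2
  unfold AM
  positivity

theorem partA1 {K0 K1 K2 : ℕ} (hK : 1 ≤ K0) (h01 : K0 ≤ K1) (h12 : K1 ≤ K2) (hodd : Odd p)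
    (hL : 80 * (K2 : ℝ) ^ 2 ≤ Real.log p) {j : ℕ} (hj : 1 ≤ j) (hjK : j ≤ K0)
    (hm1 : 2 * (j : ℝ) ≤ ∑ q ∈ QS p K0 K1, (1 / (q : ℝ)))
    (hm2 : 2 * (j : ℝ) ≤ ∑ q ∈ QS p K1 K2, (1 / (q : ℝ))) {x : ℕ} (hx : x < p)
    {r : ZMod p} (hr : r ≠ 0) :
    |∑ m ∈ (Icc 1 x).filter Odd, (1 / (m : ℝ)) * Phi (r * (m : ZMod p)⁻¹)| ≤ AM p K0 K2 j := by
  have hLp : 0 ≤ Real.log p := Real.log_natCast_nonneg p
  have hK12 : (K1 : ℝ) ≤ K2 := by exact_mod_cast h12
  have hK02 : (K0 : ℝ) ≤ K2 := by exact_mod_cast h01.trans h12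
  have hK01 : (1 : ℝ) ≤ K0 := by exact_mod_cast hK
  have hL1 : 80 * (K1 : ℝ) ^ 2 ≤ Real.log p := by
    refine le_trans ?_ hL
    gcongr
  have hL0 : 80 * (K0 : ℝ) ^ 2 ≤ Real.log p := by
    refine le_trans ?_ hL
    gcongr
  have hB := Bk_log_ge hK hL0
  have hBl := Bk_log_le hK hL0
  have hd := decomp (QS_prime hK hL1) (QS_prime (hK.trans h01) hL) (QS_disjoint hK h01) hB.1
    (QS_le hK le_rfl) (QS_le hK h01) x (fun m => (1 / (m : ℝ)) * Phi (r * (m : ZMod p)⁻¹)) (by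
      intro m hm1 _
      rw [abs_mul, abs_Phi, mul_one, abs_of_nonneg (by positivity)])
  refine hd.trans ?_
  have hb1 := bad_le hK le_rfl hL1 hL0 hj hjK hm1 hx.le
  have hb2 := bad_le hK h01 hL hL0 hj hjK hm2 hx.le
  have hQm : Real.log (Bk p K0) ≤ Real.log p / K0 := by
    have : Real.log p / (2 * (K0 : ℝ) - 1) ≤ Real.log p / K0 := by
      apply div_le_div_of_nonneg_left hLp (by linarith)
      linarith
    linarith
  have hin : ∑ v ∈ (Icc 1 (x / Bk p K0 ^ 2)).filter Odd,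
      |∑ q1 ∈ QV (QS p K0 K1) v, ∑ q2 ∈ QV (QS p K1 K2) v,
        (1 / ((q1 * q2 * v : ℕ) : ℝ)) * Phi (r * ((q1 * q2 * v : ℕ) : ZMod p)⁻¹)| ≤
      (1 + Real.log p) * ((K2 : ℝ) ^ 2 * (2 * (1 + Real.log p) * DB p K2)) := by
    have hDB := DB_nonneg p K2
    calc _ ≤ ∑ v ∈ (Icc 1 (x / Bk p K0 ^ 2)).filter Odd,
          (1 / (v : ℝ)) * ((K2 : ℝ) ^ 2 * (2 * (1 + Real.log p) * DB p K2)) := by
          apply sum_le_sum
          intro v hv
          rw [mem_filter, mem_Icc] at hv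
          have hvp : v < p := lt_of_le_of_lt (hv.1.2.trans (Nat.div_le_self _ _)) hx
          have hv0 : (v : ZMod p) ≠ 0 := by
            intro h
            rw [ZMod.natCast_eq_zero_iff] at h
            have := Nat.le_of_dvd (by omega) h
            omega
          have hb : r * (v : ZMod p)⁻¹ ≠ 0 := mul_ne_zero hr (inv_ne_zero hv0)
          have h1 := inner_le hK h01 h12 hodd hL v hb
          have e : ∑ q1 ∈ QV (QS p K0 K1) v, ∑ q2 ∈ QV (QS p K1 K2) v,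
              (1 / ((q1 * q2 * v : ℕ) : ℝ)) * Phi (r * ((q1 * q2 * v : ℕ) : ZMod p)⁻¹) =
              (1 / (v : ℝ)) * ∑ q1 ∈ QV (QS p K0 K1) v, ∑ q2 ∈ QV (QS p K1 K2) v,
              (1 / (q1 : ℝ)) * (1 / (q2 : ℝ)) *
              Phi (r * (v : ZMod p)⁻¹ * (q1 : ZMod p)⁻¹ * (q2 : ZMod p)⁻¹) := by
            rw [mul_sum]
            apply sum_congr rfl
            intro q1 _
            rw [mul_sum]
            apply sum_congr rfl
            intro q2 _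
            have e1 : r * ((q1 * q2 * v : ℕ) : ZMod p)⁻¹ =
                r * (v : ZMod p)⁻¹ * (q1 : ZMod p)⁻¹ * (q2 : ZMod p)⁻¹ := by
              push_cast
              rw [mul_inv, mul_inv]
              ring
            rw [e1]
            push_cast
            rw [one_div_mul_one_div, ← mul_assoc, one_div_mul_one_div]
            congr 2
            ring
          rw [e, abs_mul, abs_of_nonneg (by positivity)]
          exact mul_le_mul_of_nonneg_left h1 (by positivity)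
      _ = (∑ v ∈ (Icc 1 (x / Bk p K0 ^ 2)).filter Odd, (1 / (v : ℝ))) *
          ((K2 : ℝ) ^ 2 * (2 * (1 + Real.log p) * DB p K2)) := by rw [sum_mul]
      _ ≤ _ := by
          apply mul_le_mul_of_nonneg_right _ (by positivity)
          calc ∑ v ∈ (Icc 1 (x / Bk p K0 ^ 2)).filter Odd, (1 / (v : ℝ)) ≤
              ∑ v ∈ Icc 1 p, (1 / (v : ℝ)) := by
                apply sum_le_sum_of_subset_of_nonneg _ (fun _ _ _ => by positivity)
                intro v hv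
                rw [mem_filter, mem_Icc] at hv
                rw [mem_Icc]
                exact ⟨hv.1.1, (hv.1.2.trans (Nat.div_le_self _ _)).trans hx.le⟩
            _ ≤ _ := sum_Icc_inv_le p
  unfold AM
  linarith

/-- Abel summation with monotone weights -/
lemma abel_anti {g b : ℕ → ℝ} {n : ℕ} {A : ℝ} (hA : 0 ≤ A) (hg : ∀ i < n, g (i + 1) ≤ g i)
    (hgn : 0 ≤ g n) (hb : ∀ i ≤ n, |∑ k ∈ range i, b k| ≤ A) :
    |∑ i ∈ range n, g i * b i| ≤ g 0 * A := by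
  have h := abel_sum g b 0 n
  simp only [zero_add, ← Finset.range_eq_Ico] at h
  rw [h]
  have htel : ∑ i ∈ range n, (g i - g (i + 1)) = g 0 - g n := Finset.sum_range_sub' g n
  calc _ ≤ |∑ i ∈ range n, (g i - g (i + 1)) * ∑ k ∈ range (i + 1), b k| +
        |g n * ∑ k ∈ range n, b k| := abs_add_le _ _
    _ ≤ ∑ i ∈ range n, (g i - g (i + 1)) * A + g n * A := by
        apply add_le_add
        · refine (Finset.abs_sum_le_sum_abs _ _).trans ?_
          apply sum_le_sum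
          intro i hi
          rw [mem_range] at hi
          have h1 := hg i hi
          rw [abs_mul, abs_of_nonneg (by linarith)]
          exact mul_le_mul_of_nonneg_left (hb _ (by omega)) (by linarith)
        · rw [abs_mul, abs_of_nonneg hgn]
          exact mul_le_mul_of_nonneg_left (hb _ le_rfl) hgn
    _ = g 0 * A := by
        rw [← sum_mul, htel]; ring

lemma sum_filter_odd (g : ℕ → ℝ) (i : ℕ) :
    ∑ m ∈ (Icc 1 (2 * i)).filter Odd, g m = ∑ k ∈ range i, g (2 * k + 1) := by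
  induction i with
  | zero => simp
  | succ n ih =>
    rw [sum_range_succ, ← ih]
    have e : (Icc 1 (2 * (n + 1))).filter Odd = insert (2 * n + 1) ((Icc 1 (2 * n)).filter Odd) := by
      ext m
      simp only [mem_filter, mem_Icc, mem_insert]
      constructor
      · rintro ⟨⟨h1, h2⟩, h3⟩
        rcases Nat.lt_or_ge (2 * n) m with h | h
        · left
          obtain ⟨c, hc⟩ := h3
          omega
        · right; exact ⟨⟨h1, h⟩, h3⟩
      · rintro (h | ⟨⟨h1, h2⟩, h3⟩)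
        · subst h
          exact ⟨⟨by omega, by omega⟩, ⟨n, rfl⟩⟩
        · exact ⟨⟨h1, by omega⟩, h3⟩
    rw [e, sum_insert (by simp), add_comm]

/-- Part A with the cotangent weights. -/
theorem partA {K0 K1 K2 : ℕ} (hK : 1 ≤ K0) (h01 : K0 ≤ K1) (h12 : K1 ≤ K2) (hodd : Odd p)
    (hL : 80 * (K2 : ℝ) ^ 2 ≤ Real.log p) {j : ℕ} (hj : 1 ≤ j) (hjK : j ≤ K0)
    (hm1 : 2 * (j : ℝ) ≤ ∑ q ∈ QS p K0 K1, (1 / (q : ℝ)))
    (hm2 : 2 * (j : ℝ) ≤ ∑ q ∈ QS p K1 K2, (1 / (q : ℝ)))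
    {r : ZMod p} (hr : r ≠ 0) :
    |∑ m ∈ H p, cc p m * Phi (r * (m : ZMod p)⁻¹)| ≤ p * AM p K0 K2 j := by
  obtain ⟨N, hN⟩ := hodd
  have hp1 : 1 < p := (Fact.out : p.Prime).one_lt
  have h1 : ∑ m ∈ H p, cc p m * Phi (r * (m : ZMod p)⁻¹) =
      ∑ i ∈ range N, (((2 * i + 1 : ℕ) : ℝ) * cc p (2 * i + 1)) *
        ((1 / ((2 * i + 1 : ℕ) : ℝ)) * Phi (r * ((2 * i + 1 : ℕ) : ZMod p)⁻¹)) := by
    have e := sum_H (N := N) (fun m => cc p m * Phi (r * (m : ZMod p)⁻¹))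
    rw [← hN] at e
    rw [e]
    apply sum_congr rfl
    intro i _
    have h0 : ((2 * i + 1 : ℕ) : ℝ) ≠ 0 := by positivity
    field_simp
  rw [h1]
  have hAM := AM_nonneg p K0 K2 j
  have h2 := abel_anti (g := fun i => (((2 * i + 1 : ℕ) : ℝ) * cc p (2 * i + 1)))
    (b := fun i => ((1 / ((2 * i + 1 : ℕ) : ℝ)) * Phi (r * ((2 * i + 1 : ℕ) : ZMod p)⁻¹)))
    (n := N) hAM (by
      intro i hi
      apply mul_cc_anti (by omega) (by omega) (by omega)) (by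
      have : 2 * N + 1 = p := hN.symm
      rw [this, cc_self (by omega), mul_zero]) (by
      intro i hi
      rw [← sum_filter_odd (fun m => (1 / (m : ℝ)) * Phi (r * (m : ZMod p)⁻¹)) i]
      exact partA1 hK h01 h12 ⟨N, hN⟩ hL hj hjK hm1 hm2 (by omega) hr)
  refine h2.trans ?_
  apply mul_le_mul_of_nonneg_right _ hAM
  simp only [mul_zero, zero_add, Nat.cast_one, one_mul]
  have := cc_le (p := p) (n := 1) one_pos hp1.le
  simpa using this

end Pool.Agent.Helper42
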