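import Pool.Agent.Helper42.Fourier2

open Finset

namespace Pool.Agent.Helper42

variable {p : ℕ} [Fact p.Prime]

lemma Phi_eq_pow (x : ZMod p) : Phi x = - (-1 : ℝ) ^ x.val := by
  rw [Phi]
  by_cases h : Odd x.val
  · rw [if_pos h, h.neg_one_pow]; norm_num
  · rw [if_neg h, (Nat.not_odd_iff_even.mp h).neg_one_pow]

lemma term_eq (hp : Odd p) (h j : ℕ) :
    (-1 : ℝ) ^ (j + 1 + h * j / p) = (-1 : ℝ) ^ (j * (h + 1)) * Phi ((h : ZMod p) * (j : ZMod p)) := by
  obtain ⟨N, hN⟩ := hp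
  have e : ((h : ZMod p) * (j : ZMod p)) = ((h * j : ℕ) : ZMod p) := by push_cast; ring
  rw [Phi_eq_pow, e, natCast_val_eq_mod]
  have h1 : j * (h + 1) + (h * j) % p + 1 = (j + 1 + h * j / p) + 2 * (N * (h * j / p) + (h * j) % p) := by
    have h2 := Nat.div_add_mod (h * j) p
    have h3 : p * (h * j / p) = 2 * (N * (h * j / p)) + (h * j / p) := by
      nth_rewrite 1 [hN]; ring
    have h4 : j * (h + 1) = h * j + j := by ring
    omega
  have h5 : (-1 : ℝ) ^ (j * (h + 1)) * -(-1) ^ ((h * j) % p) =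
      (-1 : ℝ) ^ (j * (h + 1) + (h * j) % p + 1) := by
    rw [pow_add, pow_add]; ring
  rw [h5, h1, pow_add _ _ (2 * _), pow_mul]
  norm_num

lemma sum_Icc_eq (G : ℕ → ℝ) :
    ∑ j ∈ Icc 1 (p - 1), G j = ∑ x : ZMod p, if x = 0 then 0 else G x.val := by
  have hpos : 0 < p := (Fact.out : p.Prime).pos
  have e1 : ∑ x : ZMod p, (if x = 0 then 0 else G x.val) =
      ∑ x ∈ univ.filter (fun x : ZMod p => x ≠ 0), G x.val := by
    rw [sum_filter]
    apply sum_congr rfl
    intro x _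
    by_cases hx : x = 0 <;> simp [hx]
  rw [e1]
  apply sum_nbij' (fun j : ℕ => (j : ZMod p)) (fun x : ZMod p => x.val)
  · intro j hj
    rw [mem_Icc] at hj
    rw [mem_filter]
    refine ⟨mem_univ _, ?_⟩
    intro h0
    rw [ZMod.natCast_eq_zero_iff] at h0
    have := Nat.le_of_dvd (by omega) h0
    omega
  · intro x hx
    rw [mem_filter] at hx
    rw [mem_Icc]
    have h1 := ZMod.val_lt x
    have h2 : x.val ≠ 0 := fun h => hx.2 ((ZMod.val_eq_zero x).mp h)
    omega
  · intro j hj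
    rw [mem_Icc] at hj
    rw [natCast_val_eq_mod, Nat.mod_eq_of_lt (by omega)]
  · intro x _
    simp
  · intro j hj
    rw [mem_Icc] at hj
    rw [natCast_val_eq_mod, Nat.mod_eq_of_lt (by omega)]

/-- the double sum of the problem in terms of odd numbers -/
theorem start_eq (hp : Odd p) :
    ((∑ h ∈ Icc 1 (p - 1), ∑ j ∈ Icc 1 (p - 1), (-1 : ℤ) ^ (j + 1 + h * j / p) : ℤ) : ℝ) =
      2 * ∑ h ∈ H p, ∑ j ∈ H p, Phi ((h : ZMod p) * (j : ZMod p)) := by
  push_cast
  have hpos : 0 < p := (Fact.out : p.Prime).pos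
  -- inner sums
  have hodd : ∀ h ∈ Icc 1 (p - 1), Odd h →
      ∑ j ∈ Icc 1 (p - 1), (-1 : ℝ) ^ (j + 1 + h * j / p) = 0 := by
    intro h hh ho
    rw [mem_Icc] at hh
    have e1 : ∀ j ∈ Icc 1 (p - 1), (-1 : ℝ) ^ (j + 1 + h * j / p) =
        Phi ((h : ZMod p) * (j : ZMod p)) := by
      intro j _
      rw [term_eq hp, Even.neg_one_pow (by
        apply Even.mul_left
        exact ho.add_one), one_mul]
    rw [sum_congr rfl e1, sum_Icc_eq (fun j => Phi ((h : ZMod p) * (j : ZMod p)))]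
    have h0 : (h : ZMod p) ≠ 0 := by
      intro h0
      rw [ZMod.natCast_eq_zero_iff] at h0
      have := Nat.le_of_dvd (by omega) h0
      omega
    have e2 : ∑ x : ZMod p, (if x = 0 then 0 else Phi ((h : ZMod p) * ((x.val : ℕ) : ZMod p))) =
        - ∑ x : ZMod p, (if x = 0 then 0 else Phi ((h : ZMod p) * ((x.val : ℕ) : ZMod p))) := by
      rw [← sum_neg_distrib]
      apply Fintype.sum_equiv (Equiv.neg (ZMod p))
      intro x
      simp only [Equiv.neg_apply, neg_eq_zero, ZMod.natCast_val, ZMod.cast_id', id_eq]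
      by_cases hx : x = 0
      · simp [hx]
      · rw [if_neg hx, if_neg hx, mul_neg, Phi_neg hp (mul_ne_zero h0 hx)]; ring
    linarith
  have heven : ∀ h ∈ Icc 1 (p - 1), ¬ Odd h →
      ∑ j ∈ Icc 1 (p - 1), (-1 : ℝ) ^ (j + 1 + h * j / p) =
      - (2 * ∑ j ∈ H p, Phi ((h : ZMod p) * (j : ZMod p))) := by
    intro h hh ho
    rw [mem_Icc] at hh
    have h0 : (h : ZMod p) ≠ 0 := by
      intro h0
      rw [ZMod.natCast_eq_zero_iff] at h0
      have := Nat.le_of_dvd (by omega) h0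
      omega
    have e1 : ∀ j ∈ Icc 1 (p - 1), (-1 : ℝ) ^ (j + 1 + h * j / p) =
        - (Phi (j : ZMod p) * Phi ((h : ZMod p) * (j : ZMod p))) := by
      intro j hj
      rw [mem_Icc] at hj
      rw [term_eq hp]
      have e3 : (-1 : ℝ) ^ (j * (h + 1)) = - Phi (j : ZMod p) := by
        rw [Phi_eq_pow, natCast_val_eq_mod, Nat.mod_eq_of_lt (by omega), neg_neg]
        obtain ⟨s, hs⟩ := (Nat.not_odd_iff_even.mp ho)
        rw [show j * (h + 1) = j + 2 * (j * s) by rw [hs]; ring, pow_add, pow_mul]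
        norm_num
      rw [e3]; ring
    rw [sum_congr rfl e1, sum_neg_distrib,
      sum_Icc_eq (fun j => Phi (j : ZMod p) * Phi ((h : ZMod p) * (j : ZMod p)))]
    congr 1
    have := sum_even hp (fun x : ZMod p => if x = 0 then 0 else
      Phi (((x.val : ℕ) : ZMod p)) * Phi ((h : ZMod p) * ((x.val : ℕ) : ZMod p))) (by
        intro x hx
        simp only [neg_eq_zero, ZMod.natCast_val, ZMod.cast_id', id_eq]
        rw [if_neg hx, if_neg hx, Phi_neg hp hx, mul_neg, Phi_neg hp (mul_ne_zero h0 hx)]; ring) (by simp)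
    rw [this]
    congr 1
    apply sum_congr rfl
    intro j hj
    rw [if_neg (cast_H_ne_zero hj), val_cast_H hj, Phi_H hj, one_mul]
  -- outer sum
  have e4 : ∑ h ∈ Icc 1 (p - 1), ∑ j ∈ Icc 1 (p - 1), (-1 : ℝ) ^ (j + 1 + h * j / p) =
      ∑ h ∈ (Icc 1 (p - 1)).filter (fun h => ¬ Odd h),
        - (2 * ∑ j ∈ H p, Phi ((h : ZMod p) * (j : ZMod p))) := by
    rw [← sum_filter_add_sum_filter_not (Icc 1 (p - 1)) Odd]
    rw [sum_eq_zero (s := (Icc 1 (p - 1)).filter Odd), zero_add]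
    · apply sum_congr rfl
      intro h hh
      rw [mem_filter] at hh
      exact heven h hh.1 hh.2
    · intro h hh
      rw [mem_filter] at hh
      exact hodd h hh.1 hh.2
  rw [e4, mul_sum]
  apply sum_nbij' (fun h => p - h) (fun h => p - h)
  · intro h hh
    rw [mem_filter, mem_Icc] at hh
    rw [mem_H]
    refine ⟨by omega, ?_⟩
    rw [Nat.odd_sub (by omega)]
    exact ⟨fun _ => Nat.not_odd_iff_even.mp hh.2, fun _ => hp⟩
  · intro h hh
    rw [mem_H] at hh
    rw [mem_filter, mem_Icc]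
    have := hh.2.pos
    refine ⟨by omega, ?_⟩
    rw [Nat.odd_sub (by omega)]
    intro h'
    exact (Nat.not_even_iff_odd.mpr hh.2) (h'.mp hp)
  · intro h hh
    rw [mem_filter, mem_Icc] at hh
    omega
  · intro h hh
    rw [mem_H] at hh
    omega
  · intro h hh
    rw [mem_filter, mem_Icc] at hh
    rw [← mul_neg, ← sum_neg_distrib]
    congr 1
    apply sum_congr rfl
    intro j hj
    rw [← Phi_neg hp]
    · congr 1
      rw [Nat.cast_sub (by omega)]
      simp
    · apply mul_ne_zero _ (cast_H_ne_zero hj)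
      intro h0
      rw [ZMod.natCast_eq_zero_iff] at h0
      have := Nat.le_of_dvd (by omega) h0
      omega

end Pool.Agent.Helper42
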