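import Mathlib
import Pool.Agent.Helper42.PartA
import Pool.Agent.Helper42.Start

open Finset

namespace Pool.Agent.Helper42

variable {p : ℕ} [Fact p.Prime]

lemma sum_cc_ge {N : ℕ} (hN : p = 2 * N + 1) :
    (p : ℝ) / 4 * (Real.log p - 5) ≤ ∑ r ∈ H p, cc p r := by
  have hp1 : 1 < p := (Fact.out : p.Prime).one_lt
  have h1 : ∑ r ∈ H p, ((p : ℝ) / (2 * r) - 2) ≤ ∑ r ∈ H p, cc p r := by
    apply sum_le_sum
    intro r hr
    rw [mem_H] at hr
    obtain ⟨c, hc⟩ := hr.2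
    exact cc_ge (by omega) hr.1.le
  refine le_trans ?_ h1
  have e := sum_H (N := N) (fun r => ((p : ℝ) / (2 * r) - 2))
  rw [← hN] at e
  rw [e, sum_sub_distrib, sum_const, card_range, nsmul_eq_mul]
  have hNp : (N : ℝ) * 2 ≤ p := by
    rw [hN]; push_cast; linarith
  have h2 : (p : ℝ) / 4 * ∑ i ∈ range N, (1 / ((i : ℝ) + 1)) ≤
      ∑ i ∈ range N, (p : ℝ) / (2 * ((2 * i + 1 : ℕ) : ℝ)) := by
    rw [mul_sum]
    apply sum_le_sum
    intro i _
    have hp0 : (0 : ℝ) < p := by positivity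
    rw [div_mul_div_comm, mul_one]
    apply div_le_div_of_nonneg_left hp0.le (by positivity)
    push_cast
    linarith
  have h3 : Real.log ((N + 1 : ℕ) : ℝ) ≤ ∑ i ∈ range N, (1 / ((i : ℝ) + 1)) := by
    have := log_add_one_le_harmonic N
    rw [harmonic] at this
    push_cast at this
    push_cast
    simpa [one_div] using this
  have h4 : Real.log p - Real.log 2 ≤ Real.log ((N + 1 : ℕ) : ℝ) := by
    have hp0 : (0 : ℝ) < p := by positivity
    rw [← Real.log_div hp0.ne' (by norm_num)]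
    apply Real.log_le_log (by positivity)
    rw [div_le_iff₀ (by norm_num)]
    rw [hN]; push_cast; linarith
  have h5 := Real.log_two_lt_d9
  have hp0 : (0 : ℝ) < p := by positivity
  have h6 : (p : ℝ) / 4 * (Real.log p - 1) ≤ (p : ℝ) / 4 * ∑ i ∈ range N, (1 / ((i : ℝ) + 1)) := by
    apply mul_le_mul_of_nonneg_left _ (by positivity)
    linarith
  nlinarith

/-- lower bound for the double sum -/
theorem assembly {N i0 J K0 K1 K2 j : ℕ} (hN : p = 2 * N + 1) (hi : i0 ≤ N) (hi0 : 0 < i0)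
    (hK : 1 ≤ K0) (h01 : K0 ≤ K1) (h12 : K1 ≤ K2)
    (hL : 80 * (K2 : ℝ) ^ 2 ≤ Real.log p) (hj : 1 ≤ j) (hjK : j ≤ K0)
    (hm1 : 2 * (j : ℝ) ≤ ∑ q ∈ QS p K0 K1, (1 / (q : ℝ)))
    (hm2 : 2 * (j : ℝ) ≤ ∑ q ∈ QS p K1 K2, (1 / (q : ℝ))) :
    2 * (p : ℝ) * ((Real.log p - 5) / 16 - (1 + AM p K0 K2 j) * (1 + Real.log ((2 * i0 : ℕ) : ℝ)) -
      (1 + 40 * (1 + Real.log p) ^ 2 * ZZ p J / ((2 * i0 : ℕ) : ℝ) +
      (1 + Real.log p) ^ 3 / 2 ^ J)) ≤
    ((∑ h ∈ Icc 1 (p - 1), ∑ j ∈ Icc 1 (p - 1), (-1 : ℤ) ^ (j + 1 + h * j / p) : ℤ) : ℝ) := by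
  have hodd : Odd p := ⟨N, hN⟩
  have hp1 : 1 < p := (Fact.out : p.Prime).one_lt
  have hp0 : (0 : ℝ) < p := by positivity
  have hK01 : (1 : ℝ) ≤ K0 := by exact_mod_cast hK
  have hK02 : (K0 : ℝ) ≤ K2 := by exact_mod_cast h01.trans h12
  have hK2 : (1 : ℝ) ≤ K2 := hK01.trans hK02
  have hL80 : 80 ≤ Real.log p := by nlinarith
  have hp8 : (8 : ℝ) ≤ p := by
    have := Real.log_le_sub_one_of_pos hp0
    linarith
  rw [start_eq hodd, sum_Phi_eq hodd]
  -- the inner sums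
  set hh : ℕ → ℝ := fun m => ∑ r ∈ H p, cc p r * Phi ((r : ZMod p) * (m : ZMod p)⁻¹) with hhh
  have hsplit : ∀ m, hh m = ∑ i ∈ range i0, cc p (2 * i + 1) * sg p m i + GG p i0 N m := by
    intro m
    have e := sum_H (N := N) (fun r => cc p r * Phi ((r : ZMod p) * (m : ZMod p)⁻¹))
    rw [← hN] at e
    rw [hhh]
    simp only
    rw [e, GG, Finset.range_eq_Ico, Finset.range_eq_Ico]
    exact (Finset.sum_Ico_consecutive (fun i => cc p (2 * i + 1) * sg p m i) (Nat.zero_le _) hi).symm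
  have h1H : 1 ∈ H p := by
    rw [mem_H]; exact ⟨hp1, odd_one⟩
  have hW : ∑ m ∈ H p, cc p m * hh m = cc p 1 * hh 1 +
      (∑ m ∈ (H p).filter (fun m => m ≠ 1), cc p m * (∑ i ∈ range i0, cc p (2 * i + 1) * sg p m i) +
      ∑ m ∈ (H p).filter (fun m => m ≠ 1), cc p m * GG p i0 N m) := by
    rw [← Finset.sum_filter_add_sum_filter_not (H p) (fun m => m = 1)]
    have e1 : (H p).filter (fun m => m = 1) = {1} := by
      ext m
      rw [mem_filter, mem_singleton]
      exact ⟨fun h => h.2, fun h => ⟨h ▸ h1H, h⟩⟩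
    rw [e1, sum_singleton, ← sum_add_distrib]
    congr 1
    apply sum_congr rfl
    intro m _
    rw [hsplit m]; ring
  -- main term
  have hmain : (p : ℝ) ^ 2 * ((Real.log p - 5) / 16) ≤ cc p 1 * hh 1 := by
    have e1 : hh 1 = ∑ r ∈ H p, cc p r := by
      rw [hhh]
      apply sum_congr rfl
      intro r hr
      rw [Nat.cast_one, inv_one, mul_one, Phi_H hr, mul_one]
    rw [e1]
    have h1 := sum_cc_ge hN
    have h2 : (p : ℝ) / 4 ≤ cc p 1 := by
      have := cc_ge (p := p) (n := 1) one_pos hp1.le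
      rw [Nat.cast_one, mul_one] at this
      linarith
    calc (p : ℝ) ^ 2 * ((Real.log p - 5) / 16) = (p : ℝ) / 4 * (p / 4 * (Real.log p - 5)) := by ring
      _ ≤ cc p 1 * ∑ r ∈ H p, cc p r := by
        apply mul_le_mul h2 h1 _ (by linarith)
        apply mul_nonneg (by positivity)
        linarith
  -- middle part
  have hAM := AM_nonneg p K0 K2 j
  have hmid : - ((p : ℝ) ^ 2 * ((1 + AM p K0 K2 j) * (1 + Real.log ((2 * i0 : ℕ) : ℝ)))) ≤
      ∑ m ∈ (H p).filter (fun m => m ≠ 1), cc p m * (∑ i ∈ range i0, cc p (2 * i + 1) * sg p m i) := by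
    have hcomm : ∑ m ∈ (H p).filter (fun m => m ≠ 1),
        cc p m * (∑ i ∈ range i0, cc p (2 * i + 1) * sg p m i) =
        ∑ i ∈ range i0, cc p (2 * i + 1) *
          ∑ m ∈ (H p).filter (fun m => m ≠ 1), cc p m * sg p m i := by
      simp only [mul_sum]
      rw [sum_comm]
      apply sum_congr rfl
      intro i _
      apply sum_congr rfl
      intro m _
      ring
    rw [hcomm]
    have hterm : ∀ i ∈ range i0, - (p * (1 / ((2 * i + 1 : ℕ) : ℝ)) * (p * (1 + AM p K0 K2 j))) ≤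
        cc p (2 * i + 1) * ∑ m ∈ (H p).filter (fun m => m ≠ 1), cc p m * sg p m i := by
      intro i hi'
      rw [mem_range] at hi'
      have hiH : 2 * i + 1 ∈ H p := by
        rw [mem_H]; exact ⟨by omega, ⟨i, rfl⟩⟩
      have e1 : ∑ m ∈ H p, cc p m * sg p m i = cc p 1 * sg p 1 i +
          ∑ m ∈ (H p).filter (fun m => m ≠ 1), cc p m * sg p m i := by
        rw [← Finset.sum_filter_add_sum_filter_not (H p) (fun m => m = 1)]
        have e1 : (H p).filter (fun m => m = 1) = {1} := by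
          ext m
          rw [mem_filter, mem_singleton]
          exact ⟨fun h => h.2, fun h => ⟨h ▸ h1H, h⟩⟩
        rw [e1, sum_singleton]
      have hA := partA hK h01 h12 hodd hL hj hjK hm1 hm2 (r := ((2 * i + 1 : ℕ) : ZMod p))
        (cast_H_ne_zero hiH)
      have hA' : |∑ m ∈ H p, cc p m * sg p m i| ≤ p * AM p K0 K2 j := hA
      have hc1 : cc p 1 ≤ p := by
        have := cc_le (p := p) (n := 1) one_pos hp1.le
        simpa using this
      have hc10 : 0 ≤ cc p 1 := cc_nonneg one_pos hp1.le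
      have hsg : |sg p 1 i| = 1 := abs_Phi _
      have hB : |∑ m ∈ (H p).filter (fun m => m ≠ 1), cc p m * sg p m i| ≤
          p * (1 + AM p K0 K2 j) := by
        have e2 : ∑ m ∈ (H p).filter (fun m => m ≠ 1), cc p m * sg p m i =
            ∑ m ∈ H p, cc p m * sg p m i - cc p 1 * sg p 1 i := by
          rw [e1]; ring
        rw [e2]
        calc _ ≤ |∑ m ∈ H p, cc p m * sg p m i| + |cc p 1 * sg p 1 i| := abs_sub _ _
          _ ≤ p * AM p K0 K2 j + p := by
              rw [abs_mul, hsg, mul_one, abs_of_nonneg hc10]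
              linarith
          _ = _ := by ring
      have hci : cc p (2 * i + 1) ≤ p * (1 / ((2 * i + 1 : ℕ) : ℝ)) := by
        rw [mul_one_div]
        exact cc_le (by omega) (by omega)
      have hci0 : 0 ≤ cc p (2 * i + 1) := cc_nonneg (by omega) (by omega)
      have habs : |cc p (2 * i + 1) * ∑ m ∈ (H p).filter (fun m => m ≠ 1), cc p m * sg p m i| ≤
          p * (1 / ((2 * i + 1 : ℕ) : ℝ)) * (p * (1 + AM p K0 K2 j)) := by
        rw [abs_mul, abs_of_nonneg hci0]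
        apply mul_le_mul hci hB (abs_nonneg _) (by positivity)
      exact neg_le_of_abs_le habs
    refine le_trans ?_ (sum_le_sum hterm)
    rw [Finset.sum_neg_distrib, neg_le_neg_iff, ← sum_mul, ← mul_sum]
    have hsum : ∑ i ∈ range i0, (1 / ((2 * i + 1 : ℕ) : ℝ)) ≤ 1 + Real.log ((2 * i0 : ℕ) : ℝ) := by
      calc ∑ i ∈ range i0, (1 / ((2 * i + 1 : ℕ) : ℝ)) =
            ∑ m ∈ (Icc 1 (2 * i0)).filter Odd, (1 / (m : ℝ)) :=
            (sum_filter_odd (fun m => 1 / (m : ℝ)) i0).symm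
        _ ≤ ∑ m ∈ Icc 1 (2 * i0), (1 / (m : ℝ)) :=
            sum_le_sum_of_subset_of_nonneg (filter_subset _ _) (fun _ _ _ => by positivity)
        _ ≤ _ := sum_Icc_inv_le _
    calc ((p : ℝ) * ∑ i ∈ range i0, (1 / ((2 * i + 1 : ℕ) : ℝ))) * (p * (1 + AM p K0 K2 j)) ≤
        ((p : ℝ) * (1 + Real.log ((2 * i0 : ℕ) : ℝ))) * (p * (1 + AM p K0 K2 j)) := by
          apply mul_le_mul_of_nonneg_right _ (by positivity)
          exact mul_le_mul_of_nonneg_left hsum hp0.le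
      _ = _ := by ring
  have hB := partB (J := J) hN hi hi0
  rw [hW]
  have hcomb : (p : ℝ) ^ 2 * ((Real.log p - 5) / 16 -
      (1 + AM p K0 K2 j) * (1 + Real.log ((2 * i0 : ℕ) : ℝ)) -
      (1 + 40 * (1 + Real.log p) ^ 2 * ZZ p J / ((2 * i0 : ℕ) : ℝ) +
      (1 + Real.log p) ^ 3 / 2 ^ J)) ≤ cc p 1 * hh 1 +
      (∑ m ∈ (H p).filter (fun m => m ≠ 1), cc p m * (∑ i ∈ range i0, cc p (2 * i + 1) * sg p m i) +
      ∑ m ∈ (H p).filter (fun m => m ≠ 1), cc p m * GG p i0 N m) := by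
    linarith
  calc _ = 2 * (1 / (p : ℝ) * ((p : ℝ) ^ 2 * ((Real.log p - 5) / 16 -
      (1 + AM p K0 K2 j) * (1 + Real.log ((2 * i0 : ℕ) : ℝ)) -
      (1 + 40 * (1 + Real.log p) ^ 2 * ZZ p J / ((2 * i0 : ℕ) : ℝ) +
      (1 + Real.log p) ^ 3 / 2 ^ J)))) := by
        field_simp
    _ ≤ _ := by
        apply mul_le_mul_of_nonneg_left _ (by norm_num)
        apply mul_le_mul_of_nonneg_left hcomb (by positivity)

end Pool.Agent.Helper42
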