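import Pool.Agent.Helper42.Fourier2

open Finset

namespace Pool.Agent.Helper42

variable {p : ℕ} [Fact p.Prime]

/-- the quotient attached to `r / m` -/
def qt (p m r : ℕ) : ℕ := m * ((r : ZMod p) * (m : ZMod p)⁻¹).val / p

lemma qt_eq {m r : ℕ} (hm : m ∈ H p) (hr : r < p) :
    m * ((r : ZMod p) * (m : ZMod p)⁻¹).val = p * qt p m r + r := by
  have hm0 : (m : ZMod p) ≠ 0 := cast_H_ne_zero hm
  have h1 : ((m * ((r : ZMod p) * (m : ZMod p)⁻¹).val : ℕ) : ZMod p) = ((r : ℕ) : ZMod p) := by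
    rw [Nat.cast_mul, ZMod.natCast_val, ZMod.cast_id]
    field_simp
  rw [ZMod.natCast_eq_natCast_iff', Nat.mod_eq_of_lt hr] at h1
  have h2 := Nat.div_add_mod (m * ((r : ZMod p) * (m : ZMod p)⁻¹).val) p
  rw [h1] at h2
  rw [qt]; exact h2.symm

lemma qt_lt {m r : ℕ} (hm : m ∈ H p) : qt p m r < m := by
  have hpos : 0 < p := (Fact.out : p.Prime).pos
  rw [qt, Nat.div_lt_iff_lt_mul hpos]
  exact Nat.mul_lt_mul_of_pos_left (ZMod.val_lt _) (mem_H.mp hm).2.pos

lemma Phi_eq_qt (hp : Odd p) {m r : ℕ} (hm : m ∈ H p) (hr : r < p) (hro : Odd r) :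
    Phi ((r : ZMod p) * (m : ZMod p)⁻¹) = (-1 : ℝ) ^ qt p m r := by
  have h1 := qt_eq hm hr
  have hmo := (mem_H.mp hm).2
  rw [Phi]
  by_cases h : Odd ((r : ZMod p) * (m : ZMod p)⁻¹).val
  · rw [if_pos h]
    have h2 : Even (qt p m r) := by
      by_contra h3
      rw [Nat.not_even_iff_odd] at h3
      have h4 : Odd (p * qt p m r + r) := by rw [← h1]; exact hmo.mul h
      have h5 : Even (p * qt p m r + r) := (hp.mul h3).add_odd hro
      exact (Nat.not_even_iff_odd.mpr h4) h5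
    rw [h2.neg_one_pow]
  · rw [if_neg h]
    have h2 : Odd (qt p m r) := by
      by_contra h3
      rw [Nat.not_odd_iff_even] at h3
      have h4 : Even (p * qt p m r + r) := by
        rw [← h1]; exact (Nat.not_odd_iff_even.mp h).mul_left _
      have h5 : Odd (p * qt p m r + r) := (h3.mul_left _).add_odd hro
      exact (Nat.not_even_iff_odd.mpr h5) h4
    rw [h2.neg_one_pow]

lemma block_sum (hp : Odd p) {m i0 : ℕ} (hm : m ∈ H p) (hi : 2 * (i0 + m) ≤ p) :
    ∑ i ∈ Ico i0 (i0 + m), Phi (((2 * i + 1 : ℕ) : ZMod p) * (m : ZMod p)⁻¹) = 1 := by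
  have hmo := (mem_H.mp hm).2
  have hlt : ∀ j < m, 2 * (i0 + j) + 1 < p := by
    intro j hj
    obtain ⟨N, hN⟩ := hp
    omega
  rw [sum_Ico_eq_sum_range, Nat.add_sub_cancel_left]
  have e1 : ∀ j ∈ range m, Phi (((2 * (i0 + j) + 1 : ℕ) : ZMod p) * (m : ZMod p)⁻¹) =
      (-1 : ℝ) ^ qt p m (2 * (i0 + j) + 1) := by
    intro j hj
    rw [mem_range] at hj
    exact Phi_eq_qt hp hm (hlt j hj) ⟨_, rfl⟩
  rw [sum_congr rfl e1]
  have hinj : Set.InjOn (fun j => qt p m (2 * (i0 + j) + 1)) (range m : Finset ℕ) := by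
    intro j hj j' hj' hjj
    simp only [coe_range, Set.mem_Iio] at hj hj'
    simp only at hjj
    have h1 := qt_eq hm (hlt j hj)
    have h2 := qt_eq hm (hlt j' hj')
    rw [hjj] at h1
    set v := (((2 * (i0 + j) + 1 : ℕ) : ZMod p) * (m : ZMod p)⁻¹).val
    set v' := (((2 * (i0 + j') + 1 : ℕ) : ZMod p) * (m : ZMod p)⁻¹).val
    have h3 : (m : ℤ) * ((v : ℤ) - v') = 2 * ((j : ℤ) - j') := by
      have a1 : (m : ℤ) * v = p * (qt p m (2 * (i0 + j') + 1) : ℕ) + (2 * (i0 + j) + 1) := by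
        exact_mod_cast h1
      have a2 : (m : ℤ) * v' = p * (qt p m (2 * (i0 + j') + 1) : ℕ) + (2 * (i0 + j') + 1) := by
        exact_mod_cast h2
      linear_combination a1 - a2
    have h4 : (m : ℤ) ∣ 2 * ((j : ℤ) - j') := ⟨_, h3.symm⟩
    have h5 : IsCoprime (m : ℤ) 2 := by
      rw [Int.isCoprime_iff_gcd_eq_one]
      have : Nat.gcd m 2 = 1 := by
        rw [Nat.gcd_comm]; exact (Nat.coprime_two_left).mpr hmo
      exact_mod_cast this
    have h6 := h5.dvd_of_dvd_mul_left h4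
    have h7 : (j : ℤ) - j' = 0 := by
      apply Int.eq_zero_of_abs_lt_dvd h6
      rw [abs_lt]
      constructor <;> omega
    omega
  have himg : (range m).image (fun j => qt p m (2 * (i0 + j) + 1)) = range m := by
    apply eq_of_subset_of_card_le
    · intro t ht
      rw [mem_image] at ht
      obtain ⟨j, -, rfl⟩ := ht
      rw [mem_range]
      exact qt_lt hm
    · rw [card_image_of_injOn hinj]
  rw [← sum_image (s := range m) (g := fun j => qt p m (2 * (i0 + j) + 1))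
    (f := fun t => (-1 : ℝ) ^ t) hinj, himg, neg_one_geom_sum]
  rw [if_neg (Nat.not_even_iff_odd.mpr hmo)]

/-- the partial sums are bounded below -/
theorem block_lower (hp : Odd p) {m : ℕ} (hm : m ∈ H p) :
    ∀ n i0 : ℕ, 2 * (i0 + n) ≤ p →
      -(m : ℝ) ≤ ∑ i ∈ Ico i0 (i0 + n), Phi (((2 * i + 1 : ℕ) : ZMod p) * (m : ZMod p)⁻¹) := by
  have hmpos := (mem_H.mp hm).2.pos
  intro n
  induction n using Nat.strong_induction_on with
  | _ n ih =>
    intro i0 hi
    rcases lt_or_ge n m with h | h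
    · have h1 : ∀ i ∈ Ico i0 (i0 + n), (-1 : ℝ) ≤ Phi (((2 * i + 1 : ℕ) : ZMod p) * (m : ZMod p)⁻¹) := by
        intro i _
        have := abs_Phi (((2 * i + 1 : ℕ) : ZMod p) * (m : ZMod p)⁻¹)
        exact (abs_le.mp this.le).1
      have h2 := sum_le_sum h1
      rw [sum_const, Nat.card_Ico, Nat.add_sub_cancel_left, nsmul_eq_mul] at h2
      have h3 : (n : ℝ) ≤ m := by exact_mod_cast h.le
      linarith
    · rw [← sum_Ico_consecutive _ (show i0 ≤ i0 + m by omega) (show i0 + m ≤ i0 + n by omega)]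
      rw [block_sum hp hm (by omega)]
      have h1 := ih (n - m) (by omega) (i0 + m) (by omega)
      rw [show i0 + m + (n - m) = i0 + n by omega] at h1
      linarith

end Pool.Agent.Helper42
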