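import Pool.Agent.Helper42.Perm

open Finset

namespace Pool.Agent.Helper42

/-- Sums of reciprocals of primes larger than the number of summands determine the
multiplicities. -/
theorem recip_count {k : ℕ} {u u' : Fin k → ℕ} (hu : ∀ i, (u i).Prime) (hu' : ∀ i, (u' i).Prime)
    (hk : ∀ i, k < u i) (hk' : ∀ i, k < u' i)
    (heq : ∑ i, (1 : ℚ) / u i = ∑ i, (1 : ℚ) / u' i) (c : ℕ) :
    (univ.filter (fun i => u i = c)).card = (univ.filter (fun i => u' i = c)).card := by
  classical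
  by_cases hc : (∃ i, u i = c) ∨ (∃ i, u' i = c)
  swap
  · push Not at hc
    rw [filter_false_of_mem (fun i _ => hc.1 i), filter_false_of_mem (fun i _ => hc.2 i)]
  have hcp : c.Prime := by
    rcases hc with ⟨i, hi⟩ | ⟨i, hi⟩
    · rw [← hi]; exact hu i
    · rw [← hi]; exact hu' i
  have hkc : k < c := by
    rcases hc with ⟨i, hi⟩ | ⟨i, hi⟩
    · rw [← hi]; exact hk i
    · rw [← hi]; exact hk' i
  set A := univ.filter (fun i => u i = c) with hA
  set A' := univ.filter (fun i => u' i = c) with hA'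
  set B := univ.filter (fun i => ¬ u i = c) with hB
  set B' := univ.filter (fun i => ¬ u' i = c) with hB'
  set D : ℕ := (∏ i ∈ B, u i) * (∏ i ∈ B', u' i) with hD
  set M : ℕ := ∑ i ∈ B, D / u i with hM
  set M' : ℕ := ∑ i ∈ B', D / u' i with hM'
  have hc0 : (c : ℚ) ≠ 0 := by exact_mod_cast hcp.ne_zero
  have hMq : (M : ℚ) = D * ∑ i ∈ B, (1 : ℚ) / u i := by
    rw [hM, Nat.cast_sum, mul_sum]
    apply sum_congr rfl
    intro i hi
    have hdvd : u i ∣ D := dvd_mul_of_dvd_left (dvd_prod_of_mem _ hi) _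
    have hne : (u i : ℚ) ≠ 0 := by exact_mod_cast (hu i).ne_zero
    rw [Nat.cast_div hdvd hne]
    field_simp
  have hMq' : (M' : ℚ) = D * ∑ i ∈ B', (1 : ℚ) / u' i := by
    rw [hM', Nat.cast_sum, mul_sum]
    apply sum_congr rfl
    intro i hi
    have hdvd : u' i ∣ D := dvd_mul_of_dvd_right (dvd_prod_of_mem _ hi) _
    have hne : (u' i : ℚ) ≠ 0 := by exact_mod_cast (hu' i).ne_zero
    rw [Nat.cast_div hdvd hne]
    field_simp
  have s1 : ∑ i, (1 : ℚ) / u i = A.card / c + ∑ i ∈ B, (1 : ℚ) / u i := by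
    rw [← sum_filter_add_sum_filter_not univ (fun i => u i = c)]
    congr 1
    rw [sum_congr rfl (g := fun _ => (1 : ℚ) / c)]
    · rw [sum_const, nsmul_eq_mul, mul_one_div]
    · intro i hi
      rw [(mem_filter.mp hi).2]
  have s2 : ∑ i, (1 : ℚ) / u' i = A'.card / c + ∑ i ∈ B', (1 : ℚ) / u' i := by
    rw [← sum_filter_add_sum_filter_not univ (fun i => u' i = c)]
    congr 1
    rw [sum_congr rfl (g := fun _ => (1 : ℚ) / c)]
    · rw [sum_const, nsmul_eq_mul, mul_one_div]
    · intro i hi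
      rw [(mem_filter.mp hi).2]
  have key : (((A.card : ℤ) - A'.card) * D : ℤ) = c * ((M' : ℤ) - M) := by
    have : ((((A.card : ℤ) - A'.card) * D : ℤ) : ℚ) = ((c * ((M' : ℤ) - M) : ℤ) : ℚ) := by
      push_cast
      rw [hMq, hMq']
      have h3 : (A.card : ℚ) / c + ∑ i ∈ B, (1 : ℚ) / u i =
          A'.card / c + ∑ i ∈ B', (1 : ℚ) / u' i := by rw [← s1, ← s2]; exact heq
      have h4 : (A.card : ℚ) + c * ∑ i ∈ B, (1 : ℚ) / u i =
          A'.card + c * ∑ i ∈ B', (1 : ℚ) / u' i := by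
        field_simp at h3
        linarith
      linear_combination (D : ℚ) * h4
    exact_mod_cast this
  have hcD : ¬ (c : ℤ) ∣ (D : ℤ) := by
    intro h
    have h' : c ∣ D := by exact_mod_cast h
    rw [hD, hcp.dvd_mul] at h'
    rcases h' with h' | h'
    · rw [(Nat.prime_iff.mp hcp).dvd_finset_prod_iff] at h'
      obtain ⟨i, hi, hdvd⟩ := h'
      have := (Nat.prime_dvd_prime_iff_eq hcp (hu i)).mp hdvd
      exact (mem_filter.mp hi).2 this.symm
    · rw [(Nat.prime_iff.mp hcp).dvd_finset_prod_iff] at h'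
      obtain ⟨i, hi, hdvd⟩ := h'
      have := (Nat.prime_dvd_prime_iff_eq hcp (hu' i)).mp hdvd
      exact (mem_filter.mp hi).2 this.symm
  have hdvd : (c : ℤ) ∣ ((A.card : ℤ) - A'.card) * D := ⟨_, key⟩
  have hdvd2 : (c : ℤ) ∣ ((A.card : ℤ) - A'.card) := by
    rcases (Nat.prime_iff_prime_int.mp hcp).dvd_or_dvd hdvd with h | h
    · exact h
    · exact absurd h hcD
  have hAk : A.card ≤ k := by
    calc A.card ≤ (univ : Finset (Fin k)).card := card_le_card (filter_subset _ _)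
      _ = k := by rw [card_univ, Fintype.card_fin]
  have hAk' : A'.card ≤ k := by
    calc A'.card ≤ (univ : Finset (Fin k)).card := card_le_card (filter_subset _ _)
      _ = k := by rw [card_univ, Fintype.card_fin]
  have hzero : ((A.card : ℤ) - A'.card) = 0 := by
    apply Int.eq_zero_of_abs_lt_dvd hdvd2
    rw [abs_lt]
    constructor <;> omega
  omega

/-- The key arithmetic fact: coincidences modulo `p` between sums of `k` reciprocals of primes
in `(k, B]` are only rearrangements when `k * B ^ (2 * k - 1) < p`. -/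
theorem recip_perm {p : ℕ} [Fact p.Prime] {k B : ℕ} (hkB : k * B ^ (2 * k - 1) < p)
    {u u' : Fin k → ℕ} (hu : ∀ i, (u i).Prime) (hu' : ∀ i, (u' i).Prime)
    (hk : ∀ i, k < u i) (hk' : ∀ i, k < u' i) (hB : ∀ i, u i ≤ B) (hB' : ∀ i, u' i ≤ B)
    (hBp : B < p)
    (heq : ∑ i, ((u i : ZMod p))⁻¹ = ∑ i, ((u' i : ZMod p))⁻¹) :
    ∃ σ : Equiv.Perm (Fin k), u' = u ∘ σ := by
  classical
  set P : ℕ := (∏ i, u i) * (∏ i, u' i) with hP
  have hdu : ∀ i, u i ∣ P := fun i => dvd_mul_of_dvd_left (dvd_prod_of_mem _ (mem_univ i)) _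
  have hdu' : ∀ i, u' i ∣ P := fun i => dvd_mul_of_dvd_right (dvd_prod_of_mem _ (mem_univ i)) _
  have hz : ∀ n : ℕ, n.Prime → n ≤ B → (n : ZMod p) ≠ 0 := by
    intro n hn hnB h
    rw [ZMod.natCast_eq_zero_iff] at h
    have := Nat.le_of_dvd hn.pos h
    omega
  have hbound : ∀ i, P / u i ≤ B ^ (2 * k - 1) := by
    intro i
    have hkpos : 0 < k := i.pos
    have e1 : P = u i * ((∏ j ∈ univ.erase i, u j) * ∏ j, u' j) := by
      rw [hP, ← mul_assoc, mul_prod_erase univ u (mem_univ i)]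
    rw [e1, Nat.mul_div_cancel_left _ (hu i).pos]
    calc (∏ j ∈ univ.erase i, u j) * ∏ j, u' j ≤ B ^ (univ.erase i).card * B ^ (univ : Finset (Fin k)).card := by
          apply Nat.mul_le_mul
          · exact prod_le_pow_card _ _ _ (fun j _ => hB j)
          · exact prod_le_pow_card _ _ _ (fun j _ => hB' j)
      _ = B ^ (2 * k - 1) := by
          rw [card_erase_of_mem (mem_univ i), card_univ, Fintype.card_fin, ← pow_add]
          congr 1
          omega
  have hbound' : ∀ i, P / u' i ≤ B ^ (2 * k - 1) := by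
    intro i
    have hkpos : 0 < k := i.pos
    have e1 : P = u' i * ((∏ j, u j) * ∏ j ∈ univ.erase i, u' j) := by
      rw [hP, ← mul_prod_erase univ u' (mem_univ i)]; ring
    rw [e1, Nat.mul_div_cancel_left _ (hu' i).pos]
    calc (∏ j, u j) * ∏ j ∈ univ.erase i, u' j ≤ B ^ (univ : Finset (Fin k)).card * B ^ (univ.erase i).card := by
          apply Nat.mul_le_mul
          · exact prod_le_pow_card _ _ _ (fun j _ => hB j)
          · exact prod_le_pow_card _ _ _ (fun j _ => hB' j)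
      _ = B ^ (2 * k - 1) := by
          rw [card_erase_of_mem (mem_univ i), card_univ, Fintype.card_fin, ← pow_add]
          congr 1
          omega
  have hs1 : ∑ i, P / u i < p := by
    calc ∑ i, P / u i ≤ ∑ _i : Fin k, B ^ (2 * k - 1) := sum_le_sum (fun i _ => hbound i)
      _ = k * B ^ (2 * k - 1) := by simp
      _ < p := hkB
  have hs2 : ∑ i, P / u' i < p := by
    calc ∑ i, P / u' i ≤ ∑ _i : Fin k, B ^ (2 * k - 1) := sum_le_sum (fun i _ => hbound' i)
      _ = k * B ^ (2 * k - 1) := by simp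
      _ < p := hkB
  have hcast : ∀ n : ℕ, n ∣ P → (n : ZMod p) ≠ 0 → ((P / n : ℕ) : ZMod p) = P * (n : ZMod p)⁻¹ := by
    intro n hn hne
    obtain ⟨t, ht⟩ := hn
    have hnpos : 0 < n := by
      rcases Nat.eq_zero_or_pos n with h | h
      · exact absurd (by rw [h]; simp) hne
      · exact h
    rw [ht, Nat.mul_div_cancel_left _ hnpos, Nat.cast_mul]
    field_simp
  have hmod : ((∑ i, P / u i : ℕ) : ZMod p) = ((∑ i, P / u' i : ℕ) : ZMod p) := by
    rw [Nat.cast_sum, Nat.cast_sum]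
    rw [sum_congr rfl (fun i _ => hcast (u i) (hdu i) (hz _ (hu i) (hB i)))]
    rw [sum_congr rfl (fun i _ => hcast (u' i) (hdu' i) (hz _ (hu' i) (hB' i)))]
    rw [← mul_sum, ← mul_sum, heq]
  have hnat : ∑ i, P / u i = ∑ i, P / u' i := by
    rw [ZMod.natCast_eq_natCast_iff'] at hmod
    rwa [Nat.mod_eq_of_lt hs1, Nat.mod_eq_of_lt hs2] at hmod
  have hP0 : (P : ℚ) ≠ 0 := by
    have : P ≠ 0 := by
      rw [hP]
      apply mul_ne_zero
      · exact prod_ne_zero_iff.mpr (fun i _ => (hu i).ne_zero)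
      · exact prod_ne_zero_iff.mpr (fun i _ => (hu' i).ne_zero)
    exact_mod_cast this
  have hrat : ∑ i, (1 : ℚ) / u i = ∑ i, (1 : ℚ) / u' i := by
    have h1 : (P : ℚ) * ∑ i, (1 : ℚ) / u i = ((∑ i, P / u i : ℕ) : ℚ) := by
      rw [mul_sum, Nat.cast_sum]
      apply sum_congr rfl
      intro i _
      have hne : (u i : ℚ) ≠ 0 := by exact_mod_cast (hu i).ne_zero
      rw [Nat.cast_div (hdu i) hne]; field_simp
    have h2 : (P : ℚ) * ∑ i, (1 : ℚ) / u' i = ((∑ i, P / u' i : ℕ) : ℚ) := by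
      rw [mul_sum, Nat.cast_sum]
      apply sum_congr rfl
      intro i _
      have hne : (u' i : ℚ) ≠ 0 := by exact_mod_cast (hu' i).ne_zero
      rw [Nat.cast_div (hdu' i) hne]; field_simp
    apply mul_left_cancel₀ hP0
    rw [h1, h2, hnat]
  obtain ⟨σ, hσ⟩ := exists_perm_of_count_eq (recip_count hu' hu hk' hk hrat.symm)
  exact ⟨σ, hσ.symm⟩

end Pool.Agent.Helper42
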