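import Mathlib

open Finset

namespace Pool.Agent.Helper42

/-- odd numbers below `p` -/
def H (p : ℕ) : Finset ℕ := (range p).filter Odd

/-- the cotangent weights -/
noncomputable def cc (p n : ℕ) : ℝ :=
  Real.cos (Real.pi * n / (2 * p)) / Real.sin (Real.pi * n / (2 * p))

/-- the parity sign of a residue class -/
def Phi {p : ℕ} (x : ZMod p) : ℝ := if Odd x.val then 1 else -1

lemma mem_H {p n : ℕ} : n ∈ H p ↔ n < p ∧ Odd n := by
  simp [H]

lemma sum_H {N : ℕ} {M : Type*} [AddCommMonoid M] (f : ℕ → M) :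
    ∑ j ∈ H (2 * N + 1), f j = ∑ i ∈ range N, f (2 * i + 1) := by
  symm
  apply sum_nbij (fun i => 2 * i + 1)
  · intro i hi
    simp only [mem_range] at hi
    rw [mem_H]
    exact ⟨by omega, ⟨i, rfl⟩⟩
  · intro i _ j _ h
    simp only at h
    omega
  · intro j hj
    rw [mem_coe, mem_H] at hj
    obtain ⟨h1, ⟨i, hi⟩⟩ := hj
    exact ⟨i, by simp only [coe_range, Set.mem_Iio]; omega, hi.symm⟩
  · intro i _
    rfl

lemma two_sin_sum (N : ℕ) (θ : ℝ) :
    2 * Real.sin θ * ∑ i ∈ range N, Real.sin ((2 * i + 1) * θ) = 1 - Real.cos (2 * N * θ) := by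
  induction N with
  | zero => simp
  | succ N ih =>
    rw [sum_range_succ, mul_add, ih]
    have e1 : Real.cos (2 * ((N + 1 : ℕ) : ℝ) * θ) =
        Real.cos ((2 * N + 1) * θ) * Real.cos θ - Real.sin ((2 * N + 1) * θ) * Real.sin θ := by
      rw [← Real.cos_add]; congr 1; push_cast; ring
    have e2 : Real.cos (2 * (N : ℝ) * θ) =
        Real.cos ((2 * N + 1) * θ) * Real.cos θ + Real.sin ((2 * N + 1) * θ) * Real.sin θ := by
      rw [← Real.cos_sub]; congr 1; ring
    rw [e1, e2]; ring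

lemma two_sin_cos_sum (N : ℕ) (θ : ℝ) :
    2 * Real.sin θ * ∑ i ∈ range N, Real.cos ((2 * i + 1) * θ) = Real.sin (2 * N * θ) := by
  induction N with
  | zero => simp
  | succ N ih =>
    rw [sum_range_succ, mul_add, ih]
    have e1 : Real.sin (2 * ((N + 1 : ℕ) : ℝ) * θ) =
        Real.sin ((2 * N + 1) * θ) * Real.cos θ + Real.cos ((2 * N + 1) * θ) * Real.sin θ := by
      rw [← Real.sin_add]; congr 1; push_cast; ring
    have e2 : Real.sin (2 * (N : ℝ) * θ) =
        Real.sin ((2 * N + 1) * θ) * Real.cos θ - Real.cos ((2 * N + 1) * θ) * Real.sin θ := by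
      rw [← Real.sin_sub]; congr 1; ring
    rw [e1, e2]; ring

lemma sin_ne_zero_of {p : ℕ} (hp : 0 < p) {y : ℤ} (hy : ¬ (p : ℤ) ∣ y) :
    Real.sin (Real.pi * y / p) ≠ 0 := by
  intro h
  rw [Real.sin_eq_zero_iff] at h
  obtain ⟨n, hn⟩ := h
  have hp' : (p : ℝ) ≠ 0 := by exact_mod_cast hp.ne'
  have h2 : (n : ℝ) * p = y := by
    field_simp at hn
    exact hn
  have h3 : n * (p : ℤ) = y := by exact_mod_cast h2
  exact hy ⟨n, by rw [← h3]; ring⟩

/-- (i') the sum of sines over odd frequencies -/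
lemma sum_H_sin {N : ℕ} {y : ℤ} (hy : Odd y) (hpy : ¬ ((2 * N + 1 : ℕ) : ℤ) ∣ y) :
    ∑ j ∈ H (2 * N + 1), Real.sin (Real.pi * (y * j) / (2 * N + 1 : ℕ)) =
      Real.cos (Real.pi * y / (2 * (2 * N + 1 : ℕ))) /
        Real.sin (Real.pi * y / (2 * (2 * N + 1 : ℕ))) / 2 := by
  rw [sum_H]
  set p : ℕ := 2 * N + 1 with hp
  have hp0 : (p : ℝ) ≠ 0 := by
    have : p ≠ 0 := by omega
    exact_mod_cast this
  set φ : ℝ := Real.pi * y / (2 * p) with hφ
  have hsin : Real.sin (2 * φ) ≠ 0 := by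
    have := sin_ne_zero_of (p := p) (by omega) hpy
    rwa [show 2 * φ = Real.pi * y / p by rw [hφ]; field_simp]
  have h1 := two_sin_sum N (2 * φ)
  have h2 : Real.cos (2 * N * (2 * φ)) = - Real.cos (2 * φ) := by
    have e : 2 * (N : ℝ) * (2 * φ) = y * Real.pi - 2 * φ := by
      have hN : (2 * (N : ℝ)) = p - 1 := by rw [hp]; push_cast; ring
      rw [hN, hφ]; field_simp
    rw [e, Real.cos_sub]
    obtain ⟨t, ht⟩ := hy
    have hc : Real.cos (y * Real.pi) = -1 := by
      rw [ht]; push_cast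
      rw [show (2 * (t : ℝ) + 1) * Real.pi = Real.pi + t * (2 * Real.pi) by ring,
        Real.cos_add_int_mul_two_pi, Real.cos_pi]
    have hs : Real.sin (y * Real.pi) = 0 := Real.sin_int_mul_pi y
    rw [hc, hs]; ring
  rw [h2] at h1
  have e3 : ∀ i ∈ range N, Real.sin (Real.pi * ((y : ℝ) * ((2 * i + 1 : ℕ) : ℝ)) / p) =
      Real.sin ((2 * i + 1) * (2 * φ)) := by
    intro i _
    congr 1
    rw [hφ]; push_cast; field_simp
  rw [sum_congr rfl e3]
  have hs2 : Real.sin (2 * φ) = 2 * Real.sin φ * Real.cos φ := Real.sin_two_mul φ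
  have hc2 : Real.cos (2 * φ) = 2 * Real.cos φ ^ 2 - 1 := Real.cos_two_mul φ
  have hsφ : Real.sin φ ≠ 0 := by
    intro h; apply hsin; rw [hs2, h]; ring
  have hcφ : Real.cos φ ≠ 0 := by
    intro h; apply hsin; rw [hs2, h]; ring
  rw [hs2, hc2] at h1
  have h4 : (4 * Real.cos φ) * (Real.sin φ * ∑ i ∈ range N, Real.sin ((2 * i + 1) * (2 * φ))) =
      (4 * Real.cos φ) * (Real.cos φ / 2) := by
    linarith
  have h5 := mul_left_cancel₀ (mul_ne_zero four_ne_zero hcφ) h4
  rw [div_div, eq_div_iff (mul_ne_zero hsφ two_ne_zero)]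
  linarith

/-- sum of cosines over odd frequencies -/
lemma sum_H_cos {N : ℕ} {u : ℤ} (hpu : ¬ ((2 * N + 1 : ℕ) : ℤ) ∣ u) :
    ∑ n ∈ H (2 * N + 1), Real.cos (Real.pi * (n * (2 * u)) / (2 * N + 1 : ℕ)) = - (1 / 2) := by
  rw [sum_H]
  set p : ℕ := 2 * N + 1 with hp
  have hp0 : (p : ℝ) ≠ 0 := by
    have : p ≠ 0 := by omega
    exact_mod_cast this
  set θ : ℝ := Real.pi * ((2 * u : ℤ) : ℝ) / p with hθ
  have hsin : Real.sin θ ≠ 0 := by
    apply sin_ne_zero_of (by omega)
    intro h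
    apply hpu
    have hcop : IsCoprime ((p : ℤ)) 2 := by
      rw [Int.isCoprime_iff_gcd_eq_one]
      have : Nat.gcd p 2 = 1 := by
        rw [hp]
        simp
      exact_mod_cast this
    exact hcop.dvd_of_dvd_mul_left h
  have h1 := two_sin_cos_sum N θ
  have h2 : Real.sin (2 * N * θ) = - Real.sin θ := by
    have e : 2 * (N : ℝ) * θ = u * (2 * Real.pi) - θ := by
      have hN : (2 * (N : ℝ)) = p - 1 := by rw [hp]; push_cast; ring
      rw [hN, hθ]; push_cast; field_simp
    rw [e, Real.sin_int_mul_two_pi_sub]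
  rw [h2] at h1
  have e3 : ∀ i ∈ range N, Real.cos (Real.pi * (((2 * i + 1 : ℕ) : ℝ) * (2 * u)) / p) =
      Real.cos ((2 * i + 1) * θ) := by
    intro i _
    congr 1
    rw [hθ]; push_cast; field_simp
  rw [sum_congr rfl e3]
  have h4 : Real.sin θ * (∑ i ∈ range N, Real.cos ((2 * i + 1) * θ)) =
      Real.sin θ * (- (1 / 2)) := by linarith
  exact mul_left_cancel₀ hsin h4

/-- orthogonality: the constant function on `H` -/
lemma sum_cc_sin {N : ℕ} {x : ℕ} (hx : x ∈ H (2 * N + 1)) :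
    ∑ n ∈ H (2 * N + 1), cc (2 * N + 1) n * Real.sin (Real.pi * (n * x) / (2 * N + 1 : ℕ)) =
      ((2 * N + 1 : ℕ) : ℝ) / 2 := by
  set p : ℕ := 2 * N + 1 with hp
  have hp0 : (p : ℝ) ≠ 0 := by
    have : p ≠ 0 := by omega
    exact_mod_cast this
  have hcc : ∀ n ∈ H p, cc p n = 2 * ∑ j ∈ H p, Real.sin (Real.pi * (n * j) / p) := by
    intro n hn
    rw [mem_H] at hn
    have h1 := sum_H_sin (N := N) (y := (n : ℤ)) (by exact_mod_cast hn.2) (by
      intro h
      have h' : p ∣ n := by exact_mod_cast h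
      have hpos : 0 < n := hn.2.pos
      have := Nat.le_of_dvd hpos h'
      omega)
    rw [← hp] at h1
    simp only [Int.cast_natCast] at h1
    rw [h1, cc]
    ring
  have e1 : ∀ n ∈ H p, cc p n * Real.sin (Real.pi * (n * x) / p) =
      ∑ j ∈ H p, (Real.cos (Real.pi * (n * ((j : ℝ) - x)) / p) -
        Real.cos (Real.pi * (n * ((j : ℝ) + x)) / p)) := by
    intro n hn
    rw [hcc n hn, mul_assoc, sum_mul, mul_sum]
    apply sum_congr rfl
    intro j _
    have a1 : Real.cos (Real.pi * (n * ((j : ℝ) - x)) / p) =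
        Real.cos (Real.pi * (n * j) / p) * Real.cos (Real.pi * (n * x) / p) +
        Real.sin (Real.pi * (n * j) / p) * Real.sin (Real.pi * (n * x) / p) := by
      rw [← Real.cos_sub]; congr 1; ring
    have a2 : Real.cos (Real.pi * (n * ((j : ℝ) + x)) / p) =
        Real.cos (Real.pi * (n * j) / p) * Real.cos (Real.pi * (n * x) / p) -
        Real.sin (Real.pi * (n * j) / p) * Real.sin (Real.pi * (n * x) / p) := by
      rw [← Real.cos_add]; congr 1; ring
    rw [a1, a2]; ring
  rw [sum_congr rfl e1, sum_comm]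
  have hx' := mem_H.mp hx
  have e2 : ∀ j ∈ H p, ∑ n ∈ H p, (Real.cos (Real.pi * (n * ((j : ℝ) - x)) / p) -
        Real.cos (Real.pi * (n * ((j : ℝ) + x)) / p)) =
        if j = x then ((p : ℝ) / 2) else 0 := by
    intro j hj
    have hj' := mem_H.mp hj
    obtain ⟨a, ha⟩ := hj'.2
    obtain ⟨b, hb⟩ := hx'.2
    rw [sum_sub_distrib]
    have c2 : ∑ n ∈ H p, Real.cos (Real.pi * (n * ((j : ℝ) + x)) / p) = -(1/2) := by
      have := sum_H_cos (N := N) (u := ((a + b + 1 : ℕ) : ℤ)) (by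
        intro h
        have h' : p ∣ (a + b + 1) := by exact_mod_cast h
        have := Nat.le_of_dvd (by omega) h'
        omega)
      rw [← hp] at this
      rw [← this]
      apply sum_congr rfl
      intro n _
      congr 1
      rw [ha, hb]; push_cast; ring
    rw [c2]
    by_cases hjx : j = x
    · rw [if_pos hjx, hjx]
      simp only [sub_self, mul_zero, zero_div, Real.cos_zero, sum_const, nsmul_eq_mul, mul_one]
      have hcard : (H p).card = N := by
        have := sum_H (N := N) (fun _ => 1)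
        rw [← hp] at this
        simpa using this
      rw [hcard, hp]; push_cast; ring
    · rw [if_neg hjx]
      have := sum_H_cos (N := N) (u := (a : ℤ) - b) (by
        intro h
        have h1 : (a : ℤ) - b = 0 := by
          apply Int.eq_zero_of_abs_lt_dvd h
          rw [abs_lt]
          constructor <;> push_cast <;> omega
        omega)
      rw [← hp] at this
      have c1 : ∑ n ∈ H p, Real.cos (Real.pi * (n * ((j : ℝ) - x)) / p) = -(1/2) := by
        rw [← this]
        apply sum_congr rfl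
        intro n _
        congr 1
        rw [ha, hb]; push_cast; ring
      rw [c1]; ring
  rw [sum_congr rfl e2, sum_ite_eq' (H p) x, if_pos hx]

end Pool.Agent.Helper42
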