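import Pool.Agent.Helper42.Fourier

open Finset

namespace Pool.Agent.Helper42

variable {p : ℕ} [Fact p.Prime]

lemma val_cast_H {h : ℕ} (hh : h ∈ H p) : ((h : ZMod p)).val = h :=
  ZMod.val_cast_of_lt (mem_H.mp hh).1

lemma cast_H_ne_zero {h : ℕ} (hh : h ∈ H p) : (h : ZMod p) ≠ 0 := by
  intro h0
  have h1 := mem_H.mp hh
  have h2 : p ∣ h := (ZMod.natCast_eq_zero_iff _ _).mp h0
  have := Nat.le_of_dvd h1.2.pos h2
  omega

lemma Phi_H {h : ℕ} (hh : h ∈ H p) : Phi ((h : ZMod p)) = 1 := by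
  rw [Phi, val_cast_H hh, if_pos (mem_H.mp hh).2]

lemma abs_Phi (x : ZMod p) : |Phi x| = 1 := by
  rw [Phi]; split_ifs <;> simp

lemma val_neg_parity (hp : Odd p) {x : ZMod p} (hx : x ≠ 0) : Odd (-x).val ↔ ¬ Odd x.val := by
  rw [ZMod.neg_val, if_neg hx]
  have h1 := ZMod.val_lt x
  rw [Nat.odd_sub h1.le]
  constructor
  · intro h h2
    have := h.mp hp
    exact (Nat.not_even_iff_odd.mpr h2) this
  · intro h
    exact ⟨fun _ => Nat.not_odd_iff_even.mp h, fun _ => hp⟩

lemma Phi_neg (hp : Odd p) {x : ZMod p} (hx : x ≠ 0) : Phi (-x) = - Phi x := by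
  rw [Phi, Phi]
  by_cases h : Odd x.val
  · rw [if_pos h, if_neg (by rw [val_neg_parity hp hx]; exact not_not.mpr h)]
  · rw [if_neg h, if_pos ((val_neg_parity hp hx).mpr h)]; simp

/-- the cotangent as a function on residues -/
noncomputable def ff (x : ZMod p) : ℝ := if Odd x.val then cc p x.val else - cc p (p - x.val)

lemma ff_neg (hp : Odd p) {x : ZMod p} (hx : x ≠ 0) : ff (-x) = - ff x := by
  rw [ff, ff]
  have h1 := ZMod.val_lt x
  have h2 : 0 < x.val := by
    rw [Nat.pos_iff_ne_zero]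
    intro h
    exact hx ((ZMod.val_eq_zero x).mp h)
  by_cases h : Odd x.val
  · rw [if_pos h, if_neg (by rw [val_neg_parity hp hx]; exact not_not.mpr h)]
    rw [ZMod.neg_val, if_neg hx]
    congr 2
    omega
  · rw [if_neg h, if_pos ((val_neg_parity hp hx).mpr h), ZMod.neg_val, if_neg hx]
    simp

lemma ff_H {h : ℕ} (hh : h ∈ H p) : ff ((h : ZMod p)) = cc p h := by
  rw [ff, val_cast_H hh, if_pos (mem_H.mp hh).2]

lemma sum_odd_val (g : ZMod p → ℝ) :
    ∑ x ∈ univ.filter (fun x : ZMod p => Odd x.val), g x = ∑ h ∈ H p, g (h : ZMod p) := by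
  apply sum_nbij' (fun x : ZMod p => x.val) (fun h : ℕ => (h : ZMod p))
  · intro x hx
    rw [mem_filter] at hx
    rw [mem_H]
    exact ⟨ZMod.val_lt x, hx.2⟩
  · intro h hh
    rw [mem_filter]
    refine ⟨mem_univ _, ?_⟩
    rw [val_cast_H hh]
    exact (mem_H.mp hh).2
  · intro x _
    simp
  · intro h hh
    exact val_cast_H hh
  · intro x _
    simp

/-- an even function summed over all residues -/
lemma sum_even (hp : Odd p) (g : ZMod p → ℝ) (hg : ∀ x, x ≠ 0 → g (-x) = g x) (h0 : g 0 = 0) :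
    ∑ x, g x = 2 * ∑ h ∈ H p, g (h : ZMod p) := by
  rw [← sum_filter_add_sum_filter_not univ (fun x : ZMod p => Odd x.val), two_mul,
    sum_odd_val g]
  congr 1
  rw [← sum_odd_val g]
  have e1 : ∑ x ∈ univ.filter (fun x : ZMod p => ¬ Odd x.val), g x =
      ∑ x ∈ univ.filter (fun x : ZMod p => ¬ Odd x.val ∧ x ≠ 0), g x := by
    symm
    apply sum_subset
    · intro x hx
      rw [mem_filter] at hx ⊢
      exact ⟨hx.1, hx.2.1⟩
    · intro x hx hx2
      rw [mem_filter] at hx
      rw [mem_filter] at hx2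
      have : x = 0 := by
        by_contra hne
        exact hx2 ⟨mem_univ _, hx.2, hne⟩
      rw [this, h0]
  rw [e1]
  have hodd_ne : ∀ x : ZMod p, Odd x.val → x ≠ 0 := by
    intro x hx h
    rw [h, ZMod.val_zero] at hx
    simp at hx
  apply sum_nbij' (fun x => -x) (fun x => -x)
  · intro x hx
    rw [mem_filter] at hx ⊢
    exact ⟨mem_univ _, (val_neg_parity hp hx.2.2).mpr hx.2.1⟩
  · intro x hx
    rw [mem_filter] at hx ⊢
    refine ⟨mem_univ _, ?_, neg_ne_zero.mpr (hodd_ne x hx.2)⟩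
    rw [val_neg_parity hp (hodd_ne x hx.2)]
    exact not_not.mpr hx.2
  · intro x _; simp
  · intro x _; simp
  · intro x hx
    rw [mem_filter] at hx
    exact (hg x hx.2.2).symm

lemma natCast_val_eq_mod (y : ℕ) : ((y : ZMod p)).val = y % p := ZMod.val_natCast p y

/-- Fourier expansion of the square wave for odd arguments -/
lemma sum_cc_sin_odd (hp : Odd p) {y : ℕ} (hy : Odd y) (hpy : ¬ p ∣ y) :
    ∑ n ∈ H p, cc p n * Real.sin (Real.pi * (n * y) / p) = p / 2 * Phi (y : ZMod p) := by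
  obtain ⟨N, hN⟩ := hp
  have hp0 : (p : ℝ) ≠ 0 := by
    have : p ≠ 0 := by omega
    exact_mod_cast this
  set v := y % p with hv
  set t := y / p with ht
  have hyv : y = v + p * t := (Nat.mod_add_div y p).symm
  have hvp : v < p := Nat.mod_lt _ (by omega)
  have hv0 : v ≠ 0 := by
    intro h
    apply hpy
    exact Nat.dvd_of_mod_eq_zero h
  rw [Phi, natCast_val_eq_mod, ← hv]
  by_cases hvo : Odd v
  · rw [if_pos hvo, mul_one]
    have hte : Even t := by
      by_contra hto
      rw [Nat.not_even_iff_odd] at hto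
      have : Even y := by
        rw [hyv]
        exact hvo.add_odd (Odd.mul (by rw [hN]; exact ⟨N, rfl⟩) hto)
      exact (Nat.not_even_iff_odd.mpr hy) this
    obtain ⟨s, hs⟩ := hte
    have h1 := sum_cc_sin (N := N) (x := v) (by rw [← hN, mem_H]; exact ⟨hvp, hvo⟩)
    rw [← hN] at h1
    rw [← h1]
    apply sum_congr rfl
    intro n _
    congr 1
    have e : Real.pi * (n * y) / p = Real.pi * (n * v) / p + ((n * s : ℕ) : ℝ) * (2 * Real.pi) := by
      rw [hyv, hs]; push_cast; field_simp; ring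
    rw [e, Real.sin_add_nat_mul_two_pi]
  · rw [if_neg hvo]
    have hto : Odd t := by
      by_contra hte
      rw [Nat.not_odd_iff_even] at hte hvo
      have : Even y := by
        rw [hyv]
        exact hvo.add (hte.mul_left _)
      exact (Nat.not_even_iff_odd.mpr hy) this
    obtain ⟨s, hs⟩ := hto
    have hodd : Odd (p - v) := by
      rw [Nat.odd_sub hvp.le]
      exact ⟨fun _ => Nat.not_odd_iff_even.mp hvo, fun _ => by rw [hN]; exact ⟨N, rfl⟩⟩
    have h1 := sum_cc_sin (N := N) (x := p - v) (by rw [← hN, mem_H]; exact ⟨by omega, hodd⟩)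
    rw [← hN] at h1
    rw [mul_neg_one, ← h1, ← sum_neg_distrib]
    apply sum_congr rfl
    intro n _
    rw [← mul_neg]
    congr 1
    have hcast : ((p - v : ℕ) : ℝ) = (p : ℝ) - v := Nat.cast_sub hvp.le
    have e : Real.pi * (n * y) / p = ((n * (s + 1) : ℕ) : ℝ) * (2 * Real.pi) -
        Real.pi * (n * ((p - v : ℕ) : ℝ)) / p := by
      rw [hcast, hyv, hs]; push_cast; field_simp; ring
    rw [e, Real.sin_nat_mul_two_pi_sub]

lemma cot_eq_ff (hp : Odd p) {y : ℕ} (hy : Odd y) (hpy : ¬ p ∣ y) :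
    Real.cos (Real.pi * y / (2 * p)) / Real.sin (Real.pi * y / (2 * p)) = ff (y : ZMod p) := by
  obtain ⟨N, hN⟩ := hp
  have hp0 : (p : ℝ) ≠ 0 := by
    have : p ≠ 0 := by omega
    exact_mod_cast this
  set v := y % p with hv
  set t := y / p with ht
  have hyv : y = v + p * t := (Nat.mod_add_div y p).symm
  have hvp : v < p := Nat.mod_lt _ (by omega)
  rw [ff, natCast_val_eq_mod, ← hv]
  have hcs : ∀ (n : ℕ), Real.cos (n * Real.pi) ^ 2 = 1 := by
    intro n
    have := Real.sin_sq_add_cos_sq (n * Real.pi)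
    rw [Real.sin_nat_mul_pi] at this
    linarith
  by_cases hvo : Odd v
  · rw [if_pos hvo]
    have hte : Even t := by
      by_contra hto
      rw [Nat.not_even_iff_odd] at hto
      have : Even y := by
        rw [hyv]
        exact hvo.add_odd (Odd.mul (by rw [hN]; exact ⟨N, rfl⟩) hto)
      exact (Nat.not_even_iff_odd.mpr hy) this
    obtain ⟨s, hs⟩ := hte
    have e : Real.pi * y / (2 * p) = Real.pi * v / (2 * p) + s * Real.pi := by
      rw [hyv, hs]; push_cast; field_simp; ring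
    have hc0 : Real.cos (s * Real.pi) ≠ 0 := by
      intro h
      have := hcs s
      rw [h] at this
      norm_num at this
    rw [e, Real.cos_add, Real.sin_add, Real.sin_nat_mul_pi, cc]
    simp only [mul_zero, sub_zero, add_zero]
    rw [mul_div_mul_right _ _ hc0]
  · rw [if_neg hvo]
    have hto : Odd t := by
      by_contra hte
      rw [Nat.not_odd_iff_even] at hte hvo
      have : Even y := by
        rw [hyv]
        exact hvo.add (hte.mul_left _)
      exact (Nat.not_even_iff_odd.mpr hy) this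
    obtain ⟨s, hs⟩ := hto
    have hcast : ((p - v : ℕ) : ℝ) = (p : ℝ) - v := Nat.cast_sub hvp.le
    have e : Real.pi * y / (2 * p) = ((s + 1 : ℕ) : ℝ) * Real.pi -
        Real.pi * ((p - v : ℕ) : ℝ) / (2 * p) := by
      rw [hcast, hyv, hs]; push_cast; field_simp; ring
    have hc0 : Real.cos (((s + 1 : ℕ) : ℝ) * Real.pi) ≠ 0 := by
      intro h
      have := hcs (s + 1)
      rw [h] at this
      norm_num at this
    rw [e, Real.cos_sub, Real.sin_sub, Real.sin_nat_mul_pi, cc]
    simp only [zero_mul, add_zero, zero_sub]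
    rw [div_neg, mul_div_mul_left _ _ hc0]

lemma not_dvd_mul_H {h j : ℕ} (hh : h ∈ H p) (hj : j ∈ H p) : ¬ p ∣ h * j := by
  intro hd
  rcases (Fact.out : p.Prime).dvd_mul.mp hd with h1 | h1
  · have := Nat.le_of_dvd (mem_H.mp hh).2.pos h1
    have := (mem_H.mp hh).1
    omega
  · have := Nat.le_of_dvd (mem_H.mp hj).2.pos h1
    have := (mem_H.mp hj).1
    omega

/-- change of variables -/
lemma sum_ff_mul (hp : Odd p) {n : ℕ} (hn : n ∈ H p) :
    ∑ h ∈ H p, ff ((n : ZMod p) * (h : ZMod p)) = ∑ r ∈ H p, cc p r * Phi ((r : ZMod p) * (n : ZMod p)⁻¹) := by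
  have hn0 : (n : ZMod p) ≠ 0 := cast_H_ne_zero hn
  set g1 : ZMod p → ℝ := fun x => if x = 0 then 0 else Phi x * ff ((n : ZMod p) * x) with hg1
  set g2 : ZMod p → ℝ := fun x => if x = 0 then 0 else ff x * Phi (x * (n : ZMod p)⁻¹) with hg2
  have hsum : ∑ x, g1 x = ∑ x, g2 x := by
    apply Fintype.sum_equiv (Equiv.mulLeft₀ (n : ZMod p) hn0)
    intro x
    rw [hg1, hg2]
    simp only [Equiv.mulLeft₀_apply]
    by_cases hx : x = 0
    · simp [hx]
    · rw [if_neg hx, if_neg (mul_ne_zero hn0 hx)]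
      have : (n : ZMod p) * x * (n : ZMod p)⁻¹ = x := by field_simp
      rw [this]; ring
  have h1 : ∑ x, g1 x = 2 * ∑ h ∈ H p, ff ((n : ZMod p) * (h : ZMod p)) := by
    rw [sum_even hp g1]
    · congr 1
      apply sum_congr rfl
      intro h hh
      rw [hg1]
      simp only
      rw [if_neg (cast_H_ne_zero hh), Phi_H hh, one_mul]
    · intro x hx
      rw [hg1]
      simp only
      rw [if_neg hx, if_neg (neg_ne_zero.mpr hx), Phi_neg hp hx, mul_neg,
        ff_neg hp (mul_ne_zero hn0 hx)]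
      ring
    · rw [hg1]; simp
  have h2 : ∑ x, g2 x = 2 * ∑ r ∈ H p, cc p r * Phi ((r : ZMod p) * (n : ZMod p)⁻¹) := by
    rw [sum_even hp g2]
    · congr 1
      apply sum_congr rfl
      intro h hh
      rw [hg2]
      simp only
      rw [if_neg (cast_H_ne_zero hh), ff_H hh]
    · intro x hx
      rw [hg2]
      simp only
      rw [if_neg hx, if_neg (neg_ne_zero.mpr hx), ff_neg hp hx,
        show -x * (n : ZMod p)⁻¹ = -(x * (n : ZMod p)⁻¹) by ring,
        Phi_neg hp (mul_ne_zero hx (inv_ne_zero hn0))]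
      ring
    · rw [hg2]; simp
  have := h1.symm.trans (hsum.trans h2)
  linarith

/-- the main exact formula -/
theorem sum_Phi_eq (hp : Odd p) :
    ∑ h ∈ H p, ∑ j ∈ H p, Phi ((h : ZMod p) * (j : ZMod p)) =
      (1 / p) * ∑ m ∈ H p, cc p m * ∑ r ∈ H p, cc p r * Phi ((r : ZMod p) * (m : ZMod p)⁻¹) := by
  have hpos : 0 < p := (Fact.out : p.Prime).pos
  have hp0 : (p : ℝ) ≠ 0 := by exact_mod_cast hpos.ne'
  have e1 : ∀ h ∈ H p, ∀ j ∈ H p, Phi ((h : ZMod p) * (j : ZMod p)) =
      (2 / p) * ∑ n ∈ H p, cc p n * Real.sin (Real.pi * (n * ((h * j : ℕ) : ℝ)) / p) := by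
    intro h hh j hj
    have := sum_cc_sin_odd hp (y := h * j) ((mem_H.mp hh).2.mul (mem_H.mp hj).2) (not_dvd_mul_H hh hj)
    rw [this]
    push_cast
    field_simp
  have e3 : ∀ n ∈ H p, ∀ h ∈ H p, ∑ j ∈ H p,
      Real.sin (Real.pi * (n * ((h * j : ℕ) : ℝ)) / p) = ff ((n : ZMod p) * (h : ZMod p)) / 2 := by
    intro n hn h hh
    have hodd : Odd (n * h) := (mem_H.mp hn).2.mul (mem_H.mp hh).2
    have hnd : ¬ p ∣ n * h := not_dvd_mul_H hn hh
    have h1 := cot_eq_ff hp hodd hnd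
    obtain ⟨N, hN⟩ := hp
    have h2 := sum_H_sin (N := N) (y := ((n * h : ℕ) : ℤ)) (by exact_mod_cast hodd) (by
      rw [← hN]
      intro h'
      exact hnd (by exact_mod_cast h'))
    rw [← hN] at h2
    simp only [Int.cast_natCast] at h2
    rw [h1] at h2
    push_cast at h2 ⊢
    rw [← h2]
    apply sum_congr rfl
    intro j _
    congr 1
    ring
  calc ∑ h ∈ H p, ∑ j ∈ H p, Phi ((h : ZMod p) * (j : ZMod p))
      = ∑ h ∈ H p, ∑ j ∈ H p, ∑ n ∈ H p, (2 / p) * (cc p n *
          Real.sin (Real.pi * (n * ((h * j : ℕ) : ℝ)) / p)) := by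
        apply sum_congr rfl; intro h hh
        apply sum_congr rfl; intro j hj
        rw [e1 h hh j hj, mul_sum]
    _ = ∑ h ∈ H p, ∑ n ∈ H p, ∑ j ∈ H p, (2 / p) * (cc p n *
          Real.sin (Real.pi * (n * ((h * j : ℕ) : ℝ)) / p)) := by
        apply sum_congr rfl; intro h hh
        rw [sum_comm]
    _ = ∑ n ∈ H p, ∑ h ∈ H p, ∑ j ∈ H p, (2 / p) * (cc p n *
          Real.sin (Real.pi * (n * ((h * j : ℕ) : ℝ)) / p)) := sum_comm
    _ = ∑ n ∈ H p, (1 / p) * (cc p n * ∑ h ∈ H p, ff ((n : ZMod p) * (h : ZMod p))) := by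
        apply sum_congr rfl; intro n hn
        rw [mul_sum, mul_sum]
        apply sum_congr rfl; intro h hh
        rw [← mul_sum, ← mul_sum, e3 n hn h hh]
        ring
    _ = _ := by
        rw [mul_sum]
        apply sum_congr rfl; intro n hn
        rw [sum_ff_mul hp hn]

end Pool.Agent.Helper42
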