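import Mathlib
import Pool.Agent.Helper42.Assembly

open Finset

namespace Pool.Agent.Helper42

lemma sq_le_two_pow : ∀ n : ℕ, 4 ≤ n → n ^ 2 ≤ 2 ^ n := by
  intro n hn
  induction n, hn using Nat.le_induction with
  | base => norm_num
  | succ n hn ih =>
    rw [pow_succ 2 n]
    nlinarith

lemma harm_double (a : ℕ) : ∀ d : ℕ, (d : ℝ) / 2 ≤ ∑ k ∈ Ico ((2 : ℕ) ^ a) (2 ^ (a + d)), (1 / (k : ℝ)) := by
  intro d
  induction d with
  | zero => simp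
  | succ d ih =>
    have h1 : 2 ^ a ≤ 2 ^ (a + d) := Nat.pow_le_pow_right (by norm_num) (by omega)
    have h2 : 2 ^ (a + d) ≤ 2 ^ (a + (d + 1)) := Nat.pow_le_pow_right (by norm_num) (by omega)
    rw [← Finset.sum_Ico_consecutive _ h1 h2]
    have h3 : (1 : ℝ) / 2 ≤ ∑ k ∈ Ico ((2 : ℕ) ^ (a + d)) (2 ^ (a + (d + 1))), (1 / (k : ℝ)) := by
      have hc : (Ico ((2 : ℕ) ^ (a + d)) (2 ^ (a + (d + 1)))).card = 2 ^ (a + d) := by
        rw [Nat.card_Ico, ← add_assoc, pow_succ]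
        omega
      have hterm : ∀ k ∈ Ico ((2 : ℕ) ^ (a + d)) (2 ^ (a + (d + 1))),
          (1 : ℝ) / 2 ^ (a + (d + 1)) ≤ 1 / (k : ℝ) := by
        intro k hk
        rw [mem_Ico] at hk
        have hk0 : 0 < k := lt_of_lt_of_le (by positivity) hk.1
        apply one_div_le_one_div_of_le (by exact_mod_cast hk0)
        exact_mod_cast hk.2.le
      have := Finset.card_nsmul_le_sum _ _ _ hterm
      rw [hc, nsmul_eq_mul] at this
      refine le_trans (le_of_eq ?_) this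
      push_cast
      rw [← add_assoc, pow_succ]
      field_simp
    push_cast
    linarith

lemma QS_mass {A0 : ℝ} (hA : ∀ p k : ℕ, 1 ≤ k → A0 ≤ k → 80 * (k : ℝ) ^ 2 ≤ Real.log p →
    1 / (160 * (k : ℝ)) ≤ ∑ q ∈ bl p k, (1 / (q : ℝ))) {p a d j : ℕ}
    (h0 : A0 ≤ (2 : ℝ) ^ a) (hL : 80 * ((2 ^ (a + d) : ℕ) : ℝ) ^ 2 ≤ Real.log p)
    (hd : 640 * j ≤ d) :
    2 * (j : ℝ) ≤ ∑ q ∈ QS p (2 ^ a) (2 ^ (a + d)), (1 / (q : ℝ)) := by
  rw [sum_QS Nat.one_le_two_pow]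
  have h1 : ∑ k ∈ Ico ((2 : ℕ) ^ a) (2 ^ (a + d)), (1 / 160 : ℝ) * (1 / (k : ℝ)) ≤
      ∑ k ∈ Ico ((2 : ℕ) ^ a) (2 ^ (a + d)), ∑ q ∈ bl p k, (1 / (q : ℝ)) := by
    apply sum_le_sum
    intro k hk
    rw [mem_Ico] at hk
    have hk1 : 1 ≤ k := le_trans Nat.one_le_two_pow hk.1
    have hk2 : (2 : ℝ) ^ a ≤ k := by exact_mod_cast hk.1
    have hk3 : (k : ℝ) ≤ ((2 ^ (a + d) : ℕ) : ℝ) := by exact_mod_cast hk.2.le
    have := hA p k hk1 (h0.trans hk2) (by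
      refine le_trans ?_ hL
      gcongr)
    refine le_trans (le_of_eq ?_) this
    rw [one_div_mul_one_div]
  refine le_trans ?_ h1
  rw [← mul_sum]
  have h2 := harm_double a d
  have h3 : (640 : ℝ) * j ≤ d := by exact_mod_cast hd
  linarith

lemma nat_est1 {w u : ℕ} (h5 : u ≤ 2 * w + 1) (h7 : 100000 ≤ w) :
    6 * (u + 2) ^ 2 + 2 * (u + 2) + 2 ≤ w ^ 2 * w ^ 2 := by
  have h8 : u + 2 ≤ 3 * w := by omega
  have h9 : (u + 2) ^ 2 ≤ (3 * w) ^ 2 := Nat.pow_le_pow_left h8 2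
  have h10 : w * 1 ≤ w * w := Nat.mul_le_mul_left w (by omega)
  have h11 : 100 * w ^ 2 ≤ w ^ 2 * w ^ 2 := by
    apply Nat.mul_le_mul_right
    have : 100 * 1 ≤ w * w := Nat.mul_le_mul (by omega) (by omega)
    rw [pow_two]; omega
  have h12 : (3 * w) ^ 2 = 9 * w ^ 2 := by ring
  have h13 : w * w = w ^ 2 := by ring
  omega

lemma nat_est2 {u : ℕ} (hu : 320000 ≤ u) : 6 * u ≤ 2 ^ (u / 2) := by
  have h5 := sq_le_two_pow (u / 2) (by omega)
  have h6 : u ≤ 2 * (u / 2) + 1 := by omega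
  have h7 : 100000 ≤ u / 2 := by omega
  have h8 : 100000 * (u / 2) ≤ (u / 2) * (u / 2) := Nat.mul_le_mul_right _ h7
  rw [pow_two] at h5
  omega

lemma nat_est3 {t u : ℕ} (ht : 50000 ≤ t) (h : 2 ^ t ≤ u) : 20000 * (2 * t + 16) ≤ u := by
  have h1 := sq_le_two_pow t (by omega)
  have h2 : 50000 * t ≤ t * t := Nat.mul_le_mul_right _ ht
  rw [pow_two] at h1
  omega

/-- the quantitative conclusion -/
theorem final_bound : ∃ P0 : ℕ, ∀ p : ℕ, P0 ≤ p → p.Prime → Odd p →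
    Real.log p / 32 * p ≤
    ((∑ h ∈ Icc 1 (p - 1), ∑ j ∈ Icc 1 (p - 1), (-1 : ℤ) ^ (j + 1 + h * j / p) : ℤ) : ℝ) := by
  obtain ⟨A0, hA0, hA⟩ := bl_mass
  obtain ⟨T, hT⟩ : ∃ T, T = max 50000 ⌈A0⌉₊ := ⟨_, rfl⟩
  refine ⟨2 ^ (2 ^ (2 ^ T)), ?_⟩
  intro p hp hprime hodd
  haveI : Fact p.Prime := ⟨hprime⟩
  obtain ⟨N, hN⟩ := hodd
  have hp0 : p ≠ 0 := hprime.ne_zero
  have hpR : (0 : ℝ) < p := by exact_mod_cast hprime.pos
  obtain ⟨l, hl⟩ : ∃ l, l = Nat.log 2 p := ⟨_, rfl⟩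
  obtain ⟨u, hu⟩ : ∃ u, u = Nat.log 2 l := ⟨_, rfl⟩
  obtain ⟨t, ht⟩ : ∃ t, t = Nat.log 2 u := ⟨_, rfl⟩
  have hl1 : 2 ^ (2 ^ T) ≤ l := by
    rw [hl]; exact Nat.le_log_of_pow_le (by norm_num) hp
  have hu1 : 2 ^ T ≤ u := by
    rw [hu]; exact Nat.le_log_of_pow_le (by norm_num) hl1
  have ht1 : T ≤ t := by
    rw [ht]; exact Nat.le_log_of_pow_le (by norm_num) hu1
  have ht2 : 50000 ≤ t := le_trans (by rw [hT]; exact le_max_left _ _) ht1
  have htA : A0 ≤ t := by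
    have h1 : A0 ≤ ⌈A0⌉₊ := Nat.le_ceil _
    have h2 : (⌈A0⌉₊ : ℝ) ≤ t := by
      have : ⌈A0⌉₊ ≤ t := le_trans (by rw [hT]; exact le_max_right _ _) ht1
      exact_mod_cast this
    linarith
  have hu0 : u ≠ 0 := by
    have : 0 < 2 ^ T := by positivity
    omega
  have hl0 : l ≠ 0 := by
    have : 0 < 2 ^ (2 ^ T) := by positivity
    omega
  have a1 : 2 ^ t ≤ u := by rw [ht]; exact Nat.pow_log_le_self 2 hu0
  have a2 : u < 2 ^ (t + 1) := by rw [ht]; exact Nat.lt_pow_succ_log_self (by norm_num) u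
  have b1 : 2 ^ u ≤ l := by rw [hu]; exact Nat.pow_log_le_self 2 hl0
  have b2 : l < 2 ^ (u + 1) := by rw [hu]; exact Nat.lt_pow_succ_log_self (by norm_num) l
  have c1 : 2 ^ l ≤ p := by rw [hl]; exact Nat.pow_log_le_self 2 hp0
  have c2 : p < 2 ^ (l + 1) := by rw [hl]; exact Nat.lt_pow_succ_log_self (by norm_num) p
  -- size of u against t
  have d1 : 20000 * (2 * t + 16) ≤ u := nat_est3 ht2 a1
  -- parameters
  obtain ⟨j, hj⟩ : ∃ j, j = 2 * t + 16 := ⟨_, rfl⟩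
  have d2 : 20000 * j ≤ u := by rw [hj]; exact d1
  have hju : 16 ≤ j := by omega
  have hu4 : 320000 ≤ u := by omega
  have hsq := sq_le_two_pow u (by omega)
  -- log p
  have hl2a := Real.log_two_gt_d9
  have hl2b := Real.log_two_lt_d9
  have hLlow : (l : ℝ) / 2 ≤ Real.log p := by
    have h1 : Real.log ((2 ^ l : ℕ) : ℝ) ≤ Real.log p :=
      Real.log_le_log (by positivity) (by exact_mod_cast c1)
    push_cast at h1
    rw [Real.log_pow] at h1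
    have h2 : (0 : ℝ) ≤ l := by positivity
    nlinarith
  have hLup : Real.log p ≤ (l : ℝ) + 1 := by
    have h1 : Real.log p ≤ Real.log ((2 ^ (l + 1) : ℕ) : ℝ) :=
      Real.log_le_log hpR (by exact_mod_cast c2.le)
    push_cast at h1
    rw [Real.log_pow] at h1
    push_cast at h1
    have h2 : (0 : ℝ) ≤ l := by positivity
    nlinarith
  have hLlow2 : (2 : ℝ) ^ (u - 1) ≤ Real.log p := by
    have h1 : (2 : ℝ) ^ u ≤ l := by exact_mod_cast b1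
    have h2 : (2 : ℝ) ^ u = 2 ^ (u - 1) * 2 := by
      rw [← pow_succ]; congr 1; omega
    linarith
  have hLup2 : 1 + Real.log p ≤ (2 : ℝ) ^ (u + 2) := by
    have h1 : (l : ℝ) + 1 ≤ 2 ^ (u + 1) := by exact_mod_cast b2
    have h2 : (2 : ℝ) ^ (u + 2) = 2 * 2 ^ (u + 1) := by rw [pow_succ]; ring
    have h3 : (1 : ℝ) ≤ 2 ^ (u + 1) := one_le_pow₀ (by norm_num)
    linarith
  have hL0 : 0 ≤ Real.log p := Real.log_natCast_nonneg p
  have hL1 : 1 ≤ Real.log p := by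
    have h3 : (1 : ℝ) ≤ 2 ^ (u - 1) := one_le_pow₀ (by norm_num)
    linarith
  -- the power-of-two parameters
  obtain ⟨K0, hK0⟩ : ∃ K0, K0 = 2 ^ j := ⟨_, rfl⟩
  obtain ⟨K1, hK1⟩ : ∃ K1, K1 = 2 ^ (j + 640 * j) := ⟨_, rfl⟩
  obtain ⟨K2, hK2⟩ : ∃ K2, K2 = 2 ^ (j + 640 * j + 640 * j) := ⟨_, rfl⟩
  have hK0' : 1 ≤ K0 := by rw [hK0]; exact Nat.one_le_two_pow
  have h01 : K0 ≤ K1 := by rw [hK0, hK1]; exact Nat.pow_le_pow_right (by norm_num) (by omega)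
  have h12 : K1 ≤ K2 := by rw [hK1, hK2]; exact Nat.pow_le_pow_right (by norm_num) (by omega)
  have hjK : j ≤ K0 := by rw [hK0]; exact Nat.lt_two_pow_self.le
  have hL80 : 80 * (K2 : ℝ) ^ 2 ≤ Real.log p := by
    refine le_trans ?_ hLlow2
    rw [hK2]
    push_cast
    rw [← pow_mul]
    calc (80 : ℝ) * 2 ^ ((j + 640 * j + 640 * j) * 2) ≤ 2 ^ 7 * 2 ^ ((j + 640 * j + 640 * j) * 2) := by
          gcongr; norm_num
      _ = 2 ^ (7 + (j + 640 * j + 640 * j) * 2) := by rw [pow_add]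
      _ ≤ 2 ^ (u - 1) := by
          apply pow_le_pow_right₀ (by norm_num)
          omega
  have hL80' : 80 * (K1 : ℝ) ^ 2 ≤ Real.log p := by
    refine le_trans ?_ hL80
    have : (K1 : ℝ) ≤ K2 := by exact_mod_cast h12
    gcongr
  have hA2 : A0 ≤ (2 : ℝ) ^ j := by
    have h1 : (t : ℝ) ≤ j := by
      have : t ≤ j := by omega
      exact_mod_cast this
    have h2 : (j : ℝ) ≤ 2 ^ j := by rw [hK0] at hjK; exact_mod_cast hjK
    linarith
  have hA2' : A0 ≤ (2 : ℝ) ^ (j + 640 * j) := by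
    refine hA2.trans ?_
    apply pow_le_pow_right₀ (by norm_num)
    omega
  have hm1 : 2 * (j : ℝ) ≤ ∑ q ∈ QS p K0 K1, (1 / (q : ℝ)) := by
    rw [hK1] at hL80'
    rw [hK0, hK1]
    exact QS_mass hA (p := p) (a := j) (d := 640 * j) (j := j) hA2 hL80' (Nat.le_refl _)
  have hm2 : 2 * (j : ℝ) ≤ ∑ q ∈ QS p K1 K2, (1 / (q : ℝ)) := by
    rw [hK2] at hL80
    rw [hK1, hK2]
    exact QS_mass hA (p := p) (a := j + 640 * j) (d := 640 * j) (j := j) hA2' hL80 (Nat.le_refl _)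
  -- J and i0
  obtain ⟨J, hJ⟩ : ∃ J, J = 3 * (u + 2) := ⟨_, rfl⟩
  obtain ⟨E, hE⟩ : ∃ E, E = 6 * (u + 2) ^ 2 + 2 * (u + 2) := ⟨_, rfl⟩
  obtain ⟨i0, hi0⟩ : ∃ i0, i0 = 2 ^ E := ⟨_, rfl⟩
  have hi0pos : 0 < i0 := by rw [hi0]; positivity
  have hE1 : E + 2 ≤ l := by
    refine le_trans ?_ b1
    have h3 : (u / 2) ^ 2 ≤ 2 ^ (u / 2) := sq_le_two_pow (u / 2) (by omega)
    have h4 : 2 ^ (u / 2) * 2 ^ (u / 2) ≤ 2 ^ u := by
      rw [← pow_add]
      exact Nat.pow_le_pow_right (by norm_num) (by omega)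
    have h5 : u ≤ 2 * (u / 2) + 1 := by omega
    have h6 : (u / 2) ^ 2 * (u / 2) ^ 2 ≤ 2 ^ u := le_trans (Nat.mul_le_mul h3 h3) h4
    have h7 : 100000 ≤ u / 2 := by omega
    refine le_trans ?_ h6
    rw [hE]
    exact nat_est1 h5 h7
  have hi0N : i0 ≤ N := by
    have h1 : 2 ^ (E + 2) ≤ p := le_trans (Nat.pow_le_pow_right (by norm_num) hE1) c1
    rw [pow_add] at h1
    have h2 : 0 < 2 ^ E := by positivity
    omega
  have hass := assembly (J := J) hN hi0N hi0pos hK0' h01 h12 hL80 (by omega) hjK hm1 hm2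
  -- estimates
  have e1 : (1 + Real.log p) ^ 3 / 2 ^ J ≤ 1 := by
    rw [div_le_one (by positivity), hJ, mul_comm 3 (u + 2), pow_mul]
    exact pow_le_pow_left₀ (by linarith) hLup2 3
  have hZ : (ZZ p J : ℝ) ≤ 2 ^ (6 * (u + 2) ^ 2) := by
    have h1 : Nat.log 2 (p ^ 2) + 1 ≤ 2 ^ (u + 2) := by
      have h2 : p ^ 2 < 2 ^ (2 * (l + 1)) := by
        rw [mul_comm, pow_mul]
        exact Nat.pow_lt_pow_left c2 (by norm_num)
      have h3 : Nat.log 2 (p ^ 2) < 2 * (l + 1) :=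
        Nat.log_lt_of_lt_pow (pow_ne_zero _ hp0) h2
      have h4 : 2 ^ (u + 2) = 2 * 2 ^ (u + 1) := by rw [pow_succ]; ring
      omega
    have h5 : ZZ p J ≤ 2 ^ (6 * (u + 2) ^ 2) := by
      calc ZZ p J = ((Nat.log 2 (p ^ 2) + 1) ^ 2) ^ J := rfl
        _ ≤ ((2 ^ (u + 2)) ^ 2) ^ J := by gcongr
        _ = 2 ^ (6 * (u + 2) ^ 2) := by
            rw [← pow_mul, ← pow_mul, hJ]
            congr 1
            ring
    exact_mod_cast h5
  have e2 : 40 * (1 + Real.log p) ^ 2 * ZZ p J / ((2 * i0 : ℕ) : ℝ) ≤ 20 := by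
    rw [div_le_iff₀ (by positivity)]
    have h1 : (1 + Real.log p) ^ 2 ≤ (2 ^ (u + 2)) ^ 2 := pow_le_pow_left₀ (by linarith) hLup2 2
    calc 40 * (1 + Real.log p) ^ 2 * ZZ p J ≤ 40 * ((2 : ℝ) ^ (u + 2)) ^ 2 * 2 ^ (6 * (u + 2) ^ 2) := by
          gcongr
      _ = 20 * ((2 * i0 : ℕ) : ℝ) := by
          have g1 : ((2 : ℝ) ^ (u + 2)) ^ 2 = 2 ^ (2 * (u + 2)) := by rw [← pow_mul, mul_comm]
          rw [hi0, hE, g1]
          push_cast
          rw [pow_add 2 (6 * (u + 2) ^ 2) (2 * (u + 2))]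
          ring
  have hlogi : 1 + Real.log ((2 * i0 : ℕ) : ℝ) ≤ 2 ^ (2 * t + 8) := by
    have h1 : Real.log ((2 * i0 : ℕ) : ℝ) = (E + 1 : ℝ) * Real.log 2 := by
      rw [hi0]
      push_cast
      rw [← pow_succ', Real.log_pow]
      push_cast
      ring
    have h2 : Real.log ((2 * i0 : ℕ) : ℝ) ≤ (E + 1 : ℝ) := by
      rw [h1]
      have : (0 : ℝ) ≤ E := by positivity
      nlinarith
    have h3 : E + 2 ≤ 2 ^ (2 * t + 8) := by
      have h4 : u + 2 ≤ 2 ^ (t + 2) := by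
        have : 2 ^ (t + 2) = 2 * 2 ^ (t + 1) := by rw [pow_succ]; ring
        omega
      have h5 : (u + 2) ^ 2 ≤ 2 ^ (2 * t + 4) := by
        calc (u + 2) ^ 2 ≤ (2 ^ (t + 2)) ^ 2 := Nat.pow_le_pow_left h4 2
          _ = 2 ^ (2 * t + 4) := by rw [← pow_mul]; congr 1; ring
      have h6 : 2 ^ (2 * t + 8) = 16 * 2 ^ (2 * t + 4) := by
        rw [show 2 * t + 8 = 4 + (2 * t + 4) by ring, pow_add]; norm_num
      rw [h6, hE]
      nlinarith
    have h7 : (E + 2 : ℝ) ≤ 2 ^ (2 * t + 8) := by exact_mod_cast h3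
    linarith
  have hDBt : (1 + Real.log p) * ((K2 : ℝ) ^ 2 * (2 * (1 + Real.log p) * DB p K2)) ≤ 1 := by
    have hK2r : (K2 : ℝ) = 2 ^ (1281 * j) := by
      rw [hK2]; push_cast; congr 1; ring
    have h1 : (1 + Real.log p) * ((K2 : ℝ) ^ 2 * (2 * (1 + Real.log p) * DB p K2)) =
        2 * ((1 + Real.log p) ^ 4 * (K2 : ℝ) ^ 4) * Real.exp (- (Real.log p / (8 * (K2 : ℝ) ^ 3))) := by
      rw [DB]; ring
    rw [h1, Real.exp_neg, ← div_eq_mul_inv, div_le_one (Real.exp_pos _)]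
    have h2 : 2 * ((1 + Real.log p) ^ 4 * (K2 : ℝ) ^ 4) ≤ 2 ^ (6 * u) := by
      calc 2 * ((1 + Real.log p) ^ 4 * (K2 : ℝ) ^ 4) ≤
          2 * (((2 : ℝ) ^ (u + 2)) ^ 4 * ((2 : ℝ) ^ (1281 * j)) ^ 4) := by
            rw [hK2r]
            gcongr
        _ = 2 ^ (1 + ((u + 2) * 4 + 1281 * j * 4)) := by
            rw [pow_add 2 1, pow_add 2 ((u + 2) * 4), ← pow_mul, ← pow_mul, pow_one]
        _ ≤ 2 ^ (6 * u) := by
            apply pow_le_pow_right₀ (by norm_num)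
            omega
    have hK2pos : (0 : ℝ) < K2 := by rw [hK2r]; positivity
    have h3 : (6 * u : ℝ) ≤ Real.log p / (8 * (K2 : ℝ) ^ 3) := by
      rw [le_div_iff₀ (by positivity)]
      refine le_trans ?_ hLlow2
      rw [hK2r, ← pow_mul]
      have h4 : 6 * u ≤ 2 ^ (u / 2) := nat_est2 hu4
      have h8 : (6 * u : ℝ) ≤ 2 ^ (u / 2) := by exact_mod_cast h4
      calc (6 * u : ℝ) * (8 * 2 ^ (1281 * j * 3)) ≤ 2 ^ (u / 2) * (2 ^ 3 * 2 ^ (1281 * j * 3)) := by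
            norm_num
            exact_mod_cast h4
        _ = 2 ^ (u / 2 + (3 + 1281 * j * 3)) := by rw [pow_add, pow_add]
        _ ≤ 2 ^ (u - 1) := by
            apply pow_le_pow_right₀ (by norm_num)
            omega
    calc 2 * ((1 + Real.log p) ^ 4 * (K2 : ℝ) ^ 4) ≤ 2 ^ (6 * u) := h2
      _ ≤ (Real.exp 1) ^ (6 * u) := by
          apply pow_le_pow_left₀ (by norm_num)
          have := Real.add_one_le_exp (1 : ℝ)
          linarith
      _ = Real.exp ((6 * u : ℕ) : ℝ) := by rw [← Real.exp_nat_mul, mul_one]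
      _ ≤ Real.exp (Real.log p / (8 * (K2 : ℝ) ^ 3)) := by
          apply Real.exp_le_exp.2
          push_cast
          exact h3
  have hAM : 1 + AM p K0 K2 j ≤ 3 + 8 * Real.log p / 2 ^ j := by
    unfold AM
    have hK0r : (K0 : ℝ) = 2 ^ j := by rw [hK0]; push_cast; rfl
    rw [hK0r]
    have h1 : 2 * ((1 + 2 * Real.log p) / 2 ^ j) + 2 * (Real.log p / 2 ^ j) ≤
        8 * Real.log p / 2 ^ j := by
      rw [← mul_div_assoc, ← mul_div_assoc, ← add_div]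
      apply div_le_div_of_nonneg_right _ (by positivity)
      linarith
    linarith
  have hprod : (1 + AM p K0 K2 j) * (1 + Real.log ((2 * i0 : ℕ) : ℝ)) ≤
      3 * 2 ^ (2 * t + 8) + Real.log p / 32 := by
    have hn1 : 0 ≤ 1 + AM p K0 K2 j := by
      have := AM_nonneg p K0 K2 j
      linarith
    have hn2 : 0 ≤ 1 + Real.log ((2 * i0 : ℕ) : ℝ) := by
      have := Real.log_natCast_nonneg (2 * i0)
      linarith
    calc (1 + AM p K0 K2 j) * (1 + Real.log ((2 * i0 : ℕ) : ℝ)) ≤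
        (3 + 8 * Real.log p / 2 ^ j) * 2 ^ (2 * t + 8) := by
          apply mul_le_mul hAM hlogi hn2
          positivity
      _ = 3 * 2 ^ (2 * t + 8) + Real.log p / 32 := by
          have : (2 : ℝ) ^ j = 256 * 2 ^ (2 * t + 8) := by
            rw [hj, show 2 * t + 16 = 8 + (2 * t + 8) by ring, pow_add]; norm_num
          rw [this]
          field_simp
          ring
  have hfin : 3 * (2 : ℝ) ^ (2 * t + 8) + 23 ≤ Real.log p / 64 := by
    rw [le_div_iff₀ (by norm_num)]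
    refine le_trans ?_ hLlow2
    have h1 : (23 : ℝ) ≤ 2 ^ (2 * t + 8) := by
      calc (23 : ℝ) ≤ 2 ^ 8 := by norm_num
        _ ≤ 2 ^ (2 * t + 8) := pow_le_pow_right₀ (by norm_num) (by omega)
    calc (3 * (2 : ℝ) ^ (2 * t + 8) + 23) * 64 ≤ 2 ^ 8 * 2 ^ (2 * t + 8) := by linarith
      _ = 2 ^ (8 + (2 * t + 8)) := by rw [pow_add 2 8]
      _ ≤ 2 ^ (u - 1) := by
          apply pow_le_pow_right₀ (by norm_num)
          omega
  refine le_trans ?_ hass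
  have hbr : Real.log p / 64 ≤ (Real.log p - 5) / 16 -
      (1 + AM p K0 K2 j) * (1 + Real.log ((2 * i0 : ℕ) : ℝ)) -
      (1 + 40 * (1 + Real.log p) ^ 2 * ZZ p J / ((2 * i0 : ℕ) : ℝ) +
      (1 + Real.log p) ^ 3 / 2 ^ J) := by
    linarith
  calc Real.log p / 32 * p = 2 * (p : ℝ) * (Real.log p / 64) := by ring
    _ ≤ _ := mul_le_mul_of_nonneg_left hbr (by positivity)

end Pool.Agent.Helper42
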